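import Pool.Agent.P.MP_42fc1a_nt.TU.IfL

/-! Step ALS. -/

set_option autoImplicit false
set_option linter.unusedSectionVars false

namespace Pool.Agent.P.MP_42fc1a_nt.TU

open Polynomial Finset
open Pool.Agent.P.MP_8be758_nt.L2 (IsPr Pd mem_Pd)
open scoped Classical

theorem als_dvd (y L0 L j : ℕ) (h0 : L0 ∈ (y + 1).smoothNumbers) (h1 : L0 ∣ L) :
    2 ^ L0 - 1 ∣ cj y L0 L j := by
  unfold cj
  split_ifs with a b
  · exact dvd_rfl
  · obtain ⟨hp, hy, -⟩ := b
    refine Nat.pow_sub_one_dvd_pow_sub_one 2 ?_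
    have hc : L0.Coprime j := by
      refine ((Nat.Prime.coprime_iff_not_dvd hp).2 fun hd => ?_).symm
      have := (Nat.mem_smoothNumbers'.1 h0) j hp hd
      omega
    refine (hc.pow_right (L.factorization j)).dvd_of_dvd_mul_left ?_
    rw [Nat.ordProj_mul_ordCompl_eq_self]
    exact h1
  · exact dvd_zero _

theorem p_ALS :
    S_ALS := by
  intro N D M _ y L0 L G j ω h0 h1 _
  refine ⟨fun i => alf i + ∑ j' ∈ univ.erase j, cj y L0 L j'.val * (ω j' i).val, fun i => ?_, ?_⟩
  · obtain ⟨m, hm⟩ : 2 ^ L0 - 1 ∣ ∑ j' ∈ univ.erase j, cj y L0 L j'.val * (ω j' i).val :=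
      dvd_sum fun j' _ => (als_dvd y L0 L j'.val h0 h1).mul_right _
    exact ⟨m, congrArg (alf i + ·) hm⟩
  · unfold al sh
    rw [Fintype.card_fun, ZMod.card, Nat.cast_pow]
    congr 1
    refine sum_congr (by ext; simp) fun t _ => congrArg (fun a => ind (G a)) ?_
    funext i
    unfold ex
    beta_reduce
    rw [← add_sum_erase univ _ (mem_univ j), Function.update_self, add_comm (_ * _), ← add_assoc]
    congr 2
    refine sum_congr rfl fun j' hj' => ?_
    rw [Function.update_of_ne (ne_of_mem_erase hj')]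

end Pool.Agent.P.MP_42fc1a_nt.TU
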