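import Pool.Agent.P.MP_42fc1a_nt.TU.IfL

/-! Step AV. -/

set_option autoImplicit false
set_option linter.unusedSectionVars false

namespace Pool.Agent.P.MP_42fc1a_nt.TU

open Polynomial Finset
open Pool.Agent.P.MP_8be758_nt.L2 (IsPr Pd mem_Pd)
open scoped Classical

theorem AV_cj {y L0 L : ℕ} (h0 : L0 ∈ (y + 1).smoothNumbers) (h : L0 ∣ L) (j : ℕ) :
    2 ^ L0 - 1 ∣ cj y L0 L j := by
  unfold cj
  split_ifs with h1 h2
  · rfl
  · refine Nat.pow_sub_one_dvd_pow_sub_one 2 ?_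
    have c : L0.Coprime (j ^ L.factorization j) := by
      refine Nat.Coprime.pow_right _ ((Nat.Prime.coprime_iff_not_dvd h2.1).2 fun hd => ?_).symm
      have := Nat.mem_smoothNumbers'.1 h0 j h2.1 hd
      omega
    refine c.dvd_of_dvd_mul_left ?_
    rwa [Nat.ordProj_mul_ordCompl_eq_self]
  · exact dvd_zero _

theorem AV_al {n : ℕ} {Ω τ : Type} [Fintype Ω] [Nonempty Ω] (T : Finset τ)
    (B : τ → (Fin n → Ω) → Prop) (j : Fin n) (x : Fin n → Ω) :
    al (fun x => ∃ t ∈ T, B t x) j x ≤ ∑ t ∈ T, al (B t) j x := by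
  unfold al
  rw [← sum_div, sum_comm]
  gcongr with ω
  by_cases h : ∃ t ∈ T, B t (Function.update x j ω)
  · rw [ind_pos h]
    obtain ⟨t, ht, h2⟩ := h
    exact (ind_pos h2).ge.trans (single_le_sum (f := fun t => ind (B t (Function.update x j ω)))
      (fun _ _ => ind_nonneg _) ht)
  · rw [ind_neg h]
    exact sum_nonneg fun _ _ => ind_nonneg _

/-- the largest prime factor -/
def lp (d : ℕ) : ℕ := d.primeFactors.sup id

theorem le_lp {d p : ℕ} (hd : d ≠ 0) (hp : p.Prime) (h : p ∣ d) : p ≤ lp d :=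
  le_sup (f := id) (Nat.mem_primeFactors.2 ⟨hp, h, hd⟩)

theorem lp_spec {d : ℕ} (h : 0 < lp d) : (lp d).Prime ∧ lp d ∣ d := by
  rcases d.primeFactors.eq_empty_or_nonempty with h0 | h0
  · simp [lp, h0] at h
  · obtain ⟨q, hq, h1⟩ := exists_mem_eq_sup _ h0 id
    rw [lp, h1]
    exact ⟨Nat.prime_of_mem_primeFactors hq, Nat.dvd_of_mem_primeFactors hq⟩

theorem smooth_lp {d y : ℕ} (hd : d ≠ 0) (h : lp d ≤ y) : d ∈ (y + 1).smoothNumbers :=
  Nat.mem_smoothNumbers'.2 fun p hp hpd => Nat.lt_succ_of_le ((le_lp hd hp hpd).trans h)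

theorem p_AV (hORD : S_ORD) (hPP : S_PP) (hPER : S_PER) (hDEG : S_DEG) (hDEG2 : S_DEG2) (hALS : S_ALS) (hIND : S_IND) (hDIST : S_DIST) (hSM : S_SM) (hS0 : S_S0) (hS1 : S_S1) (hS2 : S_S2) (hS3 : S_S3) (hS4 : S_S4) (hEX2 : S_EX2) :
    S_AV := by
  obtain ⟨k1, E1, hPP⟩ := hPP
  obtain ⟨y1, hSM⟩ := hSM
  obtain ⟨y2, hS2⟩ := hS2
  obtain ⟨y, hy⟩ : ∃ y, y = y1 + y2 + 4400 := ⟨_, rfl⟩
  obtain ⟨D0, hD0, hS1⟩ := hS1 y
  obtain ⟨L0, hL0⟩ : ∃ L0, L0 = D0 * y.factorial := ⟨_, rfl⟩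
  have s0 : L0 ∈ (y + 1).smoothNumbers := by
    rw [hL0]
    exact Nat.mul_mem_smoothNumbers hD0 (Nat.mem_smoothNumbers'.2 fun p hp h =>
      Nat.lt_succ_of_le (hp.dvd_factorial.1 h))
  have p0 : 1 ≤ L0 := Nat.one_le_iff_ne_zero.2 s0.1
  obtain ⟨c, hc⟩ : ∃ c, c = 2 ^ L0 - 1 := ⟨_, rfl⟩
  have c1 : 1 ≤ c := by
    have := Nat.one_lt_two_pow (n := L0) (by omega)
    omega
  obtain ⟨E3, hS3⟩ := hS3 c c1
  obtain ⟨E4, hS4⟩ := hS4 c c1
  obtain ⟨E, hE⟩ : ∃ E, E = E1 + E3 + E4 + 2 := ⟨_, rfl⟩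
  have E2 : (2 : ℝ) ≤ E := by exact_mod_cast (by omega : 2 ≤ E)
  have r0 : (0 : ℝ) ≤ 1 - 1 / E := by
    rw [sub_nonneg, div_le_one (by linarith)]; linarith
  have r1 : (1 : ℝ) - 1 / E < 1 := sub_lt_self _ (by positivity)
  obtain ⟨N0, hN0⟩ := exists_pow_lt_of_lt_one (show (0 : ℝ) < 1 / 2 ^ (c * E) by positivity) r1
  have hN : (1 - 1 / (E : ℝ)) ^ (N0 + k1) ≤ 1 / 2 ^ (c * E) :=
    (pow_le_pow_of_le_one r0 r1.le (by omega)).trans hN0.le
  have hk : k1 ≤ (N0 + k1) * (c * E) :=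
    le_trans (by omega) (Nat.le_mul_of_pos_right _ (Nat.mul_pos c1 (by omega)))
  generalize N0 + k1 = N at hN hk
  refine ⟨c, N, c * E, c1, fun f S hS => ?_⟩
  obtain ⟨L, hL⟩ : ∃ L, L = L0 * ∏ P ∈ S, P.natDegree := ⟨_, rfl⟩
  have d1 : ∀ P ∈ S, 1 ≤ P.natDegree := fun P hP => (hS P hP).1.pos
  have L1 : 1 ≤ L := by
    rw [hL]; exact Nat.mul_pos p0 (prod_pos d1)
  have dL : ∀ P ∈ S, P.natDegree ∣ L := fun P hP => hL ▸ (dvd_prod_of_mem _ hP).mul_left _
  have L0L : L0 ∣ L := hL ▸ dvd_mul_right _ _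
  have M1 : 0 < 2 ^ L - 1 := by
    have := Nat.one_lt_two_pow (n := L) (by omega)
    omega
  haveI : NeZero (2 ^ L - 1) := ⟨M1.ne'⟩
  have dM : ∀ P ∈ S, 2 ^ P.natDegree - 1 ∣ 2 ^ L - 1 := fun P hP =>
    Nat.pow_sub_one_dvd_pow_sub_one 2 (dL P hP)
  have e1 : ∀ P ∈ S, 1 < oo P c := fun P hP => by
    obtain ⟨a, b, g⟩ := hS P hP
    obtain ⟨o1, -, o3, -⟩ := hORD P c a b
    refine lt_of_le_of_ne o3 fun h => g ?_
    simpa using (o1 1).2 (h ▸ dvd_rfl)
  have cj0 : cj y L0 L (0 : Fin (L + 1)).val = c := by simp [cj, hc]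
  let Mn : (ZMod 2)[X] → Prop := fun P => y < lp P.natDegree ∧
    (2 ^ P.natDegree) ^ 6 ≤ oo P (cj y L0 L (lp P.natDegree)) ^ 10
  let U : (ZMod 2)[X] → Prop := fun P => ∀ b : IX N (c * E) → ℕ, (∀ i, ∃ m, b i = alf i + c * m) →
    sh (2 ^ L - 1) c b (Cad P f) ≤ 2 / 2 ^ P.natDegree
  have hκ : ∀ P, ∃ κ, P ∈ S → ¬ U P → E < oo P c ∧ 1 ≤ κ ∧
      oo P c ^ 19 ≤ Nat.gcd (oo P c) (2 ^ κ - 1) ^ 20 ∧ ∀ b : IX N (c * E) → ℕ,
        sh (2 ^ L - 1) c b (Cad P f) ≤ 1 / (oo P c : ℝ) ^ 4 +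
          4 / (((2 : ℝ) ^ κ) ^ (4 / 15 : ℝ) * (oo P c : ℝ) ^ (21 / 20 : ℝ)) := fun P => by
    by_cases h : P ∈ S ∧ ¬ U P
    · obtain ⟨hP, hU⟩ := h
      obtain ⟨a, b, -⟩ := hS P hP
      obtain ⟨-, q2, q3⟩ := hPP P (2 ^ L - 1) c N (c * E) a b (dM P hP)
      have hlt : E < oo P c := by
        by_contra hle
        rw [not_lt] at hle
        exact hU fun b' hb' => (sh_mono _ _ _ fun _ h => h.1).trans (q2 E (e1 P hP) hle
          (((hORD P c a b).2.2.2.1 c1).trans (Nat.mul_le_mul_left _ hle)) hN f b' hb')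
      rcases q3 hk (by omega) with q | ⟨κ, q4, q5, q6⟩
      · exact (hU fun b' _ => (sh_mono _ _ _ fun _ h => h.1).trans (q f b')).elim
      · exact ⟨κ, fun _ _ => ⟨hlt, q4, q5, q6 f⟩⟩
    · exact ⟨0, fun a b => (h ⟨a, b⟩).elim⟩
  choose κ hκ using hκ
  have hdR : ∀ R, ∃ d, 1 < R → R ∣ 2 ^ L - 1 → 1 ≤ d ∧ d ≤ R ∧ d ∣ L ∧ R ∣ 2 ^ d - 1 := fun R => by
    by_cases h : 1 < R ∧ R ∣ 2 ^ L - 1
    · obtain ⟨d, hd⟩ := (hDEG2 y L0 L R L1 (hL0 ▸ dvd_mul_left _ _) h.1 h.2).2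
      exact ⟨d, fun _ _ => hd⟩
    · exact ⟨0, fun a b => (h ⟨a, b⟩).elim⟩
  choose dR hdR using hdR
  let SE := S.filter fun P => ¬ Mn P
  let SR := (2 ^ L - 1).divisors.filter fun R => 1 < R
  have mR : ∀ R ∈ SR, 1 < R ∧ R ∣ 2 ^ L - 1 := fun R hR =>
    ⟨(mem_filter.1 hR).2, Nat.dvd_of_mem_divisors (mem_filter.1 hR).1⟩
  obtain ⟨ω, w1, w2⟩ := hDIST (L + 1) (IX N (c * E) → ZMod (2 ^ L - 1)) ((ZMod 2)[X] ⊕ ℕ)
    (fun j ω => ∃ P ∈ S.filter (fun P => Mn P ∧ lp P.natDegree = j.val), Bad P f (ex y L0 L ω))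
    (SE.disjSum SR)
    (Sum.elim (fun P ω => Cad P f (ex y L0 L ω)) fun R ω => Dg R (ex y L0 L ω))
    (Sum.elim (fun P => JD y L P.natDegree) fun R => JD y L (dR R))
    (Sum.elim (fun P => if U P then 2 / 2 ^ P.natDegree else 1 / (oo P c : ℝ) ^ 4 +
        4 / (((2 : ℝ) ^ κ P) ^ (4 / 15 : ℝ) * (oo P c : ℝ) ^ (21 / 20 : ℝ)))
      fun R => if R.Coprime c then 220 / (R : ℝ) ^ 3 else 0) 0
    (fun j i hji x ω => by
      refine propext (exists_congr fun P => and_congr_right fun hP => ?_)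
      obtain ⟨hP, -, h2⟩ := mem_filter.1 hP
      obtain ⟨a, b, -⟩ := hS P hP
      refine iff_of_eq ((hIND N (c * E) (2 ^ L - 1) y L0 L _ _ L1 (dL P hP)
        (hPER P f N (c * E) a b).1).1 i (fun hi => ?_) x ω)
      have hji' : j.val < i.val := hji
      rcases (mem_filter.1 hi).2 with h | h
      · omega
      · have := le_lp (Nat.one_le_iff_ne_zero.1 (d1 P hP)) h.1 h.2.2
        omega)
    (fun j x => by
      refine (AV_al _ (fun P ω => Bad P f (ex y L0 L ω)) j x).trans ?_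
      rcases (S.filter (fun P => Mn P ∧ lp P.natDegree = j.val)).eq_empty_or_nonempty with h | h
      · rw [h]; norm_num
      obtain ⟨P0, hP0⟩ := h
      obtain ⟨-, ⟨h1, -⟩, h2⟩ := mem_filter.1 hP0
      refine le_trans (sum_le_sum fun P hP => ?_) (hSM j.val (by omega)
        (h2 ▸ (lp_spec (by omega)).1) _ fun P hP => ?_)
      · obtain ⟨hP, ⟨-, h3⟩, h4⟩ := mem_filter.1 hP
        obtain ⟨a, b, -⟩ := hS P hP
        obtain ⟨b', -, e⟩ := hALS N (c * E) (2 ^ L - 1) y L0 L (Bad P f) j x s0 L0L L1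
        rw [e]
        exact (hPP P (2 ^ L - 1) _ N (c * E) a b (dM P hP)).1 (h4 ▸ h3) f b'
      · obtain ⟨hP, ⟨h3, -⟩, h4⟩ := mem_filter.1 hP
        exact ⟨(hS P hP).1, h4 ▸ (lp_spec (by omega)).2,
          smooth_lp (Nat.one_le_iff_ne_zero.1 (d1 P hP)) h4.le⟩)
    (fun t ht => by
      rcases t with P | R
      · have hP := (mem_filter.1 (inl_mem_disjSum.1 ht)).1
        obtain ⟨a, b, -⟩ := hS P hP
        exact (hIND N (c * E) (2 ^ L - 1) y L0 L _ _ L1 (dL P hP) (hPER P f N (c * E) a b).2.1).1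
      · obtain ⟨a, b⟩ := mR R (inr_mem_disjSum.1 ht)
        obtain ⟨-, -, g3, g4⟩ := hdR R a b
        exact (hIND N (c * E) (2 ^ L - 1) y L0 L _ (Dg R) L1 g3 fun a a' h =>
          iff_of_eq (by
            unfold Dg
            congr 2
            exact filter_congr fun m _ => ⟨fun e => ((h _).of_dvd g4).symm.trans
              (e.trans ((h _).of_dvd g4)), fun e => ((h _).of_dvd g4).trans
                (e.trans ((h _).of_dvd g4).symm)⟩)).1)
    (fun t ht x => by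
      rcases t with P | R
      · have hP := (mem_filter.1 (inl_mem_disjSum.1 ht)).1
        obtain ⟨b', g, e⟩ := hALS N (c * E) (2 ^ L - 1) y L0 L (Cad P f) 0 x s0 L0L L1
        simp only [Sum.elim_inl]
        rw [e, cj0]
        split_ifs with hU
        · exact hU b' (hc ▸ g)
        · exact (hκ P hP hU).2.2.2 b'
      · obtain ⟨a, b⟩ := mR R (inr_mem_disjSum.1 ht)
        obtain ⟨b', g, e⟩ := hALS N (c * E) (2 ^ L - 1) y L0 L (Dg R) 0 x s0 L0L L1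
        simp only [Sum.elim_inr]
        rw [e, cj0]
        split_ifs with hU
        · exact (hDEG _ c R N _ b' a b).1 hU
        · exact ((hDEG _ c R N _ b' a b).2 hU (hc ▸ g)).le)
    (by
      rw [sum_disjSum]
      simp only [Sum.elim_inl, Sum.elim_inr]
      have hw : ∀ d, d ∣ L → (6 / 5 : ℝ) ^ (JD y L d).card ≤ 2 * tau d ∧
          (d ∈ (y + 1).smoothNumbers → (6 / 5 : ℝ) ^ (JD y L d).card ≤ 6 / 5) := fun d hd =>
        (hIND N (c * E) (2 ^ L - 1) y L0 L d (fun _ => True) L1 hd fun _ _ _ => Iff.rfl).2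
      have t0 := hS0 y (SR.filter fun R => R.Coprime c) (by omega) fun R hR => by
        obtain ⟨h1, h2⟩ := mem_filter.1 hR
        obtain ⟨a, b⟩ := mR R h1
        exact (hDEG2 y L0 L R L1 (hL0 ▸ dvd_mul_left _ _) a b).1 (hc ▸ h2)
      have t1 := hS1 (SE.filter fun P => U P ∧ P.natDegree ∈ (y + 1).smoothNumbers) fun P hP => by
        obtain ⟨h1, -, h2⟩ := mem_filter.1 hP
        have hP := (mem_filter.1 h1).1
        obtain ⟨a, b, -⟩ := hS P hP
        exact ⟨a, h2, fun h => (hORD P c a b).2.2.2.2 L0 hc (e1 P hP) (hL0 ▸ h.mul_right _)⟩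
      have t2 := hS2 (fun d => Nat.gcd (L / lp d ^ L.factorization (lp d)) d)
        (SE.filter fun P => U P ∧ P.natDegree ∉ (y + 1).smoothNumbers) fun P hP => by
        obtain ⟨h1, -, h2⟩ := mem_filter.1 hP
        obtain ⟨hP, h3⟩ := mem_filter.1 h1
        obtain ⟨a, b, -⟩ := hS P hP
        have h4 : y < lp P.natDegree := not_le.1 fun h =>
          h2 (smooth_lp (Nat.one_le_iff_ne_zero.1 (d1 P hP)) h)
        obtain ⟨h5, h6⟩ := lp_spec (d := P.natDegree) (by omega)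
        obtain ⟨g1, g2, g3⟩ := hEX2 P y L0 L _ a b L1 (dL P hP) h5 h4 (by omega) h6
        have := Nat.le_of_dvd (d1 P hP) h6
        exact ⟨a, by omega, g1, g2, _, (hORD P _ a b).2.1, not_le.1 fun h => h3 ⟨h4, h⟩, g3⟩
      have t3 := hS3 (SE.filter fun P => ¬ U P) fun P hP => by
        obtain ⟨h1, h2⟩ := mem_filter.1 hP
        have hP := (mem_filter.1 h1).1
        obtain ⟨a, b, -⟩ := hS P hP
        have := (hκ P hP h2).1
        exact ⟨a, b, by omega⟩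
      have t4 := hS4 κ (SE.filter fun P => ¬ U P) fun P hP => by
        obtain ⟨h1, h2⟩ := mem_filter.1 hP
        have hP := (mem_filter.1 h1).1
        obtain ⟨a, b, -⟩ := hS P hP
        obtain ⟨g1, g2, g3, -⟩ := hκ P hP h2
        exact ⟨a, b, by omega, g2, g3⟩
      rw [sum_filter] at t0 t1 t2 t3 t4
      have t := add_le_add (add_le_add (add_le_add t1 t2) t3) t4
      rw [← sum_add_distrib, ← sum_add_distrib, ← sum_add_distrib] at t
      refine lt_of_le_of_lt (add_le_add ((sum_le_sum fun P hP => ?_).trans t)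
        ((sum_le_sum fun R hR => ?_).trans t0)) (by norm_num)
      · obtain ⟨g1, g2⟩ := hw _ (dL P (mem_filter.1 hP).1)
        by_cases hU : U P
        · by_cases hs : P.natDegree ∈ (y + 1).smoothNumbers
          · simp only [hU, hs, if_true, not_true, and_self, and_false, if_false, add_zero]
            exact mul_le_mul_of_nonneg_right (g2 hs) (by positivity)
          · simp only [hU, hs, if_true, not_true, not_false_iff, and_self, and_false, if_false,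
              add_zero, zero_add]
            exact mul_le_mul_of_nonneg_right g1 (by positivity)
        · simp only [hU, if_false, false_and, not_false_iff, if_true, zero_add, add_zero]
          rw [← mul_add]
          exact mul_le_mul_of_nonneg_right g1 (by positivity)
      · obtain ⟨a, b⟩ := mR R hR
        obtain ⟨-, g2, g3, -⟩ := hdR R a b
        split_ifs
        · refine mul_le_mul_of_nonneg_right ((hw _ g3).1.trans ?_) (by positivity)
          have : (tau (dR R) : ℝ) ≤ R := by exact_mod_cast (tau_le_self _).trans g2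
          linarith
        · simp)
  refine ⟨ex y L0 L ω, fun i => ?_, fun P hP hB => ?_⟩
  · obtain ⟨m, hm⟩ : c ∣ ∑ j : Fin (L + 1), cj y L0 L j.val * (ω j i).val :=
      dvd_sum fun j _ => (hc ▸ AV_cj s0 L0L j.val).mul_right _
    exact ⟨m, by rw [ex, hm]⟩
  · obtain ⟨a, b, -⟩ := hS P hP
    by_cases hM : Mn P
    · have h1 := Nat.le_of_dvd L1 ((lp_spec (d := P.natDegree) (by have := hM.1; omega)).2.trans
        (dL P hP))
      exact w1 ⟨lp P.natDegree, by omega⟩ ⟨P, mem_filter.2 ⟨hP, hM, rfl⟩, hB⟩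
    · refine w2 (.inl P) (inl_mem_disjSum.2 (mem_filter.2 ⟨hP, hM⟩)) ⟨hB, fun R h1 h2 => ?_⟩
      exact w2 (.inr R) (inr_mem_disjSum.2 (mem_filter.2 ⟨Nat.mem_divisors.2
        ⟨h2.trans ((hORD P 1 a b).2.1.trans (dM P hP)), M1.ne'⟩, h1⟩))

end Pool.Agent.P.MP_42fc1a_nt.TU
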