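import Pool.Agent.P.MP_42fc1a_nt.TU.IfL

/-! Step BR. -/

set_option autoImplicit false
set_option linter.unusedSectionVars false

namespace Pool.Agent.P.MP_42fc1a_nt.TU

open Polynomial Finset
open Pool.Agent.P.MP_8be758_nt.L2 (IsPr Pd mem_Pd)
open scoped Classical

theorem p_BR :
    S_BR := by
  intro F _ _ _ x M _ c h ι _ _ b r
  unfold sh pr
  rw [Fintype.card_multiplicative, ZMod.card]
  congr 1
  refine Finset.sum_equiv (Equiv.piCongrRight fun _ => Multiplicative.ofAdd) (by simp) fun t _ => ?_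
  have e : ∑ i, (x : F) ^ (b i + c * (t i).val) =
      ∑ i, ((x ^ b i : Fˣ) : F) * expHom M (x ^ c) h (Multiplicative.ofAdd (t i)) :=
    sum_congr rfl fun i _ => by simp [expHom, pow_add, pow_mul]
  simp only [ind, e, Equiv.piCongrRight_apply, Pi.map_apply]

end Pool.Agent.P.MP_42fc1a_nt.TU
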