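import Pool.Agent.P.MP_42fc1a_nt.TU.IfL

/-! Step CNT. -/

set_option autoImplicit false
set_option linter.unusedSectionVars false

namespace Pool.Agent.P.MP_42fc1a_nt.TU

open Polynomial Finset
open Pool.Agent.P.MP_8be758_nt.L2 (IsPr Pd mem_Pd)
open scoped Classical

theorem p_CNT :
    S_CNT := by
  intro S m hm h
  have h0 : (X ^ m - 1 : (ZMod 2)[X]) ≠ 0 := by
    have := (monic_X_pow_sub_C (1 : ZMod 2) (show m ≠ 0 by omega)).ne_zero
    simpa using this
  have hd : (X ^ m - 1 : (ZMod 2)[X]).natDegree = m := by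
    simpa using natDegree_X_pow_sub_C (n := m) (r := (1 : ZMod 2))
  have h1 : ∏ P ∈ S, P ∣ (X ^ m - 1 : (ZMod 2)[X]) := by
    refine Finset.prod_dvd_of_coprime (fun P hP Q hQ hne => ?_) fun P hP => (h P hP).2
    have p := (h P hP).1
    have q := (h Q hQ).1
    refine p.2.coprime_iff_not_dvd.2 fun d => hne ?_
    exact eq_of_monic_of_associated p.1 q.1 (p.2.associated_of_dvd q.2 d)
  have h2 := natDegree_le_of_dvd h1 h0
  rw [hd, natDegree_prod_of_monic _ _ fun P hP => (h P hP).1.1] at h2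
  refine le_trans ?_ h2
  rw [card_eq_sum_ones]
  exact sum_le_sum fun P hP => (h P hP).1.2.natDegree_pos

end Pool.Agent.P.MP_42fc1a_nt.TU
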