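import Pool.Agent.P.MP_42fc1a_nt.TU.IfL

/-! Step DEG. -/

set_option autoImplicit false
set_option linter.unusedSectionVars false

namespace Pool.Agent.P.MP_42fc1a_nt.TU

open Polynomial Finset
open Pool.Agent.P.MP_8be758_nt.L2 (IsPr Pd mem_Pd)
open scoped Classical

namespace DEGx

/-- the shift of the first coordinates of the pairs in `S` -/
def sf (M : ℕ) {R N D : ℕ} (S : Finset (Fin 12)) (s : S → ZMod R) : IX N D → ZMod M
  | .inl p => if h : p.1 ∈ S then (if p.2 = 0 then ((s ⟨p.1, h⟩).val : ZMod M) else 0) else 0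
  | .inr _ => 0

theorem one (M : ℕ) [NeZero M] (c R N D : ℕ) (b : IX N D → ℕ) (h1 : 1 < R) (hM : R ∣ M)
    (hc : R.Coprime c) (S : Finset (Fin 12)) :
    (univ.filter fun t : IX N D → ZMod M => ∀ m ∈ S,
      b (.inl (m, 0)) + c * (t (.inl (m, 0))).val ≡ b (.inl (m, 1)) + c * (t (.inl (m, 1))).val
        [MOD R]).card * R ^ S.card ≤ M ^ Fintype.card (IX N D) := by
  have : NeZero R := ⟨by omega⟩
  have e1 : R ^ S.card = (univ : Finset (S → ZMod R)).card := by simp
  have e2 : M ^ Fintype.card (IX N D) = (univ : Finset (IX N D → ZMod M)).card := by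
    rw [card_univ, Fintype.card_fun, ZMod.card]
  rw [e1, e2, ← card_product]
  refine card_le_card_of_injOn (fun p => p.1 + sf M S p.2) (fun _ _ => mem_univ _) ?_
  rintro ⟨t, s⟩ h ⟨t', s'⟩ h' e
  simp only [coe_product, Set.mem_prod, mem_coe, mem_filter, mem_univ, true_and, and_true] at h h' e
  have hs : s = s' := by
    funext m
    have a0 := congrFun e (.inl (m.1, 0))
    have a1 := congrFun e (.inl (m.1, 1))
    simp only [Pi.add_apply, sf, m.2, dite_true, if_true, one_ne_zero, if_false, add_zero] at a0 a1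
    have g := (h m.1 m.2).trans (a1 ▸ (h' m.1 m.2).symm)
    have g2 := (Nat.ModEq.add_left_cancel' _ g).cancel_left_of_coprime hc
    have g3 := (ZMod.natCast_eq_natCast_iff _ _ _).2 g2
    have g4 := congrArg (ZMod.castHom hM (ZMod R)) a0
    rw [map_add, map_add, map_natCast, map_natCast, ZMod.natCast_zmod_val, ZMod.natCast_zmod_val,
      ZMod.castHom_apply, ZMod.castHom_apply] at g4
    rw [ZMod.natCast_val, ZMod.natCast_val] at g3
    rw [g3] at g4
    exact add_left_cancel g4
  subst hs
  exact Prod.ext (add_right_cancel e) rfl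

end DEGx

theorem p_DEG :
    S_DEG := by
  intro M _ c R N D b h1 hM
  have hR : (0 : ℝ) < R := by exact_mod_cast (by omega : 0 < R)
  have hM0 : (0 : ℝ) < M := by exact_mod_cast Nat.pos_of_ne_zero (NeZero.ne M)
  constructor
  · intro hc
    have e : sh M c b (Dg R) = (∑ t : IX N D → ZMod M, ind (Dg R fun i => b i + c * (t i).val)) /
        (M : ℝ) ^ Fintype.card (IX N D) := by
      unfold sh
      congr
      exact Subsingleton.elim _ _
    rw [e, div_le_iff₀ (by positivity)]
    calc ∑ t : IX N D → ZMod M, ind (Dg R fun i => b i + c * (t i).val)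
        ≤ ∑ t : IX N D → ZMod M, ∑ S ∈ powersetCard 3 (univ : Finset (Fin 12)), ind (∀ m ∈ S,
          b (.inl (m, 0)) + c * (t (.inl (m, 0))).val ≡
            b (.inl (m, 1)) + c * (t (.inl (m, 1))).val [MOD R]) := by
          refine sum_le_sum fun t _ => ?_
          by_cases g : Dg R fun i => b i + c * (t i).val
          · obtain ⟨S, hS, hS'⟩ := exists_subset_card_eq g
            rw [ind_pos g]
            refine le_trans ?_ (single_le_sum (f := fun S : Finset (Fin 12) => ind (∀ m ∈ S,
              b (.inl (m, 0)) + c * (t (.inl (m, 0))).val ≡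
                b (.inl (m, 1)) + c * (t (.inl (m, 1))).val [MOD R])) (fun _ _ => ind_nonneg _)
              (mem_powersetCard.2 ⟨subset_univ S, hS'⟩))
            exact (ind_pos fun m hm => (mem_filter.1 (hS hm)).2).ge
          · rw [ind_neg g]
            exact sum_nonneg fun _ _ => ind_nonneg _
      _ ≤ ∑ S ∈ powersetCard 3 (univ : Finset (Fin 12)),
          (M : ℝ) ^ Fintype.card (IX N D) / (R : ℝ) ^ 3 := by
          rw [sum_comm]
          refine sum_le_sum fun S hS => ?_
          have := DEGx.one M c R N D b h1 hM hc S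
          rw [(mem_powersetCard.1 hS).2] at this
          rw [le_div_iff₀ (by positivity)]
          refine le_trans (le_of_eq ?_) (show ((_ * R ^ 3 : ℕ) : ℝ) ≤ _ by exact_mod_cast this)
          rw [card_filter]
          push_cast
          congr 1
          refine sum_congr rfl fun t _ => ?_
          unfold ind
          congr
      _ = 220 / (R : ℝ) ^ 3 * (M : ℝ) ^ Fintype.card (IX N D) := by
          rw [sum_const, card_powersetCard, card_univ, Fintype.card_fin, nsmul_eq_mul,
            show Nat.choose 12 3 = 220 from rfl]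
          push_cast
          ring
  · intro hc hb
    obtain ⟨r, hr, h2, h3⟩ := Nat.Prime.not_coprime_iff_dvd.1 hc
    unfold sh
    rw [sum_eq_zero, zero_div]
    refine fun t _ => ind_neg fun g => ?_
    obtain ⟨m, hm⟩ := card_pos.1 (lt_of_lt_of_le (by norm_num) g)
    have g1 := (mem_filter.1 hm).2.of_dvd h2
    obtain ⟨m0, e0⟩ := hb (.inl (m, 0))
    obtain ⟨m1, e1⟩ := hb (.inl (m, 1))
    obtain ⟨k, rfl⟩ := h3
    have g2 := (ZMod.natCast_eq_natCast_iff _ _ _).2 g1
    simp only [e0, e1, alf, Fin.val_zero, Fin.val_one] at g2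
    push_cast at g2
    have := Fact.mk hr
    simp only [ZMod.natCast_self, zero_mul, add_zero] at g2
    exact one_ne_zero (α := ZMod r) (by linear_combination -g2)

end Pool.Agent.P.MP_42fc1a_nt.TU
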