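import Pool.Agent.P.MP_42fc1a_nt.TU.IfL

/-! Step DEG2. -/

set_option autoImplicit false
set_option linter.unusedSectionVars false

namespace Pool.Agent.P.MP_42fc1a_nt.TU

open Polynomial Finset
open Pool.Agent.P.MP_8be758_nt.L2 (IsPr Pd mem_Pd)
open scoped Classical

theorem p_DEG2 :
    S_DEG2 := by
  intro y L0 L R hL hy hR hd
  have key : ∀ n d : ℕ, n ∣ 2 ^ d - 1 ↔ (2 : ZMod n) ^ d = 1 := fun n d => by
    rw [← ZMod.natCast_eq_zero_iff, Nat.cast_sub Nat.one_le_two_pow, sub_eq_zero]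
    simp
  constructor
  · intro hc
    by_contra h
    have hp := Nat.minFac_prime hR.ne'
    have := Fact.mk hp
    have h1 := (key _ _).1 ((Nat.minFac_dvd R).trans hd)
    have h2 : (2 : ZMod R.minFac) ≠ 0 := fun h0 => by
      rw [h0, zero_pow (by omega)] at h1
      exact zero_ne_one h1
    have h3 : R.minFac - 1 ∣ L0 :=
      (Nat.dvd_factorial (Nat.sub_pos_of_lt hp.one_lt)
        ((Nat.sub_le _ _).trans ((Nat.minFac_le (by omega)).trans (not_lt.1 h)))).trans hy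
    obtain ⟨m, hm⟩ := h3
    have h4 : R.minFac ∣ 2 ^ L0 - 1 := by
      rw [key, hm, pow_mul, ZMod.pow_card_sub_one_eq_one h2, one_pow]
    exact hp.one_lt.ne' (Nat.eq_one_of_dvd_coprimes hc (Nat.minFac_dvd R) h4)
  · have : NeZero R := ⟨by omega⟩
    have h1 := (key _ _).1 hd
    refine ⟨orderOf (2 : ZMod R), ?_, ?_, orderOf_dvd_of_pow_eq_one h1,
      (key _ _).2 (pow_orderOf_eq_one _)⟩
    · exact (isOfFinOrder_iff_pow_eq_one.2 ⟨L, hL, h1⟩).orderOf_pos
    · exact orderOf_le_card_univ.trans_eq (ZMod.card R)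

end Pool.Agent.P.MP_42fc1a_nt.TU
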