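import Pool.Agent.P.MP_42fc1a_nt.TU.IfL

/-! Step EX2. -/

set_option autoImplicit false
set_option linter.unusedSectionVars false

namespace Pool.Agent.P.MP_42fc1a_nt.TU

open Polynomial Finset
open Pool.Agent.P.MP_8be758_nt.L2 (IsPr Pd mem_Pd)
open scoped Classical

theorem p_EX2 (hORD : S_ORD) :
    S_EX2 := by
  intro P y L0 L l hP hX hL hd hl hy h10 hld
  have d0 : 0 < P.natDegree := Nat.pos_of_dvd_of_pos hd hL
  have hc : (l).Coprime (Nat.gcd (L / l ^ L.factorization l) P.natDegree) :=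
    (Nat.coprime_ordCompl hl (by omega)).coprime_dvd_right (Nat.gcd_dvd_left _ _)
  have h1 := Nat.le_of_dvd d0 (hc.mul_dvd_of_dvd_of_dvd hld (Nat.gcd_dvd_right _ _))
  refine ⟨Nat.gcd_pos_of_pos_right _ d0, le_trans (Nat.mul_le_mul_right _ (by omega)) h1, ?_⟩
  have e : cj y L0 L l = 2 ^ (L / l ^ L.factorization l) - 1 := by
    rw [cj, if_neg hl.ne_zero, if_pos ⟨hl, hy, hld.trans hd⟩]
  have a := ((hORD P (cj y L0 L l) hP hX).1 _).2 dvd_rfl
  obtain ⟨b1, b2, -⟩ := hORD P 1 hP hX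
  simp only [one_mul] at b1
  rw [b1] at a ⊢
  rw [← Nat.pow_sub_one_gcd_pow_sub_one, ← Nat.gcd_mul_right, ← e]
  exact Nat.dvd_gcd a (b2.mul_right _)

end Pool.Agent.P.MP_42fc1a_nt.TU
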