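import Pool.Agent.P.MP_42fc1a_nt.TU.IfL

/-! Step GS. -/

set_option autoImplicit false
set_option linter.unusedSectionVars false

namespace Pool.Agent.P.MP_42fc1a_nt.TU

open Polynomial Finset
open Pool.Agent.P.MP_8be758_nt.L2 (IsPr Pd mem_Pd)
open scoped Classical

theorem gs_mu_le {F : Type} [Field F] [Fintype F] [DecidableEq F] {Γ : Type} [Group Γ]
    [Fintype Γ] (φ : Γ →* Fˣ) (c : F) : (Nat.card φ.range : ℝ) * mu φ c ≤ 1 := by
  have hG : (0 : ℝ) < Fintype.card Γ := by exact_mod_cast Fintype.card_pos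
  unfold mu
  rw [← mul_div_assoc, div_le_one hG]
  by_cases h : ∃ g0, (φ g0 : F) = c
  · obtain ⟨g0, rfl⟩ := h
    rw [← Nat.card_eq_fintype_card, ← card_range_mul φ]
    push_cast
    refine le_of_eq ?_
    congr 1
    rw [← Equiv.sum_comp (Equiv.mulRight g0), Nat.card_eq_fintype_card, Fintype.card_subtype,
      card_filter]
    push_cast
    refine sum_congr rfl fun g _ => ?_
    simp [MonoidHom.mem_ker]
  · push Not at h
    simp [h]

theorem gs_sum_zero {F : Type} [Field F] [Fintype F] (K : Subring F) (ξ : F)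
    (h : ¬ ∀ κ ∈ K, ch F (ξ * κ) = 1) (d : F) (hd : d ∈ K) (hd0 : d ≠ 0) :
    ∑ κ : K, ch F (ξ * κ * d) = 0 := by
  push Not at h
  obtain ⟨κ0, hκ0, h1⟩ := h
  let ψ : AddChar K ℂ := (ch F).compAddMonoidHom
    ((AddMonoidHom.mulLeft ξ).comp K.subtype.toAddMonoidHom)
  have hψ : ψ ≠ 1 := AddChar.ne_one_iff.2 ⟨⟨κ0, hκ0⟩, h1⟩
  have h0 : ∑ κ : K, ψ κ = 0 := AddChar.sum_eq_zero_of_ne_one hψ
  have hinj : Function.Injective fun κ : K => κ * ⟨d, hd⟩ := fun a b hab =>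
    Subtype.ext (mul_right_cancel₀ hd0 (congrArg Subtype.val hab))
  have hb := Finite.injective_iff_bijective.1 hinj
  rw [← h0, ← hb.sum_comp ψ]
  refine sum_congr rfl fun κ _ => ?_
  simp [ψ, mul_assoc]

theorem p_GS :
    S_GS := by
  intro F _ _ _ Γ _ _ φ K ξ hK
  by_cases h : ∀ κ ∈ K, ch F (ξ * κ) = 1
  · exact Or.inl h
  right
  have hmuK : ∀ x, x ∉ K → mu φ x = 0 := by
    intro x hx
    have : ∀ g, (φ g : F) ≠ x := fun g hg => hx (hg ▸ hK g)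
    simp [mu, this]
  have hcv : ∀ d, d ∉ K → cv (mu φ) (mu φ) d = 0 := by
    intro d hd
    refine sum_eq_zero fun y _ => ?_
    by_cases hy : y ∈ K
    · rw [hmuK (y - d) fun h' => hd (by simpa using K.sub_mem hy h'), mul_zero]
    · rw [hmuK y hy, zero_mul]
  have h1 : ∑ κ : K, ft (cv (mu φ) (mu φ)) (ξ * κ) =
      (Nat.card K : ℂ) * (cv (mu φ) (mu φ) 0 : ℝ) := by
    unfold ft
    rw [sum_comm, sum_eq_single (0 : F)]
    · simp
    · intro d _ hd0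
      rw [← mul_sum]
      by_cases hd : d ∈ K
      · rw [gs_sum_zero K ξ h d hd hd0, mul_zero]
      · rw [hcv d hd]; simp
    · simp
  simp only [ft_cv] at h1
  have h2 : ∑ κ : K, ‖ft (mu φ) (ξ * κ)‖ ^ 2 = (Nat.card K : ℝ) * cv (mu φ) (mu φ) 0 := by
    exact_mod_cast h1
  have h3 : (Nat.card φ.range : ℝ) * cv (mu φ) (mu φ) 0 ≤ 1 := by
    rw [← mu_sum φ, cv, mul_sum]
    refine sum_le_sum fun y _ => ?_
    rw [sub_zero, ← mul_assoc]
    exact mul_le_of_le_one_left (mu_nonneg φ y) (gs_mu_le φ y)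
  let j : φ.range → K := fun u => ⟨(u.1 : F), by obtain ⟨_, g, rfl⟩ := u; exact hK g⟩
  have hj : Function.Injective j := fun a b hab =>
    Subtype.ext (Units.ext (congrArg Subtype.val hab))
  have h4 : (Nat.card φ.range : ℝ) * ‖ft (mu φ) ξ‖ ^ 2 ≤ ∑ κ : K, ‖ft (mu φ) (ξ * κ)‖ ^ 2 := by
    calc _ = ∑ u : φ.range, ‖ft (mu φ) (ξ * (j u : F))‖ ^ 2 := by
          rw [Nat.card_eq_fintype_card, ← card_univ, ← nsmul_eq_mul, ← sum_const]
          refine sum_congr rfl fun u _ => ?_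
          obtain ⟨_, g, rfl⟩ := u
          rw [mul_comm ξ]
          exact congrArg (fun z => ‖z‖ ^ 2) (ft_inv (φ g) (mu_inv φ g) ξ).symm
      _ = ∑ κ ∈ univ.map ⟨j, hj⟩, ‖ft (mu φ) (ξ * κ)‖ ^ 2 := by rw [sum_map]; rfl
      _ ≤ _ := sum_le_sum_of_subset_of_nonneg (subset_univ _) fun _ _ _ => by positivity
  have h5 : (0 : ℝ) ≤ Nat.card φ.range := Nat.cast_nonneg _
  have h6 : (0 : ℝ) ≤ Nat.card K := Nat.cast_nonneg _
  calc _ = (Nat.card φ.range : ℝ) * ((Nat.card φ.range : ℝ) * ‖ft (mu φ) ξ‖ ^ 2) := by ring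
    _ ≤ (Nat.card φ.range : ℝ) * ((Nat.card K : ℝ) * cv (mu φ) (mu φ) 0) :=
        mul_le_mul_of_nonneg_left (h4.trans_eq h2) h5
    _ = (Nat.card K : ℝ) * ((Nat.card φ.range : ℝ) * cv (mu φ) (mu φ) 0) := by ring
    _ ≤ _ := mul_le_of_le_one_right h6 h3

end Pool.Agent.P.MP_42fc1a_nt.TU
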