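import Pool.Agent.P.MP_42fc1a_nt.TU.IfL

/-! Step HB. -/

set_option autoImplicit false
set_option linter.unusedSectionVars false

namespace Pool.Agent.P.MP_42fc1a_nt.TU

open Polynomial Finset
open Pool.Agent.P.MP_8be758_nt.L2 (IsPr Pd mem_Pd)
open scoped Classical

theorem p_HB (hBR : S_BR) (hONE : S_ONE) (hSUB : S_SUB) (hHB1 : S_HB1) (hHB2 : S_HB2) (hNUM : S_NUM) :
    S_HB := by
  obtain ⟨k1, E1, H1⟩ := hHB1
  refine ⟨k1, E1, fun F _ _ _ _ x M _ c d N D hM hSp hk1 hE => ?_⟩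
  have he1 : 1 ≤ orderOf (x ^ c) := orderOf_pos _
  have he0 : (1 : ℝ) ≤ orderOf (x ^ c) := by exact_mod_cast he1
  obtain ⟨h, h0, h20, hh1⟩ : ∃ h : ℝ, 0 < h ∧ h ^ 20 = orderOf (x ^ c) ∧ 1 ≤ h :=
    ⟨(orderOf (x ^ c) : ℝ) ^ ((20 : ℕ) : ℝ)⁻¹, Real.rpow_pos_of_pos (by linarith) _,
      Real.rpow_inv_natCast_pow (by linarith) (by norm_num),
      Real.one_le_rpow he0 (by positivity)⟩
  have hfin : Finite (Subring F) :=
    Finite.of_injective (fun K : Subring F => (K : Set F)) SetLike.coe_injective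
  obtain ⟨K, hK, hmin⟩ := Set.exists_min_image
    {K : Subring F | (orderOf (x ^ c) : ℝ) ≤ h * hk (x ^ c) K} (fun K => Nat.card K)
    (Set.toFinite _) ⟨⊤, by
      have : hk (x ^ c) ⊤ = orderOf (x ^ c) := by simp [hk]
      rw [Set.mem_ofPred_eq, this]
      exact le_mul_of_one_le_left (by linarith) hh1⟩
  obtain ⟨⟨κ, κ1, hκ⟩, R', -, hR', hmem', hord', hdvd', -⟩ := hSUB F K (x ^ c)
  obtain ⟨-, R, R1, hR, hmem, -, -, hmod⟩ := hSUB F K x
  have h2 : 2 ≤ 2 ^ κ := by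
    calc 2 = 2 ^ 1 := by norm_num
      _ ≤ _ := Nat.pow_le_pow_right two_pos κ1
  have hQ : hk (x ^ c) K ≤ Nat.card K :=
    (Nat.le_of_dvd (by omega) hdvd').trans (Nat.sub_le _ _)
  obtain ⟨n1, n2, n3, n4⟩ := hNUM _ _ _ h he1 h0 h20 hK hQ
  have hde : hk (x ^ c) K ∣ orderOf (x ^ c) := hR' ▸ Dvd.intro_left _ rfl
  have hg : orderOf (x ^ c) ^ 19 ≤ Nat.gcd (orderOf (x ^ c)) (2 ^ κ - 1) ^ 20 :=
    n1.trans (Nat.pow_le_pow_left (Nat.le_of_dvd (Nat.gcd_pos_of_pos_left _ he1)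
      (Nat.dvd_gcd hde (hκ ▸ hdvd'))) 20)
  have hcard : Fintype.card (IX N D) = 24 + N * D := by simp [IX]
  have hκ' : (Nat.card K : ℝ) = 2 ^ κ := by rw [hκ]; push_cast; rfl
  by_cases hc : orderOf (x ^ c) ^ 3 ≤ Nat.card K ^ 2
  · refine .inr ⟨κ, κ1, hg, fun b r => ?_⟩
    refine (sh_mono _ _ _ fun a ha => ha.1).trans ((H1 F x M c _ b r h (Nat.card K) hM (by omega)
      hE h0 h20 (by rw [hκ']; positivity) fun K' hK' => by exact_mod_cast hmin K' hK').trans ?_)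
    have := n3 hc
    rw [hκ'] at this ⊢
    linarith
  have n5 := n2 (not_le.1 hc)
  by_cases hx : (x : F) ∈ K
  · refine .inl fun b r => ?_
    have hT : K = ⊤ := by
      rw [eq_top_iff]
      intro v _
      obtain ⟨s, -, rfl⟩ := hSp v
      exact K.sum_mem fun j _ => K.pow_mem hx _
    have hcF : Nat.card K = Fintype.card F := by
      rw [hT, ← Nat.card_eq_fintype_card]
      exact Nat.card_congr Subring.topEquiv.toEquiv
    have hcM : (x ^ c) ^ M = 1 := by rw [← pow_mul, mul_comm, pow_mul, hM, one_pow]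
    rw [hBR F x M c hcM _ b r]
    refine (pr_le_Fk _ _ _ (k := 10) (by norm_num) (by omega)).trans (hONE F _ _ ?_)
    rw [card_range_expHom, ← hcF]
    exact n5.trans (Nat.pow_le_pow_left (Nat.le_of_dvd he1 hde) 10)
  · refine .inr ⟨κ, κ1, hg, fun b r => ?_⟩
    have hR1 : 1 < R := by
      rcases R1.eq_or_lt with e | e
      · exact absurd (by simpa using (hmem 1).2 (e ▸ dvd_rfl)) hx
      · exact e
    have hRo : R ∣ orderOf x := hR ▸ Dvd.intro _ rfl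
    have hz : ((x ^ (c * R') : Fˣ) : F) ∈ K := by
      rw [pow_mul]; exact (hmem' R').2 dvd_rfl
    refine (sh_mono _ _ _ fun a ha => ⟨ha.1, ha.2 R hR1 hRo⟩).trans
      ((hHB2 F x M c R R' N D K b r hM (hRo.trans (orderOf_dvd_of_pow_eq_one hM))
        ((hmem _).1 hz) (fun t => ?_) hmod ?_).trans ?_)
    · rw [Units.val_pow_eq_pow_val]; exact K.pow_mem hz t
    · rw [pow_mul, hord']; exact n5
    · rw [hκ'] at n4 ⊢
      exact n4.trans (le_add_of_nonneg_left (by positivity))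

end Pool.Agent.P.MP_42fc1a_nt.TU
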