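import Pool.Agent.P.MP_42fc1a_nt.TU.IfL

/-! Step HB1. -/

set_option autoImplicit false
set_option linter.unusedSectionVars false

namespace Pool.Agent.P.MP_42fc1a_nt.TU

open Polynomial Finset
open Pool.Agent.P.MP_8be758_nt.L2 (IsPr Pd mem_Pd)
open scoped Classical

theorem HB1_nc {F : Type} [Field F] [Fintype F] [DecidableEq F] {Γ : Type} [Group Γ] [Fintype Γ]
    (φ : Γ →* Fˣ) (c : F) :
    (Nat.card φ.range : ℝ) * ∑ g, nuI ((φ g : F) - c) ≤ Fintype.card Γ := by
  by_cases h : ∃ g0, (φ g0 : F) = c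
  · obtain ⟨g0, rfl⟩ := h
    rw [← Nat.card_eq_fintype_card, ← card_range_mul φ]
    push_cast
    refine le_of_eq ?_
    congr 1
    rw [← Equiv.sum_comp (Equiv.mulRight g0), Nat.card_eq_fintype_card, Fintype.card_subtype,
      card_filter]
    push_cast
    refine sum_congr rfl fun g _ => ?_
    simp [nuI, sub_eq_zero, MonoidHom.mem_ker]
  · push Not at h
    have : ∀ g, nuI ((φ g : F) - c) = 0 := fun g =>
      nuI_of_unit (sub_ne_zero.2 (h g)).isUnit
    simp [this]

theorem HB1_cnt (M R : ℕ) [NeZero M] (hR : R ∣ M) (S : Finset (Multiplicative (ZMod M)))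
    (hS : ∀ g ∈ S, R ∣ g.toAdd.val) : S.card * R ≤ M := by
  have h1 : S.card ≤ (range (M / R)).card := by
    refine card_le_card_of_injOn (fun g => g.toAdd.val / R) ?_ ?_
    · intro g _
      simp only [coe_range, Set.mem_Iio]
      exact Nat.div_lt_div_of_lt_of_dvd hR (ZMod.val_lt _)
    · intro g hg g' hg' h
      have h2 : g.toAdd.val = g'.toAdd.val := by
        rw [← Nat.div_mul_cancel (hS g hg), ← Nat.div_mul_cancel (hS g' hg')]
        exact congrArg (· * R) h
      exact Multiplicative.toAdd.injective (ZMod.val_injective M h2)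
  rw [card_range] at h1
  exact (Nat.mul_le_mul_right R h1).trans (Nat.div_mul_le_self M R)

theorem p_HB1 (hBR : S_BR) (hSUB : S_SUB) :
    S_HB1 := by
  obtain ⟨k0, h0, hk0, H⟩ := flat 80
  refine ⟨k0, ⌈(max h0 1) ^ 20⌉₊, ?_⟩
  intro F _ _ _ _ x M _ c ι _ b r h Q hx hk hE hh he hQ hB
  have hxc : (x ^ c) ^ M = 1 := by rw [← pow_mul, mul_comm, pow_mul, hx, one_pow]
  have hm : max h0 1 ≤ h := by
    have h1 : (max h0 1) ^ 20 ≤ h ^ 20 := by
      rw [he]
      exact (Nat.le_ceil _).trans (by exact_mod_cast hE)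
    exact (pow_le_pow_iff_left₀ (le_trans zero_le_one (le_max_right _ _)) hh.le
      (by norm_num)).1 h1
  have hh1 : 1 ≤ h := (le_max_right _ _).trans hm
  have hhe : h ≤ orderOf (x ^ c) := by
    rw [← he]
    exact le_self_pow₀ hh1 (by norm_num)
  have hM : (0 : ℝ) < M := by exact_mod_cast Nat.pos_of_ne_zero (NeZero.ne M)
  have hcard : (Fintype.card (Multiplicative (ZMod M)) : ℝ) = M := by
    rw [Fintype.card_multiplicative, ZMod.card]
  have hBig : Big (expHom M (x ^ c) hxc) h Q := by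
    intro K hK
    obtain ⟨-, R, hR1, hR2, hR3, -⟩ := hSUB F K (x ^ c)
    refine hB K ?_
    have hRM : R ∣ M := (Dvd.intro _ hR2.symm).trans (orderOf_dvd_of_pow_eq_one hxc)
    have h1 := HB1_cnt M R hRM (univ.filter fun g => ((expHom M (x ^ c) hxc g : Fˣ) : F) ∈ K)
      fun g hg => (hR3 _).1 (mem_filter.1 hg).2
    rw [hcard] at hK
    have h2 : ((univ.filter fun g => ((expHom M (x ^ c) hxc g : Fˣ) : F) ∈ K).card : ℝ) * R
        ≤ M := by exact_mod_cast h1
    have hR0 : (0 : ℝ) ≤ R := Nat.cast_nonneg _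
    have h3 : (R : ℝ) ≤ h := by
      refine le_of_mul_le_mul_left ?_ hM
      calc (M : ℝ) * R ≤ h * _ * R := mul_le_mul_of_nonneg_right hK hR0
        _ ≤ h * M := by rw [mul_assoc]; exact mul_le_mul_of_nonneg_left h2 hh.le
        _ = M * h := mul_comm _ _
    rw [hR2]
    push_cast
    exact mul_le_mul_of_nonneg_right h3 (Nat.cast_nonneg _)
  have hNC : ∀ d : F, h * ∑ g, nuI (((expHom M (x ^ c) hxc g : Fˣ) : F) - d) ≤
      Fintype.card (Multiplicative (ZMod M)) := by
    intro d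
    refine le_trans ?_ (HB1_nc (expHom M (x ^ c) hxc) d)
    rw [card_range_expHom]
    exact mul_le_mul_of_nonneg_right hhe (sum_nonneg fun _ _ => nuI_nonneg _)
  have h1 := H F (Multiplicative (ZMod M)) (expHom M (x ^ c) hxc) h Q
    ((le_max_left _ _).trans hm) hQ hBig hNC
  rw [hBR F x M c hxc ι b r]
  refine (pr_le_Fk _ _ _ hk0 hk).trans (h1.trans_eq ?_)
  rw [← he, ← pow_mul]

end Pool.Agent.P.MP_42fc1a_nt.TU
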