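import Pool.Agent.P.MP_42fc1a_nt.TU.IfL

/-! Step HB2. -/

set_option autoImplicit false
set_option linter.unusedSectionVars false

namespace Pool.Agent.P.MP_42fc1a_nt.TU

open Polynomial Finset
open Pool.Agent.P.MP_8be758_nt.L2 (IsPr Pd mem_Pd)
open scoped Classical

theorem hb2_dg {N D R : ℕ} {a a' : IX N D → ℕ} (h : ∀ i, a i ≡ a' i [MOD R]) :
    Dg R a ↔ Dg R a' := by
  unfold Dg
  rw [filter_congr (q := fun m : Fin 12 => a' (.inl (m, 0)) ≡ a' (.inl (m, 1)) [MOD R])
    fun m _ => ⟨fun e => (h _).symm.trans (e.trans (h _)), fun e => (h _).trans (e.trans (h _).symm)⟩]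

theorem p_HB2 (hBR : S_BR) (hTWO : S_TWO) (hSHF : S_SHF) :
    S_HB2 := by
  intro F _ _ _ x M _ c R R' N D K b r hx hRM hRc hK hR hc
  refine hSHF M _ c R' b _ _ (fun a a' h => ?_) fun b' => ?_
  · have e : ∀ i, (x : F) ^ a i = (x : F) ^ a' i := fun i => by
      have : x ^ a i = x ^ a' i := by
        rw [pow_eq_pow_mod (a i) hx, pow_eq_pow_mod (a' i) hx, h i]
      simpa using congrArg Units.val this
    simp only [e, hb2_dg fun i => (h i).of_dvd hRM]
  · by_cases hd : Dg R b'
    · refine le_of_eq_of_le ?_ (by positivity : (0 : ℝ) ≤ _)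
      unfold sh
      rw [sum_eq_zero fun t _ => ind_neg fun g => g.2 ((hb2_dg fun i =>
        ((Nat.modEq_zero_iff_dvd.2 (hRc.mul_right _)).add_left (b' i)).symm).1 hd), zero_div]
    · have h1 : (x ^ (c * R')) ^ M = 1 := by rw [← pow_mul, mul_comm, pow_mul, hx, one_pow]
      refine (sh_mono M _ b' fun a g => g.1).trans ?_
      rw [hBR F x M (c * R') h1 (IX N D) b' r]
      refine hTWO F _ _ K N D _ r
        (univ.filter fun m : Fin 12 => ¬ b' (.inl (m, 0)) ≡ b' (.inl (m, 1)) [MOD R])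
        (fun g => hK _) (by rwa [card_range_expHom]) ?_ fun m hm g => (mem_filter.1 hm).2 (hR _ _ g)
      have := card_filter_add_card_filter_not (s := (univ : Finset (Fin 12)))
        fun m : Fin 12 => b' (.inl (m, 0)) ≡ b' (.inl (m, 1)) [MOD R]
      unfold Dg at hd
      rw [card_univ, Fintype.card_fin] at this
      omega

end Pool.Agent.P.MP_42fc1a_nt.TU
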