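import Pool.Agent.P.MP_42fc1a_nt.TU.IfL

/-! Step IND. -/

set_option autoImplicit false
set_option linter.unusedSectionVars false

namespace Pool.Agent.P.MP_42fc1a_nt.TU

open Polynomial Finset
open Pool.Agent.P.MP_8be758_nt.L2 (IsPr Pd mem_Pd)
open scoped Classical

theorem IND_dvd {y L0 L d : ℕ} (hd : d ∣ L) {j : Fin (L + 1)} (hj : j ∉ JD y L d) :
    2 ^ d - 1 ∣ cj y L0 L j.val := by
  simp only [JD, mem_filter, mem_univ, true_and, not_or] at hj
  unfold cj
  rw [if_neg hj.1]
  split_ifs with h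
  · have hn : ¬ j.val ∣ d := fun h' => hj.2 ⟨h.1, h.2.1, h'⟩
    exact Nat.pow_sub_one_dvd_pow_sub_one 2 (Nat.dvd_ordCompl_of_dvd_not_dvd hd hn)
  · exact dvd_zero _

theorem IND_card {y L d : ℕ} (hd : d ≠ 0) :
    (JD y L d).card ≤ 1 + d.primeFactors.card := by
  have h1 : (JD y L d).card ≤ (insert 0 d.primeFactors).card := by
    refine card_le_card_of_injOn (fun j => j.val) ?_ ?_
    · intro j hj
      have hj' : j.val = 0 ∨ (j.val.Prime ∧ y < j.val ∧ j.val ∣ d) := by
        simpa [JD] using hj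
      rcases hj' with h | h
      · simp [h]
      · simp only [coe_insert, Set.mem_insert_iff, mem_coe, Nat.mem_primeFactors]
        exact Or.inr ⟨h.1, h.2.2, hd⟩
    · intro a _ b _ h
      exact Fin.ext h
  exact h1.trans ((card_insert_le _ _).trans (by omega))

theorem IND_tau {d : ℕ} (hd : d ≠ 0) : 2 ^ d.primeFactors.card ≤ tau d := by
  unfold tau
  rw [Nat.card_divisors hd]
  refine pow_card_le_prod _ _ _ fun p hp => ?_
  have := (Nat.mem_primeFactors.1 hp).1.factorization_pos_of_dvd hd (Nat.mem_primeFactors.1 hp).2.1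
  omega

theorem p_IND :
    S_IND := by
  intro N D M y L0 L d G hL hd hG
  have hd0 : d ≠ 0 := by
    rintro rfl
    have := Nat.eq_zero_of_zero_dvd hd
    omega
  refine ⟨fun j hj x ω => ?_, ?_, fun hs => ?_⟩
  · refine propext (hG _ _ fun i => ?_)
    unfold ex
    refine Nat.ModEq.add_left _ ?_
    rw [← add_sum_erase univ _ (mem_univ j), ← add_sum_erase univ _ (mem_univ j)]
    have e : ∑ k ∈ univ.erase j, cj y L0 L k.val * (Function.update x j ω k i).val =
        ∑ k ∈ univ.erase j, cj y L0 L k.val * (x k i).val :=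
      sum_congr rfl fun k hk => by rw [Function.update_of_ne (ne_of_mem_erase hk)]
    rw [e]
    refine Nat.ModEq.add_right _ ?_
    have h := IND_dvd (L0 := L0) hd hj
    exact ((Nat.modEq_zero_iff_dvd.2 (h.mul_right _))).trans
      (Nat.modEq_zero_iff_dvd.2 (h.mul_right _)).symm
  · have h1 : (6 / 5 : ℝ) ^ (JD y L d).card ≤ 2 ^ (JD y L d).card := by
      gcongr; norm_num
    have h2 : (2 : ℝ) ^ (JD y L d).card ≤ 2 ^ (1 + d.primeFactors.card) :=
      pow_le_pow_right₀ (by norm_num) (IND_card hd0)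
    have h3 : (2 : ℝ) ^ d.primeFactors.card ≤ tau d := by exact_mod_cast IND_tau hd0
    rw [pow_add, pow_one] at h2
    linarith
  · have h1 : (JD y L d).card ≤ 1 := by
      refine card_le_one.2 fun a ha b hb => ?_
      have k : ∀ c ∈ JD y L d, c.val = 0 := by
        intro c hc
        have hc' : c.val = 0 ∨ (c.val.Prime ∧ y < c.val ∧ c.val ∣ d) := by
          simpa [JD] using hc
        rcases hc' with h | h
        · exact h
        · have := (Nat.mem_smoothNumbers'.1 hs) c.val h.1 h.2.2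
          omega
      exact Fin.ext ((k a ha).trans (k b hb).symm)
    calc (6 / 5 : ℝ) ^ (JD y L d).card ≤ (6 / 5) ^ 1 := pow_le_pow_right₀ (by norm_num) h1
      _ = 6 / 5 := pow_one _

end Pool.Agent.P.MP_42fc1a_nt.TU
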