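import Pool.Agent.P.MP_42fc1a_nt.TU.IfL

/-! Step NUM. -/

set_option autoImplicit false
set_option linter.unusedSectionVars false

namespace Pool.Agent.P.MP_42fc1a_nt.TU

open Polynomial Finset
open Pool.Agent.P.MP_8be758_nt.L2 (IsPr Pd mem_Pd)
open scoped Classical

theorem p_NUM :
    S_NUM := by
  intro e h1 Q h he hh hhe hle hQ
  have he' : (1 : ℝ) ≤ e := by exact_mod_cast he
  have hQ' : (h1 : ℝ) ≤ Q := by exact_mod_cast hQ
  have h1h : 1 ≤ h := by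
    rw [← hhe] at he'
    exact (one_le_pow_iff_of_nonneg hh.le (by norm_num)).1 he'
  have h19 : h ^ 19 ≤ h1 := by
    have : h * h ^ 19 ≤ h * h1 := by rw [← pow_succ', hhe]; exact hle
    exact le_of_mul_le_mul_left this hh
  have hQ0 : (0 : ℝ) < Q := lt_of_lt_of_le (by positivity) (h19.trans hQ')
  obtain ⟨y, hy0, hy, hy4⟩ : ∃ y : ℝ, 0 < y ∧ y ^ 15 = Q ∧ (Q : ℝ) ^ (4 / 15 : ℝ) = y ^ 4 := by
    refine ⟨(Q : ℝ) ^ (1 / 15 : ℝ), Real.rpow_pos_of_pos hQ0 _, ?_, ?_⟩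
    · rw [← Real.rpow_natCast, ← Real.rpow_mul hQ0.le]; norm_num
    · rw [← Real.rpow_natCast, ← Real.rpow_mul hQ0.le]; norm_num
  have he21 : (e : ℝ) ^ (21 / 20 : ℝ) = h ^ 21 := by
    rw [← hhe, ← Real.rpow_natCast, ← Real.rpow_mul hh.le, ← Real.rpow_natCast]; norm_num
  have hhy : h ≤ y := by
    have : h ^ 15 ≤ y ^ 15 := by
      rw [hy]
      exact (pow_le_pow_right₀ h1h (by norm_num)).trans (h19.trans hQ')
    exact le_of_pow_le_pow_left₀ (by norm_num) hy0.le this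
  refine ⟨?_, fun hlt => ?_, fun hge => ?_, ?_⟩
  · have : (e : ℝ) ^ 19 ≤ (h1 : ℝ) ^ 20 := by
      rw [← hhe, ← pow_mul, mul_comm, pow_mul]
      exact pow_le_pow_left₀ (by positivity) h19 _
    exact_mod_cast this
  · have hlt' : (Q : ℝ) ^ 2 ≤ (e : ℝ) ^ 3 := by exact_mod_cast hlt.le
    have : (Q : ℝ) ^ 6 ≤ (h1 : ℝ) ^ 10 := by
      calc (Q : ℝ) ^ 6 = ((Q : ℝ) ^ 2) ^ 3 := by ring
        _ ≤ ((e : ℝ) ^ 3) ^ 3 := pow_le_pow_left₀ (by positivity) hlt' _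
        _ = h ^ 180 := by rw [← hhe]; ring
        _ ≤ h ^ 190 := pow_le_pow_right₀ h1h (by norm_num)
        _ = (h ^ 19) ^ 10 := by ring
        _ ≤ _ := pow_le_pow_left₀ (by positivity) h19 _
    exact_mod_cast this
  · have hge' : (e : ℝ) ^ 3 ≤ (Q : ℝ) ^ 2 := by exact_mod_cast hge
    have h2 : h ^ 2 ≤ y := by
      have : (h ^ 2) ^ 30 ≤ y ^ 30 := by
        calc (h ^ 2) ^ 30 = (e : ℝ) ^ 3 := by rw [← hhe]; ring
          _ ≤ (Q : ℝ) ^ 2 := hge'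
          _ = y ^ 30 := by rw [← hy]; ring
      exact le_of_pow_le_pow_left₀ (by norm_num) hy0.le this
    have h11 : (h ^ 2) ^ 11 ≤ y ^ 11 := pow_le_pow_left₀ (by positivity) h2 _
    rw [hy4, he21, div_le_div_iff₀ hQ0 (by positivity), ← hy]
    calc h * (y ^ 4 * h ^ 21) = (h ^ 2) ^ 11 * y ^ 4 := by ring
      _ ≤ y ^ 11 * y ^ 4 := mul_le_mul_of_nonneg_right h11 (by positivity)
      _ = 1 * y ^ 15 := by ring
      _ ≤ 4 * y ^ 15 := mul_le_mul_of_nonneg_right (by norm_num) (by positivity)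
  · rw [hy4, he21, ← hy]
    refine div_le_div_of_nonneg_left (by norm_num) (by positivity) ?_
    calc y ^ 4 * h ^ 21 ≤ y ^ 4 * y ^ 21 :=
          mul_le_mul_of_nonneg_left (pow_le_pow_left₀ hh.le hhy _) (by positivity)
      _ = y ^ 25 := by ring
      _ ≤ y ^ 30 := pow_le_pow_right₀ (h1h.trans hhy) (by norm_num)
      _ = (y ^ 15) ^ 2 := by ring

end Pool.Agent.P.MP_42fc1a_nt.TU
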