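import Pool.Agent.P.MP_42fc1a_nt.TU.IfL

/-! Step ONE. -/

set_option autoImplicit false
set_option linter.unusedSectionVars false

namespace Pool.Agent.P.MP_42fc1a_nt.TU

open Polynomial Finset
open Pool.Agent.P.MP_8be758_nt.L2 (IsPr Pd mem_Pd)
open scoped Classical

theorem p_ONE (hGS : S_GS) :
    S_ONE := by
  intro F _ _ _ Γ _ _ φ hq
  have hN : (0 : ℝ) < Fintype.card F := by exact_mod_cast Fintype.card_pos
  have h2 : (2 : ℝ) / Fintype.card F = 1 / Fintype.card F + 1 / Fintype.card F := by ring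
  rw [h2]
  refine Fk_le φ (by positivity) fun ξ hξ => ?_
  rcases hGS F Γ φ ⊤ ξ (fun _ => Subring.mem_top _) with h | h
  · exfalso
    apply ch_prim F hξ
    ext κ
    simpa [AddChar.mulShift_apply] using h κ (Subring.mem_top _)
  · have hK : (Nat.card (⊤ : Subring F) : ℝ) = Fintype.card F := by
      rw [Nat.card_congr (Subring.topEquiv (R := F)).toEquiv, Nat.card_eq_fintype_card]
    rw [hK] at h
    have hq' : (Fintype.card F : ℝ) ^ 6 ≤ (Nat.card φ.range : ℝ) ^ 10 := by exact_mod_cast hq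
    set a := ‖ft (mu φ) ξ‖ with ha
    set e := (Nat.card φ.range : ℝ) with he
    set q := (Fintype.card F : ℝ) with hq0
    have ha0 : 0 ≤ a := norm_nonneg _
    have h5 : (e ^ 2 * a ^ 2) ^ 5 ≤ q ^ 5 := pow_le_pow_left₀ (by positivity) h 5
    have h6 : q ^ 6 * a ^ 10 ≤ q ^ 5 := by
      calc q ^ 6 * a ^ 10 ≤ e ^ 10 * a ^ 10 := by gcongr
        _ = (e ^ 2 * a ^ 2) ^ 5 := by ring
        _ ≤ _ := h5
    rw [le_div_iff₀ hN]
    have h7 : q ^ 5 * (a ^ 10 * q) ≤ q ^ 5 * 1 := by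
      calc q ^ 5 * (a ^ 10 * q) = q ^ 6 * a ^ 10 := by ring
        _ ≤ q ^ 5 := h6
        _ = _ := by ring
    exact le_of_mul_le_mul_left h7 (by positivity)

end Pool.Agent.P.MP_42fc1a_nt.TU
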