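import Pool.Agent.P.MP_42fc1a_nt.TU.IfL

/-! Step ORD. -/

set_option autoImplicit false
set_option linter.unusedSectionVars false

namespace Pool.Agent.P.MP_42fc1a_nt.TU

open Polynomial Finset
open Pool.Agent.P.MP_8be758_nt.L2 (IsPr Pd mem_Pd)
open scoped Classical

theorem p_ORD (hFLD : S_FLD) :
    S_ORD := by
  intro P c hP hX
  obtain ⟨F, _, _, _, _, x, ev, h1, h2, h3, -, h5⟩ := hFLD P hP hX
  have A : ∀ t, P ∣ X ^ (c * t) - 1 ↔ oo P c ∣ t := by
    intro t
    rw [← h2, ← h5, orderOf_dvd_iff_pow_eq_one, map_sub, map_pow, map_one, h1, sub_eq_zero,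
      ← pow_mul, ← Units.val_pow_eq_pow_val, Units.val_eq_one]
  have B : ∀ c, oo P c ∣ 2 ^ P.natDegree - 1 := by
    intro c
    rw [← h5, ← h3, ← Fintype.card_units]
    exact orderOf_dvd_card
  have C : 1 ≤ oo P c := by rw [← h5]; exact orderOf_pos _
  refine ⟨A, B c, C, fun hc => ?_, fun L0 hL h hd => ?_⟩
  · have hm : 0 < c * oo P c := Nat.mul_pos hc C
    have := natDegree_le_of_dvd ((A _).2 dvd_rfl)
      (X_pow_sub_C_ne_zero (R := ZMod 2) hm 1)
    rwa [← C_1, natDegree_X_pow_sub_C] at this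
  · have h6 : orderOf x ∣ c := by
      have := B 1
      rw [← h5, pow_one] at this
      rw [hL]
      exact this.trans (Nat.pow_sub_one_dvd_pow_sub_one 2 hd)
    rw [← h5, orderOf_dvd_iff_pow_eq_one.1 h6, orderOf_one] at h
    exact lt_irrefl _ h

end Pool.Agent.P.MP_42fc1a_nt.TU
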