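import Pool.Agent.P.MP_42fc1a_nt.TU.IfL

/-! Step PER. -/

set_option autoImplicit false
set_option linter.unusedSectionVars false

namespace Pool.Agent.P.MP_42fc1a_nt.TU

open Polynomial Finset
open Pool.Agent.P.MP_8be758_nt.L2 (IsPr Pd mem_Pd)
open scoped Classical

namespace PERx

theorem dg {N D R R' : ℕ} (h : R ∣ R') : Per R' (Dg R : (IX N D → ℕ) → Prop) := by
  intro a a' e
  unfold Dg
  rw [filter_congr fun m _ => (⟨fun g => ((e _).of_dvd h).symm.trans (g.trans ((e _).of_dvd h)),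
    fun g => ((e _).of_dvd h).trans (g.trans ((e _).of_dvd h).symm)⟩ :
      a (.inl (m, 0)) ≡ a (.inl (m, 1)) [MOD R] ↔ a' (.inl (m, 0)) ≡ a' (.inl (m, 1)) [MOD R])]

theorem pw {P : (ZMod 2)[X]} {m : ℕ} (h : ∀ t, m ∣ t → P ∣ X ^ t - 1) {a a' : ℕ}
    (e : a ≡ a' [MOD m]) : P ∣ X ^ a - X ^ a' := by
  have key : ∀ b b' : ℕ, b ≤ b' → b ≡ b' [MOD m] → P ∣ X ^ b' - X ^ b := fun b b' l g => by
    obtain ⟨d, rfl⟩ := Nat.exists_eq_add_of_le l
    have := (h d (by simpa using (Nat.modEq_iff_dvd' l).1 g)).mul_left (X ^ b)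
    rwa [mul_sub, mul_one, ← pow_add] at this
  rcases le_total a a' with l | l
  · exact dvd_sub_comm.1 (key a a' l e)
  · exact key a' a l e.symm

theorem bad {P f : (ZMod 2)[X]} {m : ℕ} (h : ∀ t, m ∣ t → P ∣ X ^ t - 1) {ι : Type} [Fintype ι] :
    Per m (Bad P f : (ι → ℕ) → Prop) := by
  intro a a' e
  refine dvd_iff_dvd_of_dvd_sub ?_
  rw [add_sub_add_left_eq_sub, ← sum_sub_distrib]
  exact dvd_sum fun i _ => pw h (e i)

end PERx

theorem p_PER (hORD : S_ORD) :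
    S_PER := by
  intro P f N D hP hX
  obtain ⟨h1, h2, -⟩ := hORD P 1 hP hX
  have h : ∀ t, 2 ^ P.natDegree - 1 ∣ t → P ∣ X ^ t - 1 := fun t ht => by
    simpa using (h1 t).2 (h2.trans ht)
  refine ⟨PERx.bad h, fun a a' e => and_congr (PERx.bad h a a' e) ?_, fun _ _ => PERx.dg⟩
  exact forall_congr' fun R => forall_congr' fun _ => forall_congr' fun g =>
    not_congr (PERx.dg (g.trans h2) a a' e)

end Pool.Agent.P.MP_42fc1a_nt.TU
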