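import Pool.Agent.P.MP_42fc1a_nt.TU.IfL

/-! Step PERP. -/

set_option autoImplicit false
set_option linter.unusedSectionVars false

namespace Pool.Agent.P.MP_42fc1a_nt.TU

open Polynomial Finset
open Pool.Agent.P.MP_8be758_nt.L2 (IsPr Pd mem_Pd)
open scoped Classical

theorem perp_gen (F : Type) [Field F] [Fintype F] [DecidableEq F] (A : Type) [AddCommGroup A]
    [Fintype A] (f : A →+ F) (hf : Function.Injective f) (p : F → Prop) [DecidablePred p]
    (hp : ∀ ξ, p ξ ↔ ∀ a, ch F (ξ * f a) = 1) :
    ((univ.filter p).card : ℝ) * Fintype.card A = Fintype.card F := by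
  have h1 : ∑ ξ : F, ∑ a : A, ch F (ξ * f a) = (Fintype.card F : ℂ) := by
    rw [sum_comm]
    simp only [orth]
    rw [Finset.sum_eq_single (0 : A)]
    · simp
    · intro b _ hb
      rw [if_neg]
      intro h
      exact hb (hf (by simpa using h))
    · simp
  have h2 : ∀ ξ : F, ∑ a : A, ch F (ξ * f a) = if p ξ then (Fintype.card A : ℂ) else 0 := by
    intro ξ
    split_ifs with h
    · simp [(hp ξ).1 h]
    · have hne : ((ch F).mulShift ξ).compAddMonoidHom f ≠ 1 := by
        intro e
        apply h
        rw [hp]
        intro a
        have := DFunLike.congr_fun e a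
        simpa using this
      have := AddChar.sum_eq_zero_of_ne_one hne
      simpa using this
  simp only [h2] at h1
  rw [← sum_filter, sum_const, nsmul_eq_mul] at h1
  exact_mod_cast h1

theorem p_PERP :
    S_PERP := by
  intro F _ _ _ K u u'
  have hc : (Nat.card K : ℝ) = Fintype.card K := by rw [Nat.card_eq_fintype_card]
  refine ⟨?_, fun hu => ?_⟩
  · rw [hc]
    refine perp_gen F K ((AddMonoidHom.mulLeft (u : F)).comp K.subtype.toAddMonoidHom) ?_ _ ?_
    · intro a b h
      have h' : (u : F) * a = u * b := h
      exact Subtype.ext (mul_left_cancel₀ u.ne_zero h')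
    · intro ξ
      constructor
      · intro h a
        have := h a a.2
        rw [← this]
        congr 1
        show ξ * ((u : F) * a) = _
        ring
      · intro h κ hκ
        have := h ⟨κ, hκ⟩
        rw [← this]
        congr 1
        show _ = ξ * ((u : F) * κ)
        ring
  · have hc2 : (Nat.card K : ℝ) ^ 2 = Fintype.card (K × K) := by
      rw [hc, Fintype.card_prod]
      push_cast
      ring
    rw [hc2]
    let f : K × K →+ F :=
      ((AddMonoidHom.mulLeft (u : F)).comp K.subtype.toAddMonoidHom).coprod
        ((AddMonoidHom.mulLeft (u' : F)).comp K.subtype.toAddMonoidHom)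
    have hf : ∀ a : K × K, f a = (u : F) * a.1 + (u' : F) * a.2 := fun a => rfl
    refine perp_gen F (K × K) f ?_ _ ?_
    · rw [injective_iff_map_eq_zero]
      rintro ⟨a, b⟩ h
      rw [hf] at h
      have ha : (a : F) = 0 := by
        by_contra ha
        apply hu
        have hq : (a : F) ^ (Fintype.card F - 1) = 1 := FiniteField.pow_card_sub_one_eq_one _ ha
        have h2 : 2 ≤ Fintype.card F := Fintype.one_lt_card
        have hi : (a : F) ^ (Fintype.card F - 2) * a = 1 := by
          rw [← pow_succ, ← hq]
          congr 1
          omega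
        have e : ((u * u'⁻¹ : Fˣ) : F) = -(b : F) * (a : F) ^ (Fintype.card F - 2) := by
          have hu' := u'.ne_zero
          rw [Units.val_mul, Units.val_inv_eq_inv_val]
          field_simp
          simp only at h
          linear_combination (a : F) ^ (Fintype.card F - 2) * h - (u : F) * hi
        rw [e]
        exact K.mul_mem (K.neg_mem b.2) (K.pow_mem a.2 _)
      have hb : (b : F) = 0 := by
        simp only [ha, mul_zero, zero_add] at h
        exact (mul_eq_zero.1 h).resolve_left u'.ne_zero
      exact Prod.ext (Subtype.ext ha) (Subtype.ext hb)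
    · intro ξ
      constructor
      · rintro ⟨h, h'⟩ a
        rw [hf, mul_add, AddChar.map_add_eq_mul]
        have e1 : ξ * ((u : F) * a.1) = u * ξ * a.1 := by ring
        have e2 : ξ * ((u' : F) * a.2) = u' * ξ * a.2 := by ring
        rw [e1, e2, h _ a.1.2, h' _ a.2.2, one_mul]
      · intro h
        constructor
        · intro κ hκ
          have := h (⟨κ, hκ⟩, 0)
          rw [← this, hf]
          congr 1
          simp only [ZeroMemClass.coe_zero]
          ring
        · intro κ hκ
          have := h (0, ⟨κ, hκ⟩)
          rw [← this, hf]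
          congr 1
          simp only [ZeroMemClass.coe_zero]
          ring

end Pool.Agent.P.MP_42fc1a_nt.TU
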