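import Pool.Agent.P.MP_42fc1a_nt.TU.IfL

/-! Step PP. -/

set_option autoImplicit false
set_option linter.unusedSectionVars false

namespace Pool.Agent.P.MP_42fc1a_nt.TU

open Polynomial Finset
open Pool.Agent.P.MP_8be758_nt.L2 (IsPr Pd mem_Pd)
open scoped Classical

theorem p_PP (hFLD : S_FLD) (hBR : S_BR) (hONE : S_ONE) (hSPAN : S_SPAN) (hHB : S_HB) :
    S_PP := by
  obtain ⟨k1, E1, HB⟩ := hHB
  refine ⟨k1, E1, fun P M _ c N D hP hX hM => ?_⟩
  obtain ⟨F, _, _, _, _, x, ev, e1, e2, e3, e4, e5⟩ := hFLD P hP hX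
  have hq : (Fintype.card F : ℝ) = 2 ^ P.natDegree := by rw [e3]; push_cast; rfl
  have hx : x ^ M = 1 := by
    obtain ⟨w, hw⟩ := hM
    have h1 : x ^ (Fintype.card F - 1) = 1 :=
      Units.ext (by simpa using FiniteField.pow_card_sub_one_eq_one (x : F) x.ne_zero)
    rw [hw, ← e3, pow_mul, h1, one_pow]
  have hxc : (x ^ c) ^ M = 1 := by rw [← pow_mul, mul_comm, pow_mul, hx, one_pow]
  have hbad : ∀ f (a : IX N D → ℕ), Bad P f a ↔ ∑ i, (x : F) ^ a i = -ev f := fun f a => by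
    rw [Bad, ← e2, map_add, map_sum, add_comm, add_eq_zero_iff_eq_neg]
    simp only [map_pow, e1]
  have hsh : ∀ f (b : IX N D → ℕ), sh M c b (Bad P f) ≤
      sh M c b (fun a => ∑ i, (x : F) ^ a i = -ev f) := fun f b =>
    sh_mono M c b fun a => (hbad f a).1
  have hr : Nat.card (expHom M (x ^ c) hxc).range = oo P c := by rw [card_range_expHom, e5]
  refine ⟨fun h f b => (hsh f b).trans ?_, fun E h1 h2 h3 h4 f b hb => (hsh f b).trans ?_,
    fun h1 h2 => ?_⟩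
  · rw [hBR F x M c hxc, ← hq]
    refine (pr_le_Fk _ _ _ (by norm_num : 0 < 10) (by simp; omega)).trans
      (hONE F _ _ (by rw [hr, e3]; exact h))
  · rw [hBR F x M c hxc]
    refine (hSPAN F _ _ x P.natDegree N D E _ _ e4 h3 (hr ▸ h1) (hr ▸ h2) fun i => ?_).trans ?_
    · obtain ⟨m, hm⟩ := hb i
      exact ⟨Multiplicative.ofAdd (m : ZMod M), by rw [expHom_natCast, hm, pow_add, pow_mul]⟩
    · have h5 : (1 : ℝ) / 2 ^ D ≤ 1 / 2 ^ P.natDegree :=
        one_div_le_one_div_of_le (by positivity) (pow_le_pow_right₀ one_le_two h3)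
      rw [hq, show (2 : ℝ) / 2 ^ P.natDegree = 1 / 2 ^ P.natDegree + 1 / 2 ^ P.natDegree by ring]
      linarith
  · rcases HB F x M c P.natDegree N D hx e4 h1 (e5 c ▸ h2) with h | ⟨κ, h3, h4, h5⟩
    · exact Or.inl fun f b => (hsh f b).trans (hq ▸ h b _)
    · rw [e5] at h4 h5
      refine Or.inr ⟨κ, h3, h4, fun f b => le_trans (sh_mono M c b fun a ha => ?_) (h5 b (-ev f))⟩
      refine ⟨(hbad f a).1 ha.1, fun R h6 h7 => ha.2 R h6 ?_⟩
      rwa [← e5, pow_one]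

end Pool.Agent.P.MP_42fc1a_nt.TU
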