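import Pool.Agent.P.MP_42fc1a_nt.TU.IfL

/-! Step S0. -/

set_option autoImplicit false
set_option linter.unusedSectionVars false

namespace Pool.Agent.P.MP_42fc1a_nt.TU

open Polynomial Finset
open Pool.Agent.P.MP_8be758_nt.L2 (IsPr Pd mem_Pd)
open scoped Classical

theorem p_S0 :
    S_S0 := by
  intro y S hy hS
  have hy0 : y ≠ 0 := by omega
  have hyR : (4400 : ℝ) ≤ y := by exact_mod_cast hy
  set n := max y (S.sup id) with hn
  have hsub : S ⊆ Ioc y n := fun R hR =>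
    mem_Ioc.2 ⟨hS R hR, le_max_of_le_right (le_sup (f := id) hR)⟩
  have h1 := sum_Ioc_inv_sq_le_sub (α := ℝ) hy0 (le_max_left y (S.sup id))
  rw [← hn] at h1
  have h2 : ∑ R ∈ S, 2 * (R : ℝ) * (220 / (R : ℝ) ^ 3) = 440 * ∑ R ∈ S, ((R : ℝ) ^ 2)⁻¹ := by
    rw [mul_sum]
    refine sum_congr rfl fun R hR => ?_
    have : (R : ℝ) ≠ 0 := by
      have := hS R hR
      exact_mod_cast (by omega : R ≠ 0)
    field_simp
    norm_num
  have h3 : ∑ R ∈ S, ((R : ℝ) ^ 2)⁻¹ ≤ ∑ R ∈ Ioc y n, ((R : ℝ) ^ 2)⁻¹ :=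
    sum_le_sum_of_subset_of_nonneg hsub fun _ _ _ => by positivity
  have h4 : (0 : ℝ) ≤ (n : ℝ)⁻¹ := by positivity
  have h5 : (y : ℝ)⁻¹ ≤ (4400 : ℝ)⁻¹ := inv_anti₀ (by norm_num) hyR
  rw [h2]
  norm_num at h5
  nlinarith

end Pool.Agent.P.MP_42fc1a_nt.TU
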