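import Pool.Agent.P.MP_42fc1a_nt.TU.IfL

/-! Step S1. -/

set_option autoImplicit false
set_option linter.unusedSectionVars false

namespace Pool.Agent.P.MP_42fc1a_nt.TU

open Polynomial Finset
open Pool.Agent.P.MP_8be758_nt.L2 (IsPr Pd mem_Pd)
open scoped Classical

theorem p_S1 :
    S_S1 := by
  intro y
  obtain ⟨D0, hD0, h⟩ := tail_fm (y + 1) (show (0 : ℝ) < 1 / 24 by norm_num)
  refine ⟨D0, hD0, fun S hS => ?_⟩
  have h1 := h (S.image natDegree) fun d hd => by
    obtain ⟨P, hP, rfl⟩ := mem_image.1 hd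
    exact (hS P hP).2
  rw [← sum_fiberwise_of_maps_to (g := natDegree) (t := S.image natDegree)
    fun P hP => mem_image_of_mem _ hP]
  refine (sum_le_sum (g := fun d => 12 / 5 * fm d) fun d hd => ?_).trans ?_
  · obtain ⟨P0, hP0, e⟩ := mem_image.1 hd
    have d0 : d ≠ 0 := e ▸ (Nat.mem_smoothNumbers.1 (hS P0 hP0).2.1).1
    have d1 : (0 : ℝ) < d := by exact_mod_cast Nat.pos_of_ne_zero d0
    have h2 := card_deg d (Nat.pos_of_ne_zero d0) (S.filter fun P => P.natDegree = d)
      fun P hP => ⟨(hS P (mem_filter.1 hP).1).1, (mem_filter.1 hP).2⟩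
    rw [sum_congr rfl (g := fun _ => 6 / 5 * ((2 : ℝ) / 2 ^ d)) fun P hP => by
      rw [(mem_filter.1 hP).2], sum_const, nsmul_eq_mul]
    have h3 : 1 / (d : ℝ) ≤ fm d := by
      rw [fm_apply]
      exact div_le_div_of_nonneg_right (one_le_pow₀ (by norm_num)) d1.le
    have h4 : ((S.filter fun P => P.natDegree = d).card : ℝ) / 2 ^ d ≤ 1 / d := by
      rw [div_le_div_iff₀ (by positivity) d1]
      linarith
    have e2 : ((S.filter fun P => P.natDegree = d).card : ℝ) * (6 / 5 * ((2 : ℝ) / 2 ^ d)) =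
        12 / 5 * (((S.filter fun P => P.natDegree = d).card : ℝ) / 2 ^ d) := by ring
    rw [e2]
    linarith
  · rw [← mul_sum]
    linarith

end Pool.Agent.P.MP_42fc1a_nt.TU
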