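import Pool.Agent.P.MP_42fc1a_nt.TU.IfL

/-! Step S2. -/

set_option autoImplicit false
set_option linter.unusedSectionVars false

namespace Pool.Agent.P.MP_42fc1a_nt.TU

open Polynomial Finset
open Pool.Agent.P.MP_8be758_nt.L2 (IsPr Pd mem_Pd)
open scoped Classical

namespace S2x

theorem cnt (hCNT : S_CNT) {C r : ℝ} (r1 : 1 ≤ r) (hr : r ^ 20 = 2) (C0 : 0 ≤ C)
    (hC : ∀ m : ℕ, m ≠ 0 → (tau m : ℝ) ≤ C * (m : ℝ) ^ (1 / 20 : ℝ)) {d s : ℕ} (s1 : 1 ≤ s)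
    (s2 : 10 * s ≤ d) (S : Finset (ZMod 2)[X])
    (h : ∀ P ∈ S, IsPr P ∧ ∃ t, t ∣ 2 ^ d - 1 ∧ t ^ 10 < (2 ^ d) ^ 6 ∧
      P ∣ X ^ ((2 ^ s - 1) * t) - 1) : (S.card : ℝ) ≤ C * r ^ (15 * d) := by
  have r0 : 0 ≤ r := by linarith
  have q1 : 1 < 2 ^ d := Nat.one_lt_two_pow (by omega)
  have q2 : 1 < 2 ^ s := Nat.one_lt_two_pow (by omega)
  have q0 : 2 ^ d - 1 ≠ 0 := by omega
  have h1 : S ⊆ ((2 ^ d - 1).divisors.filter fun t => t ^ 10 < (2 ^ d) ^ 6).biUnion fun t =>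
      S.filter fun P => P ∣ X ^ ((2 ^ s - 1) * t) - 1 := fun P hP => by
    obtain ⟨-, t, a, b, c⟩ := h P hP
    exact mem_biUnion.2 ⟨t, mem_filter.2 ⟨Nat.mem_divisors.2 ⟨a, q0⟩, b⟩, mem_filter.2 ⟨hP, c⟩⟩
  have h2 : (tau (2 ^ d - 1) : ℝ) ≤ C * r ^ d := by
    refine (hC _ q0).trans (mul_le_mul_of_nonneg_left ?_ C0)
    have e : ((r ^ d) ^ 20) ^ (1 / 20 : ℝ) = r ^ d := by
      rw [one_div]
      exact_mod_cast Real.pow_rpow_inv_natCast (pow_nonneg r0 d) (n := 20) (by norm_num)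
    rw [← e, ← pow_mul, mul_comm, pow_mul, hr]
    refine Real.rpow_le_rpow (by positivity) ?_ (by norm_num)
    exact_mod_cast Nat.sub_le _ _
  refine (Nat.cast_le.2 ((card_le_card h1).trans card_biUnion_le)).trans ?_
  rw [Nat.cast_sum]
  refine (sum_le_card_nsmul _ _ (r ^ (14 * d)) fun t ht => ?_).trans ?_
  · obtain ⟨a, b⟩ := mem_filter.1 ht
    have t0 := Nat.pos_of_mem_divisors a
    have c := hCNT (S.filter fun P => P ∣ X ^ ((2 ^ s - 1) * t) - 1) ((2 ^ s - 1) * t)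
      (Nat.mul_pos (by omega) t0) fun P hP => ⟨(h P (mem_filter.1 hP).1).1, (mem_filter.1 hP).2⟩
    have e1 : ((2 ^ s - 1 : ℕ) : ℝ) ≤ r ^ (2 * d) := by
      refine le_trans ?_ (pow_le_pow_right₀ r1 (show 20 * s ≤ 2 * d by omega))
      rw [pow_mul, hr]
      exact_mod_cast Nat.sub_le _ _
    have e2 : (t : ℝ) ≤ r ^ (12 * d) := by
      refine le_of_pow_le_pow_left₀ (n := 10) (by norm_num) (by positivity) ?_
      rw [← pow_mul, show 12 * d * 10 = 20 * (d * 6) by ring, pow_mul, hr, pow_mul]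
      exact_mod_cast b.le
    refine (Nat.cast_le.2 c).trans ?_
    rw [Nat.cast_mul, show 14 * d = 2 * d + 12 * d by ring, pow_add]
    exact mul_le_mul e1 e2 (by positivity) (by positivity)
  · rw [nsmul_eq_mul, show 15 * d = d + 14 * d by ring, pow_add, ← mul_assoc]
    exact mul_le_mul_of_nonneg_right ((Nat.cast_le.2 (card_filter_le _ _)).trans h2)
      (by positivity)

theorem fin {C r n t : ℝ} (r0 : 0 < r) (hr : r ^ 20 = 2) (C0 : 0 ≤ C) {d : ℕ} (t0 : 0 ≤ t)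
    (hn : n ≤ C * r ^ (15 * d)) (ht : t ≤ d) :
    n * (2 * t * (2 / 2 ^ d)) ≤ 4 * C * ((d : ℝ) ^ 1 * (r ^ 5)⁻¹ ^ d) := by
  have e : (2 : ℝ) ^ d = r ^ (15 * d) * (r ^ 5) ^ d := by
    rw [← hr, ← pow_mul, ← pow_mul, ← pow_add]; congr 1; ring
  refine (mul_le_mul hn (mul_le_mul_of_nonneg_right (mul_le_mul_of_nonneg_left ht zero_le_two)
    (by positivity)) (by positivity) (by positivity)).trans_eq ?_
  rw [e, inv_pow]
  field_simp
  ring

theorem tail {f : ℕ → ℝ} (hs : Summable f) :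
    ∃ y : ℕ, ∀ T : Finset ℕ, (∀ d ∈ T, y ≤ d) → ∑ d ∈ T, f d ≤ 1 / 10 := by
  obtain ⟨T, hT⟩ := hs.vanishing (Iio_mem_nhds (show (0 : ℝ) < 1 / 10 by norm_num))
  refine ⟨T.sup id + 1, fun U h => (Set.mem_Iio.1 (hT U (disjoint_left.2 fun d hd hd' => ?_))).le⟩
  have a := h d hd
  have b : d ≤ T.sup id := le_sup (f := id) hd'
  omega

theorem root : ∃ r : ℝ, 1 < r ∧ r ^ 20 = 2 :=
  ⟨2 ^ ((20 : ℕ) : ℝ)⁻¹, Real.one_lt_rpow (by norm_num) (by norm_num),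
    Real.rpow_inv_natCast_pow (by norm_num) (by norm_num)⟩

theorem summ (C : ℝ) {r : ℝ} (r1 : 1 < r) :
    Summable fun d : ℕ => 4 * C * ((d : ℝ) ^ 1 * (r ^ 5)⁻¹ ^ d) := by
  have h1 : 1 < r ^ 5 := one_lt_pow₀ r1 (by norm_num)
  generalize r ^ 5 = x at h1
  have h2 : ‖x⁻¹‖ < 1 := by
    rw [Real.norm_of_nonneg (inv_nonneg.2 (by linarith))]
    exact inv_lt_one_of_one_lt₀ h1
  exact (summable_pow_mul_geometric_of_norm_lt_one (R := ℝ) 1 h2).mul_left _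

end S2x

theorem p_S2 (hCNT : S_CNT) :
    S_S2 := by
  obtain ⟨C, C1, hC⟩ := tau_le
  obtain ⟨r, r1, hr⟩ := S2x.root
  have r0 : 0 < r := by linarith
  obtain ⟨y, hy⟩ := S2x.tail (S2x.summ C r1)
  refine ⟨y, fun σ S h => ?_⟩
  rw [← sum_fiberwise_of_maps_to (t := S.image natDegree) (g := natDegree)
    fun P hP => mem_image_of_mem _ hP]
  refine le_trans (sum_le_sum fun d hd => ?_) (hy (S.image natDegree) fun d hd => ?_)
  · obtain ⟨P0, p1, e⟩ := mem_image.1 hd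
    obtain ⟨-, -, s1, s2, -⟩ := h P0 p1
    rw [e] at s1 s2
    have c := S2x.cnt hCNT r1.le hr (by linarith) hC s1 s2
      (S.filter fun P => P.natDegree = d) fun P hP => by
        obtain ⟨a, b⟩ := mem_filter.1 hP
        obtain ⟨a1, -, -, -, a2⟩ := h P a
        rw [b] at a2
        exact ⟨a1, a2⟩
    rw [sum_congr rfl (g := fun _ => 2 * (tau d : ℝ) * (2 / 2 ^ d))
      fun P hP => by rw [(mem_filter.1 hP).2], sum_const, nsmul_eq_mul]
    exact S2x.fin r0 hr (by linarith) (Nat.cast_nonneg _) c (by exact_mod_cast tau_le_self d)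
  · obtain ⟨P, p1, rfl⟩ := mem_image.1 hd
    exact (h P p1).2.1

end Pool.Agent.P.MP_42fc1a_nt.TU
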