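import Pool.Agent.P.MP_42fc1a_nt.TU.IfL

/-! Step S3. -/

set_option autoImplicit false
set_option linter.unusedSectionVars false

namespace Pool.Agent.P.MP_42fc1a_nt.TU

open Polynomial Finset
open Pool.Agent.P.MP_8be758_nt.L2 (IsPr Pd mem_Pd)
open scoped Classical

theorem p_S3 (hORD : S_ORD) (hCNT : S_CNT) :
    S_S3 := by
  intro c hc
  refine ⟨40 * c ^ 2 + 1, fun S hS => ?_⟩
  have hmap : ∀ P ∈ S, oo P c ∈ Ioo (40 * c ^ 2) (S.sup (fun P => oo P c) + 1) := fun P hP =>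
    mem_Ioo.2 ⟨(hS P hP).2.2, Nat.lt_succ_of_le (le_sup (f := fun P => oo P c) hP)⟩
  rw [← sum_fiberwise_of_maps_to hmap]
  have hc0 : (0 : ℝ) < c := by exact_mod_cast hc
  have key : ∀ e ∈ Ioo (40 * c ^ 2) (S.sup (fun P => oo P c) + 1),
      ∑ P ∈ S with oo P c = e, 2 * (tau P.natDegree : ℝ) * (1 / (oo P c : ℝ) ^ 4) ≤
        2 * (c : ℝ) ^ 2 * ((e : ℝ) ^ 2)⁻¹ := by
    intro e he
    have he1 : 1 ≤ e := by
      have := (mem_Ioo.1 he).1
      omega
    have he0 : (0 : ℝ) < e := by exact_mod_cast he1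
    have hcard : (S.filter fun P => oo P c = e).card ≤ c * e := by
      refine hCNT _ _ (Nat.mul_pos hc he1) fun P hP => ?_
      obtain ⟨h1, h2⟩ := mem_filter.1 hP
      exact ⟨(hS P h1).1, ((hORD P c (hS P h1).1 (hS P h1).2.1).1 e).2 (h2 ▸ dvd_rfl)⟩
    refine (sum_le_card_nsmul _ _ (2 * ((c : ℝ) * e) * (1 / (e : ℝ) ^ 4)) fun P hP => ?_).trans ?_
    · obtain ⟨h1, h2⟩ := mem_filter.1 hP
      have h3 := (hORD P c (hS P h1).1 (hS P h1).2.1).2.2.2.1 hc
      rw [h2] at h3 ⊢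
      have h4 : tau P.natDegree ≤ c * e := (Nat.card_divisors_le_self _).trans h3
      have h5 : (tau P.natDegree : ℝ) ≤ c * e := by exact_mod_cast h4
      gcongr
    · rw [nsmul_eq_mul]
      have h5 : ((S.filter fun P => oo P c = e).card : ℝ) ≤ c * e := by exact_mod_cast hcard
      refine (mul_le_mul_of_nonneg_right h5 (by positivity)).trans (le_of_eq ?_)
      field_simp
  refine (sum_le_sum key).trans ?_
  rw [← mul_sum]
  refine (mul_le_mul_of_nonneg_left (sum_Ioo_inv_sq_le _ _) (by positivity)).trans ?_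
  push_cast
  rw [← mul_div_assoc, div_le_div_iff₀ (by positivity) (by norm_num)]
  linarith

end Pool.Agent.P.MP_42fc1a_nt.TU
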