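import Pool.Agent.P.MP_42fc1a_nt.TU.IfL

/-! Step S4. -/

set_option autoImplicit false
set_option linter.unusedSectionVars false

namespace Pool.Agent.P.MP_42fc1a_nt.TU

open Polynomial Finset
open Pool.Agent.P.MP_8be758_nt.L2 (IsPr Pd mem_Pd)
open scoped Classical

theorem s4_tail (r ε : ℝ) (h0 : 0 ≤ r) (h1 : r < 1) (hε : 0 < ε) :
    ∃ K : ℕ, ∀ T : Finset ℕ, (∀ k ∈ T, K ≤ k) → ∑ k ∈ T, r ^ k ≤ ε := by
  obtain ⟨s, hs⟩ := summable_iff_vanishing_norm.1 (summable_geometric_of_lt_one h0 h1) ε hε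
  refine ⟨s.sup id + 1, fun T hT => (le_abs_self _).trans (hs T ?_).le⟩
  refine disjoint_left.2 fun k hk hk' => ?_
  have h2 : k ≤ s.sup id := le_sup (f := id) hk'
  have := hT k hk
  omega

theorem s4_term (C c e Q t d : ℝ) (hC : 0 ≤ C) (hc : 1 ≤ c) (he : 1 ≤ e) (hQ : 0 < Q)
    (hd0 : 0 ≤ d) (hd : d ≤ c * e) (ht : t ≤ C * d ^ (1 / 20 : ℝ)) :
    2 * t * (4 / (Q * e ^ (21 / 20 : ℝ))) ≤ 8 * C * c / (Q * e) := by
  have e0 : 0 < e := by linarith
  have h1 : d ^ (1 / 20 : ℝ) ≤ c * e ^ (1 / 20 : ℝ) := by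
    refine (Real.rpow_le_rpow hd0 hd (by norm_num)).trans ?_
    rw [Real.mul_rpow (by linarith) e0.le]
    refine mul_le_mul_of_nonneg_right ?_ (by positivity)
    exact Real.rpow_le_self_of_one_le hc (by norm_num)
  have h2 : e ^ (21 / 20 : ℝ) = e * e ^ (1 / 20 : ℝ) := by
    rw [show (21 / 20 : ℝ) = 1 + 1 / 20 by norm_num, Real.rpow_add e0, Real.rpow_one]
  have h3 : 0 < e ^ (1 / 20 : ℝ) := by positivity
  calc _ ≤ 2 * (C * (c * e ^ (1 / 20 : ℝ))) * (4 / (Q * e ^ (21 / 20 : ℝ))) := by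
        gcongr
        exact ht.trans (mul_le_mul_of_nonneg_left h1 hC)
    _ = _ := by rw [h2]; field_simp; ring

theorem p_S4 (hORD : S_ORD) (hCNT : S_CNT) (hS4A : S_S4A) :
    S_S4 := by
  intro c hc
  obtain ⟨C1, hC1, H1⟩ := tau_le
  obtain ⟨C2, hC2, H2⟩ := hS4A
  have hc' : (1 : ℝ) ≤ c := by exact_mod_cast hc
  have hA : (0 : ℝ) < 8 * C1 * c * c * C2 := by positivity
  obtain ⟨K, hK⟩ := s4_tail ((2 : ℝ) ^ (-(47 / 300) : ℝ)) (1 / (10 * (8 * C1 * c * c * C2)))
    (by positivity) (Real.rpow_lt_one_of_one_lt_of_neg (by norm_num) (by norm_num))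
    (by positivity)
  refine ⟨4 ^ K, fun κ S hS => ?_⟩
  have ho : ∀ P ∈ S, 1 ≤ oo P c := fun P hP => (hORD P c (hS P hP).1 (hS P hP).2.1).2.2.1
  have hE : ∀ k ∈ S.image κ, _ := fun k hk => H2 k ((S.filter fun P => κ P = k).image fun P => oo P c)
    (by obtain ⟨P, hP, rfl⟩ := mem_image.1 hk; exact (hS P hP).2.2.2.1) (by
      intro e he
      obtain ⟨P, hP1, rfl⟩ := mem_image.1 he
      obtain ⟨hP, rfl⟩ := mem_filter.1 hP1
      exact ⟨ho P hP, (hS P hP).2.2.2.2⟩)
  have hk : ∀ k ∈ S.image κ, K ≤ k := by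
    intro k hk
    obtain ⟨P, hP, rfl⟩ := mem_image.1 hk
    have h1 := (hE _ hk).2 (oo P c) (mem_image_of_mem _ (mem_filter.2 ⟨hP, rfl⟩))
    exact (Nat.pow_le_pow_iff_right (by norm_num)).1 ((hS P hP).2.2.1.trans h1)
  rw [← sum_fiberwise_of_maps_to (g := κ) (t := S.image κ) fun P hP => mem_image_of_mem _ hP]
  calc _ ≤ ∑ k ∈ S.image κ, 8 * C1 * c * c * C2 * ((2 : ℝ) ^ (-(47 / 300) : ℝ)) ^ k := by
        refine sum_le_sum fun k hk' => ?_
        have hQ : (0 : ℝ) < 2 ^ k := by positivity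
        rw [← sum_fiberwise_of_maps_to (g := fun P => oo P c)
          (t := (S.filter fun P => κ P = k).image fun P => oo P c)
          fun P hP => mem_image_of_mem _ hP]
        calc _ ≤ ∑ _e ∈ (S.filter fun P => κ P = k).image fun P => oo P c,
              8 * C1 * c * c / ((2 : ℝ) ^ k) ^ (4 / 15 : ℝ) := by
              refine sum_le_sum fun e he => ?_
              have he1 : 1 ≤ e := by
                obtain ⟨P, hP, rfl⟩ := mem_image.1 he
                exact ho P (mem_filter.1 hP).1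
              have he' : (1 : ℝ) ≤ e := by exact_mod_cast he1
              have hn := hCNT ((S.filter fun P => κ P = k).filter fun P => oo P c = e) (c * e)
                (Nat.mul_pos hc he1) (by
                  intro P hP2
                  obtain ⟨hP1, rfl⟩ := mem_filter.1 hP2
                  have hP := (mem_filter.1 hP1).1
                  exact ⟨(hS P hP).1, ((hORD P c (hS P hP).1 (hS P hP).2.1).1 _).2 dvd_rfl⟩)
              calc _ ≤ ∑ _P ∈ (S.filter fun P => κ P = k).filter fun P => oo P c = e,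
                    8 * C1 * c / (((2 : ℝ) ^ k) ^ (4 / 15 : ℝ) * e) := by
                    refine sum_le_sum fun P hP2 => ?_
                    obtain ⟨hP1, rfl⟩ := mem_filter.1 hP2
                    obtain ⟨hP, rfl⟩ := mem_filter.1 hP1
                    refine s4_term C1 c _ _ _ P.natDegree (by linarith) hc' he' (by positivity)
                      (by positivity) ?_ (H1 _ (hS P hP).1.2.natDegree_pos.ne')
                    exact_mod_cast (hORD P c (hS P hP).1 (hS P hP).2.1).2.2.2.1 hc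
                _ ≤ (c * e : ℕ) * (8 * C1 * c / (((2 : ℝ) ^ k) ^ (4 / 15 : ℝ) * e)) := by
                    rw [sum_const, nsmul_eq_mul]
                    gcongr
                _ = _ := by push_cast; field_simp
          _ ≤ C2 * ((2 : ℝ) ^ k) ^ (11 / 100 : ℝ) *
              (8 * C1 * c * c / ((2 : ℝ) ^ k) ^ (4 / 15 : ℝ)) := by
              rw [sum_const, nsmul_eq_mul]
              exact mul_le_mul_of_nonneg_right (hE k hk').1 (by positivity)
          _ = _ := by
              have : ((2 : ℝ) ^ (-(47 / 300) : ℝ)) ^ k =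
                  ((2 : ℝ) ^ k) ^ (11 / 100 : ℝ) / ((2 : ℝ) ^ k) ^ (4 / 15 : ℝ) := by
                rw [← Real.rpow_sub hQ, ← Real.rpow_natCast, ← Real.rpow_natCast,
                  ← Real.rpow_mul (by norm_num), ← Real.rpow_mul (by norm_num)]
                congr 1
                ring
              rw [this]
              ring
    _ ≤ 8 * C1 * c * c * C2 * (1 / (10 * (8 * C1 * c * c * C2))) := by
        rw [← mul_sum]
        exact mul_le_mul_of_nonneg_left (hK _ hk) hA.le
    _ = _ := by field_simp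

end Pool.Agent.P.MP_42fc1a_nt.TU
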