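import Pool.Agent.P.MP_42fc1a_nt.TU.IfL

/-! Step S4A. -/

set_option autoImplicit false
set_option linter.unusedSectionVars false

namespace Pool.Agent.P.MP_42fc1a_nt.TU

open Polynomial Finset
open Pool.Agent.P.MP_8be758_nt.L2 (IsPr Pd mem_Pd)
open scoped Classical

theorem p_S4A :
    S_S4A := by
  obtain ⟨C, hC, H⟩ := tau_le
  refine ⟨C, hC, fun κ S hκ hS => ?_⟩
  have q2 : 2 ≤ 2 ^ κ := Nat.le_self_pow (by omega) 2
  have key : ∀ e ∈ S, ∃ g r, g ∣ 2 ^ κ - 1 ∧ 1 ≤ r ∧ r ^ 19 ≤ g ∧ g ≤ 2 ^ κ ∧ e = g * r := by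
    intro e he
    obtain ⟨h1, h2⟩ := hS e he
    obtain ⟨r, hr⟩ := Nat.gcd_dvd_left e (2 ^ κ - 1)
    have h3 := Nat.gcd_dvd_right e (2 ^ κ - 1)
    have h4 : 0 < Nat.gcd e (2 ^ κ - 1) := Nat.gcd_pos_of_pos_left _ h1
    generalize Nat.gcd e (2 ^ κ - 1) = g at *
    refine ⟨g, r, h3, Nat.pos_of_ne_zero fun h => by rw [h] at hr; omega, ?_,
      (Nat.le_of_dvd (by omega) h3).trans (Nat.sub_le _ _), hr⟩
    rw [hr, mul_pow, pow_succ g 19] at h2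
    exact Nat.le_of_mul_le_mul_left h2 (by positivity)
  refine ⟨?_, fun e he => ?_⟩
  · have Q1 : (1 : ℝ) ≤ (2 : ℝ) ^ κ := one_le_pow₀ (by norm_num)
    have h1 : S ⊆ ((2 ^ κ - 1).divisors ×ˢ Icc 1 ⌊((2 : ℝ) ^ κ) ^ (1 / 19 : ℝ)⌋₊).image
        fun p => p.1 * p.2 := fun e he => by
      obtain ⟨g, r, a1, a2, a3, a4, rfl⟩ := key e he
      refine mem_image.2 ⟨(g, r), mem_product.2 ⟨Nat.mem_divisors.2 ⟨a1, by omega⟩,
        mem_Icc.2 ⟨a2, Nat.le_floor ?_⟩⟩, rfl⟩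
      rw [one_div, Real.le_rpow_inv_iff_of_pos (by positivity) (by positivity) (by norm_num)]
      exact_mod_cast a3.trans a4
    have h2 := (card_le_card h1).trans card_image_le
    rw [card_product, Nat.card_Icc, Nat.add_sub_cancel] at h2
    have h3 := H (2 ^ κ - 1) (by omega)
    have h4 : (((2 ^ κ - 1 : ℕ) : ℝ)) ^ (1 / 20 : ℝ) ≤ ((2 : ℝ) ^ κ) ^ (1 / 20 : ℝ) :=
      Real.rpow_le_rpow (by positivity) (by exact_mod_cast Nat.sub_le _ _) (by norm_num)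
    calc (S.card : ℝ) ≤ (tau (2 ^ κ - 1) : ℝ) * (⌊((2 : ℝ) ^ κ) ^ (1 / 19 : ℝ)⌋₊ : ℝ) := by
          exact_mod_cast h2
      _ ≤ C * ((2 : ℝ) ^ κ) ^ (1 / 20 : ℝ) * ((2 : ℝ) ^ κ) ^ (1 / 19 : ℝ) :=
          mul_le_mul (h3.trans (by gcongr)) (Nat.floor_le (by positivity)) (by positivity)
            (by positivity)
      _ = C * ((2 : ℝ) ^ κ) ^ (1 / 20 + 1 / 19 : ℝ) := by
          rw [Real.rpow_add (by positivity), mul_assoc]
      _ ≤ _ := mul_le_mul_of_nonneg_left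
          (Real.rpow_le_rpow_of_exponent_le Q1 (by norm_num)) (by linarith)
  · obtain ⟨g, r, -, a2, a3, a4, rfl⟩ := key e he
    have : r ≤ 2 ^ κ := ((Nat.le_self_pow (by norm_num) r).trans a3).trans a4
    rw [show 4 ^ κ = 2 ^ κ * 2 ^ κ from mul_pow 2 2 κ]
    exact Nat.mul_le_mul a4 this

end Pool.Agent.P.MP_42fc1a_nt.TU
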