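import Pool.Agent.P.MP_42fc1a_nt.TU.IfL

/-! Step SHF. -/

set_option autoImplicit false
set_option linter.unusedSectionVars false

namespace Pool.Agent.P.MP_42fc1a_nt.TU

open Polynomial Finset
open Pool.Agent.P.MP_8be758_nt.L2 (IsPr Pd mem_Pd)
open scoped Classical

theorem p_SHF :
    S_SHF := by
  intro M _ ι _ c R b G w hG hw
  have hM : (0 : ℝ) < (M : ℝ) ^ Fintype.card ι := by
    have : (0 : ℝ) < M := by exact_mod_cast Nat.pos_of_ne_zero (NeZero.ne M)
    positivity
  have hcard : (Fintype.card (ι → ZMod M) : ℝ) = (M : ℝ) ^ Fintype.card ι := by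
    rw [Fintype.card_fun, ZMod.card]; push_cast; rfl
  have key : ∀ s : ι → ZMod M,
      ∑ t : ι → ZMod M, ind (G fun i => (b i + c * (t i).val) + c * R * (s i).val) =
        ∑ t : ι → ZMod M, ind (G fun i => b i + c * (t i).val) := by
    intro s
    rw [← Equiv.sum_comp (Equiv.addRight fun i => (R : ZMod M) * s i)
      fun t : ι → ZMod M => ind (G fun i => b i + c * (t i).val)]
    refine sum_congr rfl fun t _ => ?_
    congr 1
    refine propext (hG _ _ fun i => ?_)
    rw [← ZMod.natCast_eq_natCast_iff]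
    push_cast
    simp only [Equiv.coe_addRight, Pi.add_apply, ZMod.natCast_val, ZMod.cast_id', id_eq]
    ring
  have h1 : ∑ t : ι → ZMod M, ∑ s : ι → ZMod M,
      ind (G fun i => (b i + c * (t i).val) + c * R * (s i).val) ≤
      ∑ _t : ι → ZMod M, w * (M : ℝ) ^ Fintype.card ι := by
    refine sum_le_sum fun t _ => ?_
    have := hw fun i => b i + c * (t i).val
    unfold sh at this
    rwa [div_le_iff₀ hM] at this
  rw [sum_comm] at h1
  simp only [key, sum_const, card_univ, nsmul_eq_mul, hcard] at h1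
  unfold sh
  rw [div_le_iff₀ hM]
  exact le_of_mul_le_mul_left h1 hM

end Pool.Agent.P.MP_42fc1a_nt.TU
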