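import Pool.Agent.P.MP_42fc1a_nt.TU.IfL

/-! Step SM. -/

set_option autoImplicit false
set_option linter.unusedSectionVars false

namespace Pool.Agent.P.MP_42fc1a_nt.TU

open Polynomial Finset
open Pool.Agent.P.MP_8be758_nt.L2 (IsPr Pd mem_Pd)
open scoped Classical

namespace SMc

theorem deg_sum (S : Finset (ZMod 2)[X]) (h : ∀ P ∈ S, IsPr P ∧ P.natDegree ≠ 0) :
    ∑ P ∈ S, (2 : ℝ) / 2 ^ P.natDegree ≤ ∑ d ∈ S.image natDegree, 2 * fm d := by
  rw [← sum_fiberwise_of_maps_to (g := natDegree) (fun P hP => mem_image_of_mem _ hP)]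
  refine sum_le_sum fun d hd => ?_
  obtain ⟨Q, hQ, rfl⟩ := mem_image.1 hd
  have h0 : 1 ≤ Q.natDegree := Nat.one_le_iff_ne_zero.2 (h Q hQ).2
  have h1 := card_deg Q.natDegree h0 (S.filter fun P => P.natDegree = Q.natDegree)
    fun P hP => ⟨(h P (mem_filter.1 hP).1).1, (mem_filter.1 hP).2⟩
  rw [sum_congr rfl (g := fun _ => (2 : ℝ) / 2 ^ Q.natDegree)
    fun P hP => by rw [(mem_filter.1 hP).2], sum_const, nsmul_eq_mul, fm_apply]
  have h2 : (0 : ℝ) < Q.natDegree := by exact_mod_cast h0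
  have h3 : (1 : ℝ) ≤ (36 / 25) ^ ArithmeticFunction.cardFactors Q.natDegree :=
    one_le_pow₀ (by norm_num)
  have h4 : (0 : ℝ) < 2 ^ Q.natDegree := by positivity
  rw [← mul_div_assoc, ← mul_div_assoc, div_le_div_iff₀ h4 h2]
  nlinarith

end SMc

theorem p_SM :
    S_SM := by
  obtain ⟨C, hC, H⟩ := PiF_le
  refine ⟨⌈(18 * C) ^ 2⌉₊, fun l hl hp S hS => ?_⟩
  have h1 := SMc.deg_sum S fun P hP => ⟨(hS P hP).1, (hS P hP).2.2.1⟩
  have h2 := sum_fm_dvd (L := l + 1) (l := l) (S := S.image natDegree) fun d hd => by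
    obtain ⟨Q, hQ, rfl⟩ := mem_image.1 hd
    exact ⟨(hS Q hQ).2.2, (hS Q hQ).2.1⟩
  rw [← mul_sum] at h1
  have h3 := H l hp.pos
  have h4 : (1 : ℝ) ≤ l := by exact_mod_cast hp.pos
  have h5 : (l : ℝ) ^ (1 / 8 : ℝ) ≤ √l := by
    rw [Real.sqrt_eq_rpow]
    exact Real.rpow_le_rpow_of_exponent_le h4 (by norm_num)
  have h6 : 18 * C ≤ √l := Real.le_sqrt_of_sq_le (Nat.ceil_le.1 hl)
  have h7 : √l * √l = (l : ℝ) := Real.mul_self_sqrt (by linarith)
  have h8 : PiF (l + 1) ≤ l / 18 := by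
    have := mul_le_mul_of_nonneg_left h5 hC.le
    have := mul_le_mul_of_nonneg_right h6 (Real.sqrt_nonneg (l : ℝ))
    linarith
  have h9 : fm l * PiF (l + 1) ≤ 36 / 25 / l * (l / 18) := by
    rw [← fm_prime hp]
    exact mul_le_mul_of_nonneg_left h8 (fm_nonneg _)
  have h10 : (36 / 25 / l * (l / 18) : ℝ) = 2 / 25 := by
    field_simp
    norm_num
  linarith

end Pool.Agent.P.MP_42fc1a_nt.TU
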