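import Pool.Agent.P.MP_42fc1a_nt.TU.IfL

/-! Step SP0. -/

set_option autoImplicit false
set_option linter.unusedSectionVars false

namespace Pool.Agent.P.MP_42fc1a_nt.TU

open Polynomial Finset
open Pool.Agent.P.MP_8be758_nt.L2 (IsPr Pd mem_Pd)
open scoped Classical

theorem p_SP0 :
    S_SP0 := by
  intro F _ _ _ _ Γ _ _ φ ξ g0 h0
  have hG : (0 : ℝ) < Fintype.card Γ := by exact_mod_cast Fintype.card_pos
  have hsq : ∀ z : F, ch F z * ch F z = 1 := by
    intro z
    rw [← AddChar.map_add_eq_mul, CharTwo.add_self_eq_zero, AddChar.map_zero_eq_one]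
  have hneg : ch F (ξ * ((φ g0 : F) - 1)) = -1 := by
    rcases mul_self_eq_one_iff.1 (hsq (ξ * ((φ g0 : F) - 1))) with h | h
    · exact absurd h h0
    · exact h
  have h4 : 2 * ∑ g, ch F (ξ * (φ g : F)) =
      ∑ g, ch F (ξ * (φ g : F)) * (1 + ch F (ξ * ((φ g0 : F) - 1) * (φ g : F))) := by
    simp only [mul_add, sum_add_distrib, mul_one, two_mul]
    congr 1
    rw [← Equiv.sum_comp (Equiv.mulLeft g0)]
    refine sum_congr rfl fun g _ => ?_
    rw [← AddChar.map_add_eq_mul]
    congr 1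
    simp only [Equiv.coe_mulLeft, map_mul, Units.val_mul]
    ring
  have h5 : ‖2 * ∑ g, ch F (ξ * (φ g : F))‖ ≤
      ∑ g : Γ, (2 - 2 * (if φ g = 1 then (1 : ℝ) else 0)) := by
    rw [h4]
    refine (norm_sum_le _ _).trans (sum_le_sum fun g _ => ?_)
    rw [norm_mul, AddChar.norm_apply, one_mul]
    split_ifs with hg
    · rw [hg, Units.val_one, mul_one, hneg]; simp
    · refine (norm_add_le _ _).trans ?_
      rw [AddChar.norm_apply]; norm_num
  have hk : ∑ g : Γ, (if φ g = 1 then (1 : ℝ) else 0) = Nat.card φ.ker := by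
    rw [sum_boole, Nat.card_eq_fintype_card, Fintype.card_subtype]
    simp [MonoidHom.mem_ker]
  have hc : Nat.card φ.range * Nat.card φ.ker = Fintype.card Γ := by
    rw [← Nat.card_eq_fintype_card, ← Nat.card_congr (QuotientGroup.quotientKerEquivRange φ).toEquiv,
      ← Subgroup.card_eq_card_quotient_mul_card_subgroup]
  have hr : (0 : ℝ) < Nat.card φ.range := by exact_mod_cast Nat.card_pos
  have hc' : (Nat.card φ.range : ℝ) * Nat.card φ.ker = Fintype.card Γ := by exact_mod_cast hc
  rw [norm_mul, Complex.norm_ofNat, sum_sub_distrib, ← mul_sum, hk, sum_const, card_univ,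
    nsmul_eq_mul] at h5
  rw [ft_mu, norm_div, Complex.norm_natCast, div_le_iff₀ hG]
  have : (1 - 1 / (Nat.card φ.range : ℝ)) * Fintype.card Γ = Fintype.card Γ - Nat.card φ.ker := by
    rw [← hc']; field_simp
  rw [this]; linarith

end Pool.Agent.P.MP_42fc1a_nt.TU
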