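import Pool.Agent.P.MP_42fc1a_nt.TU.IfL

/-! Step SPAN. -/

set_option autoImplicit false
set_option linter.unusedSectionVars false

namespace Pool.Agent.P.MP_42fc1a_nt.TU

open Polynomial Finset
open Pool.Agent.P.MP_8be758_nt.L2 (IsPr Pd mem_Pd)
open scoped Classical

theorem span_ch_sum {F : Type} [Field F] [Fintype F] {ι : Type} (s : Finset ι) (a : ι → F)
    (h : ∀ j ∈ s, ch F (a j) = 1) : ch F (∑ j ∈ s, a j) = 1 := by
  induction s using Finset.induction_on with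
  | empty => simp
  | insert b s hb ih =>
    rw [sum_insert hb, AddChar.map_add_eq_mul, h b (mem_insert_self _ _),
      ih fun j hj => h j (mem_insert_of_mem hj), mul_one]

theorem span_exists {F : Type} [Field F] [Fintype F] (x : Fˣ) (d : ℕ) (hx : Sp x d) (η : F)
    (hη : η ≠ 0) : ∃ j, j < d ∧ ch F (η * (x : F) ^ (j + 1)) ≠ 1 := by
  by_contra hc
  push Not at hc
  apply ch_prim F hη
  ext w
  obtain ⟨s, hs, rfl⟩ := hx w
  rw [AddChar.mulShift_apply, mul_sum, AddChar.one_apply]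
  exact span_ch_sum s _ fun j hj => hc j (mem_range.1 (hs hj))

theorem p_SPAN (hSP0 : S_SP0) :
    S_SPAN := by
  intro F _ _ _ _ Γ _ _ φ x d N D E u r hx hdD h1 hE hu
  have hN : (0 : ℝ) < Fintype.card F := by exact_mod_cast Fintype.card_pos
  have h1' : (1 : ℝ) < Nat.card φ.range := by exact_mod_cast h1
  have hE' : (Nat.card φ.range : ℝ) ≤ E := by exact_mod_cast hE
  have hE1 : (1 : ℝ) ≤ E := by linarith
  have hb0 : (0 : ℝ) ≤ 1 - 1 / (E : ℝ) := by
    have : 1 / (E : ℝ) ≤ 1 := by rw [div_le_one (by linarith)]; exact hE1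
    linarith
  have hb : (0 : ℝ) ≤ (1 - 1 / (E : ℝ)) ^ N := pow_nonneg hb0 N
  obtain ⟨g0, hg0⟩ : ∃ g0, φ g0 ≠ 1 := by
    by_contra hc
    push Not at hc
    have : φ.range = ⊥ := by
      rw [eq_bot_iff]
      rintro _ ⟨g, rfl⟩
      exact hc g
    rw [this] at h1
    simp at h1
  have hg1 : (φ g0 : F) - 1 ≠ 0 := by
    rw [sub_ne_zero]
    exact fun h => hg0 (Units.ext h)
  have key : ∀ ξ : F, ξ ≠ 0 → ∏ i, ‖ft (mu φ) (u i * ξ)‖ ≤ (1 - 1 / (E : ℝ)) ^ N := by
    intro ξ hξ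
    obtain ⟨j, hj, hch⟩ := span_exists x d hx (ξ * ((φ g0 : F) - 1)) (mul_ne_zero hξ hg1)
    have hjD : j < D := lt_of_lt_of_le hj hdD
    have hm : ∀ m : Fin N, ‖ft (mu φ) (u (.inr (m, ⟨j, hjD⟩)) * ξ)‖ ≤ 1 - 1 / (E : ℝ) := by
      intro m
      obtain ⟨g, hg⟩ := hu (.inr (m, ⟨j, hjD⟩))
      have e : ((u (.inr (m, ⟨j, hjD⟩)) : Fˣ) : F) * ξ = (φ g : F) * ((x : F) ^ (j + 1) * ξ) := by
        rw [hg]
        simp only [alf, Units.val_mul, Units.val_pow_eq_pow_val]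
        ring
      rw [e, ft_inv (φ g) (mu_inv φ g)]
      refine (hSP0 F Γ φ _ g0 ?_).trans ?_
      · rwa [show (x : F) ^ (j + 1) * ξ * ((φ g0 : F) - 1) =
          ξ * ((φ g0 : F) - 1) * (x : F) ^ (j + 1) by ring]
      · have : 1 / (E : ℝ) ≤ 1 / (Nat.card φ.range : ℝ) :=
          one_div_le_one_div_of_le (by linarith) hE'
        linarith
    rw [Fintype.prod_sum_type, Fintype.prod_prod_type (α₁ := Fin N)]
    have a1 : ∏ p : Fin 12 × Fin 2, ‖ft (mu φ) (u (.inl p) * ξ)‖ ≤ 1 :=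
      prod_le_one (fun _ _ => norm_nonneg _) fun _ _ => norm_ft_mu_le φ _
    have a2 : ∏ m : Fin N, ∏ j' : Fin D, ‖ft (mu φ) (u (.inr (m, j')) * ξ)‖ ≤
        (1 - 1 / (E : ℝ)) ^ N := by
      calc _ ≤ ∏ _m : Fin N, (1 - 1 / (E : ℝ)) := by
            refine prod_le_prod (fun _ _ => prod_nonneg fun _ _ => norm_nonneg _) fun m _ => ?_
            rw [← mul_prod_erase univ _ (mem_univ (⟨j, hjD⟩ : Fin D))]
            calc _ ≤ (1 - 1 / (E : ℝ)) * 1 :=
                  mul_le_mul (hm m)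
                    (prod_le_one (fun _ _ => norm_nonneg _) fun _ _ => norm_ft_mu_le φ _)
                    (prod_nonneg fun _ _ => norm_nonneg _) hb0
              _ = _ := mul_one _
        _ = _ := by simp
    calc _ ≤ 1 * (1 - 1 / (E : ℝ)) ^ N :=
          mul_le_mul a1 a2 (prod_nonneg fun _ _ => prod_nonneg fun _ _ => norm_nonneg _)
            zero_le_one
      _ = _ := one_mul _
  refine (pr_le φ u r).trans ?_
  rw [div_le_iff₀ hN]
  calc _ ≤ ∑ ξ : F, ((if ξ = 0 then (1 : ℝ) else 0) + (1 - 1 / (E : ℝ)) ^ N) := by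
        refine sum_le_sum fun ξ _ => ?_
        split_ifs with h0
        · have : ∏ i, ‖ft (mu φ) (u i * ξ)‖ ≤ 1 :=
            prod_le_one (fun _ _ => norm_nonneg _) fun _ _ => norm_ft_mu_le φ _
          linarith
        · simpa using key ξ h0
    _ = _ := by
      rw [sum_add_distrib]
      simp
      field_simp

end Pool.Agent.P.MP_42fc1a_nt.TU
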