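import Pool.Agent.P.MP_42fc1a_nt.TU.IfL

/-! Step SUB. -/

set_option autoImplicit false
set_option linter.unusedSectionVars false

namespace Pool.Agent.P.MP_42fc1a_nt.TU

open Polynomial Finset
open Pool.Agent.P.MP_8be758_nt.L2 (IsPr Pd mem_Pd)
open scoped Classical

theorem sub_mult (R h : ℕ) (hR : 0 < R) : ((range (R * h)).filter fun t => R ∣ t).card = h := by
  have e : (range (R * h)).filter (fun t => R ∣ t) = (range h).image fun k => R * k := by
    ext t
    simp only [mem_filter, mem_range, mem_image]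
    constructor
    · rintro ⟨h1, k, rfl⟩
      exact ⟨k, Nat.lt_of_mul_lt_mul_left h1, rfl⟩
    · rintro ⟨k, hk, rfl⟩
      exact ⟨Nat.mul_lt_mul_of_pos_left hk hR, k, rfl⟩
  rw [e, card_image_of_injective _ fun a b hab => Nat.eq_of_mul_eq_mul_left hR hab, card_range]

theorem sub_pow {F : Type} [Field F] [Fintype F] (K : Subring F) (u : Fˣ) (hu : (u : F) ∈ K) :
    orderOf u ∣ Nat.card K - 1 := by
  have h1 : (⟨(u : F), hu⟩ : K) ^ (Nat.card K - 1) = 1 := by
    let _ := (Finite.isField_of_domain K).toField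
    let _ := Fintype.ofFinite K
    rw [Nat.card_eq_fintype_card]
    exact FiniteField.pow_card_sub_one_eq_one _ fun h => u.ne_zero (congrArg Subtype.val h)
  refine orderOf_dvd_of_pow_eq_one (Units.ext ?_)
  simpa using congrArg Subtype.val h1

theorem sub_card {F : Type} [Field F] [Fintype F] [CharP F 2] (K : Subring F) :
    ∃ κ, 1 ≤ κ ∧ Nat.card K = 2 ^ κ := by
  obtain ⟨n, -, hn⟩ := FiniteField.card F 2
  have h1 : Nat.card K ∣ 2 ^ (n : ℕ) := by
    rw [← hn, ← Nat.card_eq_fintype_card]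
    exact AddSubgroup.card_addSubgroup_dvd_card K.toAddSubgroup
  obtain ⟨κ, -, hκ⟩ := (Nat.dvd_prime_pow Nat.prime_two).1 h1
  refine ⟨κ, Nat.pos_of_ne_zero fun h => ?_, hκ⟩
  have h2 : 1 < Nat.card K := Finite.one_lt_card
  rw [hκ, h, pow_zero] at h2
  exact lt_irrefl _ h2

theorem p_SUB :
    S_SUB := by
  intro F _ _ _ K z
  refine ⟨sub_card K, ?_⟩
  have ho : 0 < orderOf z := orderOf_pos z
  obtain ⟨o, ho'⟩ : ∃ o, orderOf z = o + 1 := ⟨_, (Nat.succ_pred_eq_of_pos ho).symm⟩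
  have hz : z ^ (o + 1) = 1 := by rw [← ho', pow_orderOf_eq_one]
  have hex : ∃ t, 0 < t ∧ ((z ^ t : Fˣ) : F) ∈ K :=
    ⟨o + 1, Nat.succ_pos _, by rw [hz, Units.val_one]; exact K.one_mem⟩
  obtain ⟨hR, hRK⟩ := Nat.find_spec hex
  have hmin := fun m => Nat.find_min hex (m := m)
  generalize Nat.find hex = R at hR hRK hmin
  have hmul : ∀ k, ((z ^ (R * k) : Fˣ) : F) ∈ K := fun k => by
    rw [pow_mul, Units.val_pow_eq_pow_val]
    exact K.pow_mem hRK k
  have hA : ∀ t, ((z ^ t : Fˣ) : F) ∈ K ↔ R ∣ t := by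
    refine fun t => ⟨fun ht => ?_, by rintro ⟨k, rfl⟩; exact hmul k⟩
    by_contra hd
    refine hmin (t % R) (Nat.mod_lt _ hR) ⟨Nat.pos_of_ne_zero fun h =>
      hd (Nat.dvd_of_mod_eq_zero h), ?_⟩
    have e : z ^ (t % R) = z ^ t * z ^ (R * (o * (t / R))) := by
      have e1 : t + R * (o * (t / R)) = t % R + (o + 1) * (R * (t / R)) := by
        conv_lhs => rw [← Nat.mod_add_div t R]
        rw [Nat.mod_add_div]
        have := Nat.mod_add_div t R
        nlinarith
      rw [← pow_add, e1, pow_add, pow_mul, hz, one_pow, mul_one]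
    rw [e, Units.val_mul]
    exact K.mul_mem ht (hmul _)
  have hRo : R ∣ orderOf z := (hA _).1 (by rw [pow_orderOf_eq_one, Units.val_one]; exact K.one_mem)
  obtain ⟨h, hh⟩ := hRo
  have hhk : hk z K = h := by
    unfold hk
    rw [hh, filter_congr fun t _ => hA t]
    exact sub_mult R h hR
  have hord : orderOf (z ^ R) = h := by
    rw [orderOf_pow_of_dvd hR.ne' ⟨h, hh⟩, hh, Nat.mul_div_cancel_left _ hR]
  refine ⟨R, hR, by rw [hhk, hh], hA, by rw [hhk, hord], ?_, fun a b hab => ?_⟩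
  · rw [hhk, ← hord]
    exact sub_pow K _ hRK
  · have e : z ^ a * (z ^ b)⁻¹ = z ^ (a + o * b) := by
      rw [mul_inv_eq_iff_eq_mul, ← pow_add, add_assoc, ← Nat.succ_mul, pow_add, pow_mul, hz,
        one_pow, mul_one]
    rw [e, hA] at hab
    have h2 : R ∣ b + o * b := by
      have : b + o * b = R * (h * b) := by rw [← mul_assoc, ← hh, ho']; ring
      exact ⟨_, this⟩
    exact Nat.ModEq.add_right_cancel' (o * b)
      ((Nat.modEq_zero_iff_dvd.2 hab).trans (Nat.modEq_zero_iff_dvd.2 h2).symm)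

end Pool.Agent.P.MP_42fc1a_nt.TU
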