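import Pool.Agent.P.MP_42fc1a_nt.TU.TFLD
import Pool.Agent.P.MP_42fc1a_nt.TU.TORD
import Pool.Agent.P.MP_42fc1a_nt.TU.TBR
import Pool.Agent.P.MP_42fc1a_nt.TU.TGS
import Pool.Agent.P.MP_42fc1a_nt.TU.TONE
import Pool.Agent.P.MP_42fc1a_nt.TU.TSP0
import Pool.Agent.P.MP_42fc1a_nt.TU.TSPAN
import Pool.Agent.P.MP_42fc1a_nt.TU.TSUB
import Pool.Agent.P.MP_42fc1a_nt.TU.THB1
import Pool.Agent.P.MP_42fc1a_nt.TU.TPERP
import Pool.Agent.P.MP_42fc1a_nt.TU.TTWO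
import Pool.Agent.P.MP_42fc1a_nt.TU.TSHF
import Pool.Agent.P.MP_42fc1a_nt.TU.THB2
import Pool.Agent.P.MP_42fc1a_nt.TU.TNUM
import Pool.Agent.P.MP_42fc1a_nt.TU.THB
import Pool.Agent.P.MP_42fc1a_nt.TU.TPP
import Pool.Agent.P.MP_42fc1a_nt.TU.TPER
import Pool.Agent.P.MP_42fc1a_nt.TU.TDEG
import Pool.Agent.P.MP_42fc1a_nt.TU.TDEG2
import Pool.Agent.P.MP_42fc1a_nt.TU.TALS
import Pool.Agent.P.MP_42fc1a_nt.TU.TIND
import Pool.Agent.P.MP_42fc1a_nt.TU.TDIST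
import Pool.Agent.P.MP_42fc1a_nt.TU.TSM
import Pool.Agent.P.MP_42fc1a_nt.TU.TS0
import Pool.Agent.P.MP_42fc1a_nt.TU.TS1
import Pool.Agent.P.MP_42fc1a_nt.TU.TCNT
import Pool.Agent.P.MP_42fc1a_nt.TU.TS2
import Pool.Agent.P.MP_42fc1a_nt.TU.TS3
import Pool.Agent.P.MP_42fc1a_nt.TU.TS4A
import Pool.Agent.P.MP_42fc1a_nt.TU.TS4
import Pool.Agent.P.MP_42fc1a_nt.TU.TEX2
import Pool.Agent.P.MP_42fc1a_nt.TU.TAV
import Pool.Agent.P.MP_42fc1a_nt.TU.TLOC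

/-! All steps put together. -/

namespace Pool.Agent.P.MP_42fc1a_nt.TU

theorem a_FLD : S_FLD := p_FLD

theorem a_ORD : S_ORD := p_ORD a_FLD

theorem a_BR : S_BR := p_BR

theorem a_GS : S_GS := p_GS

theorem a_ONE : S_ONE := p_ONE a_GS

theorem a_SP0 : S_SP0 := p_SP0

theorem a_SPAN : S_SPAN := p_SPAN a_SP0

theorem a_SUB : S_SUB := p_SUB

theorem a_HB1 : S_HB1 := p_HB1 a_BR a_SUB

theorem a_PERP : S_PERP := p_PERP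

theorem a_TWO : S_TWO := p_TWO a_GS a_PERP

theorem a_SHF : S_SHF := p_SHF

theorem a_HB2 : S_HB2 := p_HB2 a_BR a_TWO a_SHF

theorem a_NUM : S_NUM := p_NUM

theorem a_HB : S_HB := p_HB a_BR a_ONE a_SUB a_HB1 a_HB2 a_NUM

theorem a_PP : S_PP := p_PP a_FLD a_BR a_ONE a_SPAN a_HB

theorem a_PER : S_PER := p_PER a_ORD

theorem a_DEG : S_DEG := p_DEG

theorem a_DEG2 : S_DEG2 := p_DEG2

theorem a_ALS : S_ALS := p_ALS

theorem a_IND : S_IND := p_IND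

theorem a_DIST : S_DIST := p_DIST

theorem a_SM : S_SM := p_SM

theorem a_S0 : S_S0 := p_S0

theorem a_S1 : S_S1 := p_S1

theorem a_CNT : S_CNT := p_CNT

theorem a_S2 : S_S2 := p_S2 a_CNT

theorem a_S3 : S_S3 := p_S3 a_ORD a_CNT

theorem a_S4A : S_S4A := p_S4A

theorem a_S4 : S_S4 := p_S4 a_ORD a_CNT a_S4A

theorem a_EX2 : S_EX2 := p_EX2 a_ORD

theorem a_AV : S_AV := p_AV a_ORD a_PP a_PER a_DEG a_DEG2 a_ALS a_IND a_DIST a_SM a_S0 a_S1 a_S2 a_S3 a_S4 a_EX2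

theorem a_LOC : S_LOC := p_LOC a_AV

end Pool.Agent.P.MP_42fc1a_nt.TU
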