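import Mathlib

/-! The local statement and the final statement. -/

namespace Pool.Agent.P.MP_42fc1a_nt.TU

open Polynomial

-- deps: AV
def S_LOC : Prop :=
  ∃ k0 : ℕ, ∀ f W : (ZMod 2)[X], W ≠ 0 → ∃ s : Multiset ℕ, s.card ≤ k0 ∧
    IsCoprime (f + (s.map fun a => X ^ a).sum) W

-- deps: LOC
def S_FINAL : Prop :=
  ∃ k : ℕ, ∀ ε : ℝ, 0 < ε → ∃ n0 : ℕ, ∀ n, n0 ≤ n →
    ({f : (ZMod 2)[X] | f.Monic ∧ f.natDegree = n ∧ ¬ ∃ (P : (ZMod 2)[X]) (s : Multiset ℕ),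
      Irreducible P ∧ s.card ≤ k ∧ (∀ a ∈ s, a < n) ∧
        f = P + (s.map fun a => X ^ a).sum}.ncard : ℝ) ≤ ε * 2 ^ n

end Pool.Agent.P.MP_42fc1a_nt.TU
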