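import Pool.Agent.P.MP_42fc1a_nt.TU.FlatF
import Pool.Agent.P.MP_42fc1a_nt.TU.If0
import Pool.Agent.P.MP_7aad9f_nt.ExcDiv
import Pool.Agent.P.MP_8be758_nt.L2.TGAUSS

/-! Definitions for the local statement. -/

set_option autoImplicit false
set_option linter.unusedSectionVars false

namespace Pool.Agent.P.MP_42fc1a_nt.TU

open Polynomial Finset
open Pool.Agent.P.MP_8be758_nt.L2 (IsPr Pd mem_Pd)
open scoped Classical

/-- the index set of the exponents -/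
abbrev IX (N D : ℕ) : Type := (Fin 12 × Fin 2) ⊕ (Fin N × Fin D)

/-- the base exponents -/
def alf {N D : ℕ} : IX N D → ℕ
  | .inl p => p.2.val + 1
  | .inr p => p.2.val + 1

/-- at least three of the twelve pairs agree modulo `R` -/
def Dg {N D : ℕ} (R : ℕ) (a : IX N D → ℕ) : Prop :=
  3 ≤ (univ.filter fun m : Fin 12 => a (.inl (m, 0)) ≡ a (.inl (m, 1)) [MOD R]).card

/-- the share of the `t` with `G (b + c t)` -/
noncomputable def sh (M : ℕ) [NeZero M] {ι : Type} [Fintype ι] (c : ℕ) (b : ι → ℕ)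
    (G : (ι → ℕ) → Prop) : ℝ :=
  (∑ t : ι → ZMod M, ind (G fun i => b i + c * (t i).val)) / (M : ℝ) ^ Fintype.card ι

/-- the order of `X ^ c` modulo `P` -/
noncomputable def oo (P : (ZMod 2)[X]) (c : ℕ) : ℕ := orderOf (AdjoinRoot.root P ^ c)

/-- `P` divides the shifted polynomial -/
def Bad (P f : (ZMod 2)[X]) {ι : Type} [Fintype ι] (a : ι → ℕ) : Prop := P ∣ f + ∑ i, X ^ a i

/-- the same, and no degeneracy -/
def Cad (P f : (ZMod 2)[X]) {N D : ℕ} (a : IX N D → ℕ) : Prop :=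
  Bad P f a ∧ ∀ R, 1 < R → R ∣ oo P 1 → ¬ Dg R a

/-- `G` only depends on the exponents modulo `R` -/
def Per {ι : Type} (R : ℕ) (G : (ι → ℕ) → Prop) : Prop :=
  ∀ a a' : ι → ℕ, (∀ i, a i ≡ a' i [MOD R]) → (G a ↔ G a')

/-- the multipliers of the coordinates -/
def cj (y L0 L j : ℕ) : ℕ :=
  if j = 0 then 2 ^ L0 - 1
  else if j.Prime ∧ y < j ∧ j ∣ L then 2 ^ (L / j ^ L.factorization j) - 1 else 0

/-- the exponents attached to a point -/
def ex {N D M : ℕ} (y L0 L : ℕ) (ω : Fin (L + 1) → IX N D → ZMod M) (i : IX N D) : ℕ :=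
  alf i + ∑ j : Fin (L + 1), cj y L0 L j.val * (ω j i).val

/-- the coordinates that matter in degree `d` -/
def JD (y L d : ℕ) : Finset (Fin (L + 1)) :=
  univ.filter fun j => j.val = 0 ∨ (j.val.Prime ∧ y < j.val ∧ j.val ∣ d)

/-- the number of powers of `z` in `K` -/
noncomputable def hk {F : Type} [Field F] (z : Fˣ) (K : Subring F) : ℕ :=
  ((range (orderOf z)).filter fun t => ((z ^ t : Fˣ) : F) ∈ K).card

/-- the powers `x, ..., x ^ d` span -/
def Sp {F : Type} [Field F] (x : Fˣ) (d : ℕ) : Prop :=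
  ∀ v : F, ∃ s ⊆ range d, v = ∑ j ∈ s, (x : F) ^ (j + 1)

/-- the number of divisors -/
def tau (d : ℕ) : ℕ := d.divisors.card

theorem sh_nonneg (M : ℕ) [NeZero M] {ι : Type} [Fintype ι] (c : ℕ) (b : ι → ℕ)
    (G : (ι → ℕ) → Prop) : 0 ≤ sh M c b G :=
  div_nonneg (sum_nonneg fun _ _ => ind_nonneg _) (by positivity)

theorem sh_mono (M : ℕ) [NeZero M] {ι : Type} [Fintype ι] (c : ℕ) (b : ι → ℕ)
    {G G' : (ι → ℕ) → Prop} (h : ∀ a, G a → G' a) : sh M c b G ≤ sh M c b G' := by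
  unfold sh
  gcongr with t
  by_cases g : G fun i => b i + c * (t i).val
  · rw [ind_pos g, ind_pos (h _ g)]
  · rw [ind_neg g]; exact ind_nonneg _

theorem tau_le : ∃ C : ℝ, 1 ≤ C ∧ ∀ m : ℕ, m ≠ 0 → (tau m : ℝ) ≤ C * (m : ℝ) ^ (1 / 20 : ℝ) := by
  obtain ⟨C, hC, H⟩ := Pool.Agent.P.MP_7aad9f_nt.Exc.card_divisors_le (1 / 20) (by norm_num)
  exact ⟨C + 1, by linarith, fun m hm => (H m hm).trans (by gcongr; linarith)⟩

theorem tau_le_self (d : ℕ) : tau d ≤ d := Nat.card_divisors_le_self d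

theorem card_deg (d : ℕ) (hd : 1 ≤ d) (S : Finset (ZMod 2)[X])
    (h : ∀ P ∈ S, IsPr P ∧ P.natDegree = d) : (d : ℝ) * S.card ≤ 2 ^ d := by
  have h1 := (Pool.Agent.P.MP_8be758_nt.L2.p_GAUSS (ZMod 2) d hd).1
  rw [Pool.Agent.P.MP_8be758_nt.L2.qq, Nat.card_zmod] at h1
  refine le_trans ?_ (h1.trans_eq (by norm_num))
  gcongr
  exact fun P hP => mem_Pd.2 (h P hP)

end Pool.Agent.P.MP_42fc1a_nt.TU
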