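import Pool.Agent.P.MP_42fc1a_nt.Main

/-! Fourier analysis on a finite field. -/

set_option autoImplicit false
set_option linter.unusedSectionVars false

namespace Pool.Agent.P.MP_42fc1a_nt.TU

open Finset

variable {F : Type} [Field F] [Fintype F] [DecidableEq F] {Γ : Type} [Group Γ] [Fintype Γ]

/-- a nontrivial additive character -/
noncomputable def ch (F : Type) [Field F] [Fintype F] : AddChar F ℂ :=
  (AddChar.exists_apply_ne_zero.2 (one_ne_zero : (1 : F) ≠ 0)).choose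

theorem ch_prim (F : Type) [Field F] [Fintype F] : (ch F).IsPrimitive :=
  AddChar.IsPrimitive.of_ne_one (AddChar.ne_one_iff.2
    ⟨1, (AddChar.exists_apply_ne_zero.2 (one_ne_zero : (1 : F) ≠ 0)).choose_spec⟩)

/-- the Fourier transform -/
noncomputable def ft (f : F → ℝ) (ξ : F) : ℂ :=
  ∑ x, (f x : ℂ) * ch F (ξ * x)

/-- correlation -/
noncomputable def cv (f g : F → ℝ) (x : F) : ℝ := ∑ y, f y * g (y - x)

/-- the push-forward of the uniform measure -/
noncomputable def mu (φ : Γ →* Fˣ) (x : F) : ℝ :=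
  (∑ g, if (φ g : F) = x then 1 else 0) / Fintype.card Γ

/-- probability that a twisted sum takes a given value -/
noncomputable def pr (φ : Γ →* Fˣ) {ι : Type} [Fintype ι] [DecidableEq ι] (u : ι → Fˣ) (n : F) :
    ℝ :=
  (∑ y : ι → Γ, if ∑ i, (u i : F) * φ (y i) = n then 1 else 0) / Fintype.card Γ ^ Fintype.card ι

/-- moments of the Fourier transform -/
noncomputable def Fk (φ : Γ →* Fˣ) (k : ℕ) : ℝ := (∑ ξ, ‖ft (mu φ) ξ‖ ^ k) / Fintype.card F

theorem orth (z : F) :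
    ∑ ξ : F, ch F (ξ * z) = if z = 0 then (Fintype.card F : ℂ) else 0 := by
  rw [AddChar.sum_mulShift z (ch_prim F)]
  split_ifs <;> simp

theorem sum_ft (f : F → ℝ) : ∑ ξ, ft f ξ = Fintype.card F * f 0 := by
  unfold ft
  rw [sum_comm]
  simp only [← mul_sum, orth]
  simp [mul_comm]

theorem ft_cv (f : F → ℝ) (ξ : F) : ft (cv f f) ξ = ((‖ft f ξ‖ ^ 2 : ℝ) : ℂ) := by
  push_cast
  rw [← Complex.mul_conj']
  unfold ft cv
  push_cast
  rw [map_sum, sum_mul_sum]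
  simp only [sum_mul]
  rw [sum_comm]
  refine sum_congr rfl fun y _ => ?_
  rw [← Equiv.sum_comp (Equiv.subLeft y)]
  refine sum_congr rfl fun z _ => ?_
  simp only [Equiv.subLeft_apply, sub_sub_cancel, map_mul, Complex.conj_ofReal]
  rw [← AddChar.map_neg_eq_conj, mul_sub, sub_eq_add_neg, AddChar.map_add_eq_mul]
  ring

theorem parseval (f : F → ℝ) : ∑ ξ, ‖ft f ξ‖ ^ 2 = Fintype.card F * ∑ x, f x ^ 2 := by
  have h := sum_ft (cv f f)
  simp only [ft_cv] at h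
  have h2 : cv f f 0 = ∑ x, f x ^ 2 := by simp [cv, sq]
  rw [h2] at h
  exact_mod_cast h

theorem sum_mu {R : Type*} [RCLike R] (φ : Γ →* Fˣ) (G : F → R) :
    ∑ x, (mu φ x : R) * G x = (∑ g, G (φ g)) / Fintype.card Γ := by
  unfold mu
  push_cast
  simp only [div_mul_eq_mul_div, ← sum_div, sum_mul]
  rw [sum_comm]
  congr 1
  refine sum_congr rfl fun g _ => ?_
  rw [sum_eq_single (φ g : F)]
  · simp
  · intro b _ hb
    simp [hb.symm]
  · simp

theorem ft_mu (φ : Γ →* Fˣ) (ξ : F) :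
    ft (mu φ) ξ = (∑ g, ch F (ξ * (φ g : F))) / Fintype.card Γ :=
  sum_mu (R := ℂ) φ fun x => ch F (ξ * x)

theorem sum_mu' (φ : Γ →* Fˣ) (G : F → ℝ) :
    ∑ x, mu φ x * G x = (∑ g, G (φ g)) / Fintype.card Γ :=
  sum_mu (R := ℝ) φ G

theorem mu_nonneg (φ : Γ →* Fˣ) (x : F) : 0 ≤ mu φ x := by
  unfold mu
  refine div_nonneg (sum_nonneg fun g _ => ?_) (Nat.cast_nonneg _)
  split_ifs <;> norm_num

theorem mu_sum (φ : Γ →* Fˣ) : ∑ x, mu φ x = 1 := by
  have := sum_mu' φ fun _ => 1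
  have hG : (Fintype.card Γ : ℝ) ≠ 0 := by exact_mod_cast Fintype.card_ne_zero
  simpa [hG] using this

theorem mu_inv (φ : Γ →* Fˣ) (g : Γ) (x : F) : mu φ (φ g * x) = mu φ x := by
  unfold mu
  congr 1
  rw [← Equiv.sum_comp (Equiv.mulLeft g)]
  refine sum_congr rfl fun g' _ => ?_
  simp

theorem norm_ft_le {f : F → ℝ} (h0 : ∀ x, 0 ≤ f x) (h1 : ∑ x, f x = 1) (ξ : F) :
    ‖ft f ξ‖ ≤ 1 := by
  rw [← h1]
  refine (norm_sum_le _ _).trans (sum_le_sum fun x _ => ?_)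
  simp [abs_of_nonneg (h0 x)]

theorem ft_zero {f : F → ℝ} (h1 : ∑ x, f x = 1) : ft f 0 = 1 := by
  unfold ft
  simp only [zero_mul, AddChar.map_zero_eq_one, mul_one]
  exact_mod_cast h1

theorem ft_inv {f : F → ℝ} (u : Fˣ) (h : ∀ x, f (u * x) = f x) (ξ : F) :
    ft f (u * ξ) = ft f ξ := by
  unfold ft
  conv_rhs => rw [← Equiv.sum_comp (Units.mulLeft u)]
  refine sum_congr rfl fun x _ => ?_
  simp only [Units.mulLeft_apply, h]
  congr 2
  ring

theorem Fk_anti (φ : Γ →* Fˣ) {k l : ℕ} (h : k ≤ l) : Fk φ l ≤ Fk φ k := by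
  unfold Fk
  gcongr ?_ / _
  exact sum_le_sum fun ξ _ =>
    pow_le_pow_of_le_one (norm_nonneg _) (norm_ft_le (mu_nonneg φ) (mu_sum φ) ξ) h

theorem Fk_le (φ : Γ →* Fˣ) {k : ℕ} {b : ℝ} (hb : 0 ≤ b)
    (h : ∀ ξ, ξ ≠ 0 → ‖ft (mu φ) ξ‖ ^ k ≤ b) : Fk φ k ≤ 1 / Fintype.card F + b := by
  have hN : (0 : ℝ) < Fintype.card F := by exact_mod_cast Fintype.card_pos
  unfold Fk
  rw [div_le_iff₀ hN]
  calc _ ≤ ∑ ξ : F, ((if ξ = 0 then (1 : ℝ) else 0) + b) := by
        refine sum_le_sum fun ξ _ => ?_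
        split_ifs with h0
        · rw [h0, ft_zero (mu_sum φ)]; simpa using hb
        · simpa using h ξ h0
    _ = _ := by
      rw [sum_add_distrib]
      simp
      field_simp

theorem pr_eq (φ : Γ →* Fˣ) {ι : Type} [Fintype ι] [DecidableEq ι] (u : ι → Fˣ) (n : F) :
    (Fintype.card F : ℂ) * pr φ u n =
      ∑ ξ, ch F (ξ * -n) * ∏ i, ft (mu φ) (u i * ξ) := by
  classical
  simp only [ft_mu, prod_div_distrib, prod_const, card_univ]
  simp only [Fintype.prod_sum, ← mul_div_assoc, ← sum_div, mul_sum]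
  rw [sum_comm]
  unfold pr
  push_cast
  rw [← mul_div_assoc, mul_sum]
  congr 1
  refine sum_congr rfl fun y _ => ?_
  have : ∀ ξ : F, ch F (ξ * -n) *
      ∏ i, ch F ((u i : F) * ξ * (φ (y i) : F)) =
      ch F (ξ * (∑ i, (u i : F) * φ (y i) - n)) := by
    intro ξ
    rw [sub_eq_add_neg, mul_add, AddChar.map_add_eq_mul, mul_comm, mul_sum]
    congr 1
    induction (univ : Finset ι) using Finset.induction_on with
    | empty => simp
    | insert a s ha ih =>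
      rw [prod_insert ha, sum_insert ha, AddChar.map_add_eq_mul, ih]
      congr 2
      ring
  simp only [this, orth, sub_eq_zero]
  split_ifs <;> simp

theorem pr_le (φ : Γ →* Fˣ) {ι : Type} [Fintype ι] [DecidableEq ι] (u : ι → Fˣ) (n : F) :
    pr φ u n ≤ (∑ ξ, ∏ i, ‖ft (mu φ) (u i * ξ)‖) / Fintype.card F := by
  have hN : (0 : ℝ) < Fintype.card F := by exact_mod_cast Fintype.card_pos
  rw [le_div_iff₀ hN, mul_comm]
  have h1 : (Fintype.card F : ℝ) * pr φ u n ≤ ‖(Fintype.card F : ℂ) * pr φ u n‖ := by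
    rw [← Complex.ofReal_natCast, ← Complex.ofReal_mul, Complex.norm_real]
    exact le_abs_self _
  refine h1.trans ?_
  rw [pr_eq]
  refine (norm_sum_le _ _).trans (sum_le_sum fun ξ _ => ?_)
  rw [norm_mul, AddChar.norm_apply, one_mul, norm_prod]

theorem prod_le_avg {ι : Type} (s : Finset ι) (hs : s.Nonempty) (a : ι → ℝ) (ha : ∀ i, 0 ≤ a i) :
    ∏ i ∈ s, a i ≤ (∑ i ∈ s, a i ^ s.card) / s.card := by
  have hk : s.card ≠ 0 := hs.card_pos.ne'
  have hk' : (s.card : ℝ) ≠ 0 := by exact_mod_cast hk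
  have := Real.geom_mean_le_arith_mean_weighted s (fun _ => (s.card : ℝ)⁻¹)
    (fun i => a i ^ s.card) (fun _ _ => by positivity) (by simp [hk'])
    (fun i _ => pow_nonneg (ha i) _)
  simp only [Real.pow_rpow_inv_natCast (ha _) hk] at this
  rwa [← mul_sum, ← div_eq_inv_mul] at this

theorem norm_ft_mu_le (φ : Γ →* Fˣ) (ξ : F) : ‖ft (mu φ) ξ‖ ≤ 1 :=
  norm_ft_le (mu_nonneg φ) (mu_sum φ) ξ

theorem pr_le_Fk (φ : Γ →* Fˣ) {ι : Type} [Fintype ι] [DecidableEq ι] (u : ι → Fˣ) (n : F)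
    {k : ℕ} (hk : 0 < k) (h : k ≤ Fintype.card ι) : pr φ u n ≤ Fk φ k := by
  have hN : (0 : ℝ) < Fintype.card F := by exact_mod_cast Fintype.card_pos
  have hk' : (Fintype.card ι : ℝ) ≠ 0 := by exact_mod_cast (by omega : Fintype.card ι ≠ 0)
  refine (pr_le φ u n).trans (le_trans ?_ (Fk_anti φ h))
  unfold Fk
  gcongr ?_ / _
  calc _ ≤ ∑ ξ, (∑ i, ‖ft (mu φ) (u i * ξ)‖ ^ Fintype.card ι) / Fintype.card ι :=
        sum_le_sum fun ξ _ => prod_le_avg univ (card_pos.1 (by rw [card_univ]; omega)) _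
          fun _ => norm_nonneg _
    _ = _ := by
      rw [← sum_div, sum_comm]
      have : ∀ i, ∑ ξ, ‖ft (mu φ) (u i * ξ)‖ ^ Fintype.card ι =
          ∑ ξ, ‖ft (mu φ) ξ‖ ^ Fintype.card ι := fun i =>
        Equiv.sum_comp (Units.mulLeft (u i)) fun ξ => ‖ft (mu φ) ξ‖ ^ Fintype.card ι
      simp only [this]
      simp [hk']

end Pool.Agent.P.MP_42fc1a_nt.TU
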