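import Pool.Agent.P.MP_42fc1a_nt.TU.GUp2
import Pool.Agent.P.MP_e94e4b_nt.LG.Phi

/-! The upper bound summed over the classes above a fixed class. -/

set_option linter.unusedSectionVars false

namespace Pool.Agent.P.MP_e94e4b_nt.RP.U.G

open Polynomial Finset
open Pool.Agent.P.MP_8be758_nt Pool.Agent.P.MP_8be758_nt.C2 Pool.Agent.P.MP_8be758_nt.L2
open Pool.Agent.P.MP_e94e4b_nt.LG
open scoped Classical

variable {k : Type} [Field k] [Finite k]

/-- the number of pairs in a class -/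
noncomputable def N2 (W c h : k[X]) (n : ℕ) : ℝ :=
  (((Gs W c n).filter fun f => Irreducible f ∧ Irreducible (f + h)).card : ℝ)

theorem Gs_Mo {W c f : k[X]} {n : ℕ} (h : f ∈ Gs W c n) : f ∈ Mo k n :=
  mem_Mo.2 ⟨(mem_Gs.1 h).1, (mem_Gs.1 h).2.1⟩

theorem card_cls {W h : k[X]} (c : k[X]) (h0 : h ≠ 0) (hW : W ∣ h) {n : ℕ}
    (hn : h.natDegree ≤ n) :
    (((Gs W c n).filter (fun F => IsCoprime F h)).card : ℝ) ≤
      qq k ^ n / qq k ^ W.natDegree * VV (pc 1) (pf h \ pf W) := by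
  have W0 : W ≠ 0 := ne_zero_of_dvd_ne_zero h0 hW
  have hp : ∀ P ∈ pf h \ pf W, IsPr P := fun P hP => isPr_of_mem_pf (mem_sdiff.1 hP).1
  have hd : ∀ S ⊆ pf h \ pf W, pr S ∣ h := fun S hS =>
    (subset_pf_iff h0 fun P hP => hp P (hS hP)).1 (hS.trans sdiff_subset)
  refine le_trans (Nat.cast_le.2 (card_le_card (t := (Gs W c n).filter
    fun F => IsCoprime F (pr (pf h \ pf W))) fun F hF => mem_filter.2 ⟨(mem_filter.1 hF).1,
      (mem_filter.1 hF).2.of_isCoprime_of_dvd_right (hd _ subset_rfl)⟩)) (le_of_eq ?_)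
  rw [← sum_boole, sum_congr rfl fun b _ => phi_ind (monic_pr hp).ne_zero b, sum_comm, VV,
    prod_congr rfl fun P _ => sub_eq_add_neg 1 (pc 1 P), prod_one_add, mul_sum, pf_pr hp]
  refine sum_congr rfl fun S hS => ?_
  have h1 : ∀ P ∈ S, IsPr P := fun P hP => hp P (mem_powerset.1 hS hP)
  have h2 : IsCoprime (pr S) W := (coprime_pr_iff W0 h1).2
    (disjoint_left.2 fun P a b => (mem_sdiff.1 (mem_powerset.1 hS a)).2 b)
  have h3 := natDegree_le_of_dvd (h2.mul_dvd (hd S (mem_powerset.1 hS)) hW) h0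
  obtain ⟨u, v, e⟩ := id h2
  have h4 : (Gs W c n).filter (fun F => pr S ∣ F) = Gs (pr S * W) (c * u * pr S) n := by
    ext F
    simp only [mem_filter, mem_Gs, and_assoc]
    refine and_congr_right fun _ => and_congr_right fun _ => ⟨fun ⟨⟨x, a⟩, b⟩ =>
      h2.mul_dvd (dvd_sub b (dvd_mul_left _ _)) ⟨x + c * v, by linear_combination a - c * e⟩,
      fun ⟨x, a⟩ => ⟨⟨pr S * x - c * v, by linear_combination a + c * e⟩,
        ⟨W * x + c * u, by linear_combination a⟩⟩⟩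
  have s0 := (monic_pr h1).ne_zero
  rw [← sum_filter, sum_const, nsmul_eq_mul, h4, card_Gs (mul_ne_zero s0 W0) _ (h3.trans hn),
    natDegree_mul s0 W0, natDegree_pr h1]
  simp only [pc, ← neg_div]
  rw [prod_div_distrib, prod_const, prod_pow_eq_pow_sum, sg, dg, pow_add]
  ring

def S_CLS : Prop :=
  ∀ η : ℝ, 0 < η → η ≤ 1 → ∃ K : ℕ, 1 ≤ K ∧ ∀ (k : Type) [Field k] [Finite k] [CharP k 2],
    ∃ n0 : ℕ, ∀ n, n0 ≤ n → ∀ W c h : k[X], Adm h → W ∣ h → h.natDegree < n / K →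
      (n : ℝ) ^ 2 * N2 W c h n * VV (pc 1) (pf W) ^ 2 ≤
        (1 + 11 * η) * (qq k ^ n / qq k ^ W.natDegree) * (VV (pc 1) (pf h \ pf W))⁻¹

theorem cls (hUP : S_UP) : S_CLS := by
  intro η η0 η1
  obtain ⟨K, hK, H⟩ := hUP η η0 η1
  refine ⟨K, hK, fun k _ _ _ => ?_⟩
  obtain ⟨n0, H⟩ := H k
  refine ⟨n0, fun n hn W c h hh hW hd => ?_⟩
  have hq := qq_pos (k := k)
  have hd' : h.natDegree < n := hd.trans_le (Nat.div_le_self _ _)
  have W0 : W ≠ 0 := ne_zero_of_dvd_ne_zero hh.1 hW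
  have t0 := (VV_pos (T := pf h \ pf W) fun P hP => isPr_of_mem_pf (mem_sdiff.1 hP).1).1
  have t1 : VV (pc 1) (pf h) = VV (pc 1) (pf h \ pf W) * VV (pc 1) (pf W) :=
    (prod_sdiff fun P hP => (mem_pf hh.1).2
      ⟨isPr_of_mem_pf hP, ((mem_pf W0).1 hP).2.trans hW⟩).symm
  have hQ := QQ_pos h n
  have a1 := sum_le_card_nsmul ((Gs W c n).filter (fun F => IsCoprime F h))
    (fun F => (n : ℝ) ^ 2 * PI2 F h n * VV (pc 1) (pf h) ^ 2) ((1 + 11 * η) * QQ h n)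
    fun F hF => by
      obtain ⟨f1, f2, -⟩ := mem_Gs.1 (mem_filter.1 hF).1
      have := H h F hh f1 (f2 ▸ hn) (f2 ▸ hd)
      rwa [f2] at this
  have a2 : N2 W c h n * QQ h n ≤
      ∑ F ∈ (Gs W c n).filter (fun F => IsCoprime F h), PI2 F h n := by
    have : ∀ F ∈ (Gs W c n).filter (fun F => IsCoprime F h),
        ∑ f ∈ (Gs W c n).filter (fun f => Irreducible f ∧ Irreducible (f + h)),
          (if F ∈ Gs h f n then (1 : ℝ) else 0) ≤ PI2 F h n := fun F hF => by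
      obtain ⟨f1, f2⟩ := mem_filter.1 hF
      obtain ⟨f3, f4, -⟩ := mem_Gs.1 f1
      rw [sum_boole, PI2, Nat.cast_le]
      refine card_le_card fun f hf => ?_
      obtain ⟨w, i⟩ := mem_filter.1 hf
      obtain ⟨w1, w2⟩ := mem_filter.1 w
      obtain ⟨w3, w4, -⟩ := mem_Gs.1 w1
      refine mem_filter.2 ⟨mem_Wn.2 ⟨f4 ▸ Gs_Mo w1,
        w4 ▸ sub_mem_low_of_monic w3 f3 (w4.trans f4.symm), ?_⟩, w2⟩
      rw [cl, if_pos f2]
      exact dvd_sub_comm.1 (mem_Gs.1 i).2.2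
    refine le_trans ?_ (sum_le_sum this)
    rw [sum_comm, N2, ← nsmul_eq_mul]
    refine card_nsmul_le_sum _ _ _ fun f hf => ?_
    obtain ⟨w1, w2, -⟩ := mem_filter.1 hf
    obtain ⟨-, w4, w5⟩ := mem_Gs.1 w1
    have w6 : IsCoprime f h := w2.coprime_iff_not_dvd.2 fun d =>
      absurd (natDegree_le_of_dvd d hh.1) (by omega)
    rw [sum_boole, QQ, ← card_Gs hh.1 f hd'.le, Nat.cast_le]
    refine card_le_card fun F hF => mem_filter.2 ⟨?_, hF⟩
    obtain ⟨f1, f2, x, f3⟩ := mem_Gs.1 hF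
    refine mem_filter.2 ⟨mem_Gs.2 ⟨f1, f2, ?_⟩, ?_⟩
    · simpa using dvd_add (hW.trans ⟨x, f3⟩) w5
    · rw [eq_add_of_sub_eq' f3]
      exact w6.add_mul_left_left x
  rw [nsmul_eq_mul, ← sum_mul, ← mul_sum] at a1
  have a3 := ((mul_le_mul_of_nonneg_right (mul_le_mul_of_nonneg_left a2 (sq_nonneg (n : ℝ)))
    (sq_nonneg _)).trans a1).trans
    (mul_le_mul_of_nonneg_right (card_cls c hh.1 hW hd'.le) (by positivity))
  rw [t1] at a3
  rw [← div_eq_mul_inv, le_div_iff₀ t0]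
  refine le_of_mul_le_mul_right (le_of_eq_of_le ?_ (a3.trans_eq ?_)) (mul_pos t0 hQ) <;> ring

end Pool.Agent.P.MP_e94e4b_nt.RP.U.G
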