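import Pool.Agent.P.MP_42fc1a_nt.TU.GTau

/-! The singular factor on average over the shifts, second part. -/

set_option linter.unusedSectionVars false

namespace Pool.Agent.P.MP_e94e4b_nt.RP.U.G

open Polynomial Finset Filter
open Pool.Agent.P.MP_8be758_nt Pool.Agent.P.MP_8be758_nt.C2 Pool.Agent.P.MP_8be758_nt.L2
open Pool.Agent.P.MP_e94e4b_nt.LG
open scoped Classical Topology

variable {k : Type} [Field k] [Finite k]

theorem cnt_le {M N R : ℕ} {c P : k[X]} (hP : IsPr P) (hX : ¬ P ∣ X) (hR : 1 ≤ R)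
    (h : ¬ ∃ t ∈ Ico 1 R, P ∣ X ^ (M * t) - 1) :
    ((Icc 1 N).filter fun a => P ∣ c + X ^ (M * a)).card ≤ N / R + 1 := by
  have key : ∀ a b, a < b → P ∣ c + X ^ (M * a) → P ∣ c + X ^ (M * b) → a / R ≠ b / R := by
    intro a b ab ha hb e
    obtain ⟨t, rfl⟩ := Nat.exists_eq_add_of_le ab.le
    have e1 : c + X ^ (M * (a + t)) - (c + X ^ (M * a)) = X ^ (M * a) * (X ^ (M * t) - 1) := by
      ring
    refine h ⟨t, mem_Ico.2 ⟨by omega, not_le.1 fun c => ?_⟩, (hP.prime.dvd_or_dvd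
      (e1 ▸ dvd_sub hb ha)).resolve_left fun c => hX (hP.prime.dvd_of_dvd_pow c)⟩
    have := Nat.div_le_div_right (c := R) (Nat.add_le_add_left c a)
    rw [Nat.add_div_right _ hR] at this
    omega
  rw [← card_range (N / R + 1)]
  refine card_le_card_of_injOn (· / R) (fun a ha => mem_coe.2 (mem_range.2 (Nat.lt_succ_of_le
    (Nat.div_le_div_right (mem_Icc.1 (mem_filter.1 ha).1).2)))) fun a ha b hb e => ?_
  rcases lt_trichotomy a b with c | c | c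
  · exact absurd e (key a b c (mem_filter.1 ha).2 (mem_filter.1 hb).2)
  · exact c
  · exact absurd e.symm (key b a c (mem_filter.1 hb).2 (mem_filter.1 ha).2)

theorem cnt_set {L Y N : ℕ} (hL : 1 ≤ L) (c : k[X]) {S : Finset k[X]}
    (hS : S ⊆ Pr k Y \ pf (WW k L)) :
    (((Icc 1 N).filter fun a => ∀ P ∈ S, P ∣ c + X ^ (MM k L * a)).card : ℝ) ≤
      (if S = ∅ then (N : ℝ) else 0) + 1 + N * ∑ m ∈ range (N + 1),
        (1 / 2 : ℝ) ^ m * if S ⊆ Tm L Y m ∧ S ≠ ∅ then 1 else 0 := by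
  have c0 : (((Icc 1 N).filter fun a => ∀ P ∈ S, P ∣ c + X ^ (MM k L * a)).card : ℝ) ≤ N := by
    exact_mod_cast (card_filter_le _ _).trans_eq (by simp)
  have c1 : ∀ m, ¬ S ⊆ Tm L Y m → ((Icc 1 N).filter
      fun a => ∀ P ∈ S, P ∣ c + X ^ (MM k L * a)).card ≤ N / 2 ^ (m + 1) + 1 := fun m hm => by
    obtain ⟨P, p1, p2⟩ := not_subset.1 hm
    obtain ⟨a, -, -, b⟩ := out_spec hL (hS p1)
    refine le_trans (card_le_card fun a ha => ?_) (cnt_le (c := c) a b Nat.one_le_two_pow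
      fun e => p2 (mem_filter.2 ⟨hS p1, e⟩))
    obtain ⟨a1, a2⟩ := mem_filter.1 ha
    exact mem_filter.2 ⟨a1, a2 P p1⟩
  have n0 : ∀ m ∈ range (N + 1),
      0 ≤ (1 / 2 : ℝ) ^ m * if S ⊆ Tm L Y m ∧ S ≠ ∅ then 1 else 0 := fun _ _ => by positivity
  have n1 := mul_nonneg (Nat.cast_nonneg (α := ℝ) N) (sum_nonneg n0)
  split_ifs with e
  · linarith
  by_cases h : ∃ m, m ≤ N ∧ S ⊆ Tm L Y m
  · obtain ⟨a, b⟩ := Nat.find_spec h
    have d := mul_le_mul_of_nonneg_left (single_le_sum n0 (mem_range.2 (Nat.lt_succ_of_le a)))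
      (Nat.cast_nonneg (α := ℝ) N)
    rw [if_pos ⟨b, e⟩, mul_one] at d
    rcases hm : Nat.find h with _ | m
    · rw [hm, pow_zero] at d
      linarith
    · have f := c1 m fun f => Nat.find_min h (m := m) (by omega) ⟨by omega, f⟩
      have g : ((N / 2 ^ (m + 1) : ℕ) : ℝ) ≤ N * (1 / 2) ^ (m + 1) :=
        Nat.cast_div_le.trans_eq (by push_cast; rw [one_div, inv_pow, div_eq_mul_inv])
      rw [hm] at d
      have := (Nat.cast_le (α := ℝ)).2 f
      rw [Nat.cast_add, Nat.cast_one] at this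
      linarith
  · have f := c1 N fun f => h ⟨N, le_rfl, f⟩
    rw [Nat.div_eq_of_lt ((Nat.lt_succ_self N).trans Nat.lt_two_pow_self)] at f
    have := (Nat.cast_le (α := ℝ)).2 f
    push_cast at this
    linarith

theorem rom_sum {L Y N : ℕ} (hL : 1 ≤ L) (c : k[X]) :
    ∑ a ∈ Icc 1 N, ∏ P ∈ (Pr k Y \ pf (WW k L)).filter (fun P => P ∣ c + X ^ (MM k L * a)),
      (1 + gp P) ≤ N + ∏ P ∈ Pr k Y \ pf (WW k L), (1 + gp P) + N * ∑ m ∈ range (N + 1),
        (1 / 2 : ℝ) ^ m * (∏ P ∈ Tm (k := k) L Y m, (1 + gp P) - 1) := by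
  set T := Pr k Y \ pf (WW k L) with hT
  have g0 : ∀ S ∈ T.powerset, 0 ≤ ∏ P ∈ S, gp P := fun S hS =>
    prod_nonneg fun P hP => (gp_bd (out_spec hL (mem_powerset.1 hS hP)).1).1
  have e1 : ∀ a, ∏ P ∈ T.filter (fun P => P ∣ c + X ^ (MM k L * a)), (1 + gp P) =
      ∑ S ∈ T.powerset, (∏ P ∈ S, gp P) *
        if ∀ P ∈ S, P ∣ c + X ^ (MM k L * a) then 1 else 0 := fun a => by
    simp only [mul_ite, mul_one, mul_zero]
    rw [prod_one_add, ← sum_filter]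
    refine sum_congr ?_ fun _ _ => rfl
    ext S
    simp only [mem_powerset, mem_filter, subset_iff]
    exact ⟨fun h => ⟨fun _ p => (h p).1, fun _ p => (h p).2⟩, fun h _ p => ⟨h.1 p, h.2 _ p⟩⟩
  have e2 : ∀ m, ∑ S ∈ T.powerset, (∏ P ∈ S, gp P) * (if S ⊆ Tm L Y m ∧ S ≠ ∅ then 1 else 0) =
      ∏ P ∈ Tm (k := k) L Y m, (1 + gp P) - 1 := fun m => by
    simp only [mul_ite, mul_one, mul_zero]
    rw [prod_one_add, ← sum_filter, ← add_sum_erase _ _ (empty_mem_powerset _), prod_empty,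
      add_sub_cancel_left]
    refine sum_congr ?_ fun _ _ => rfl
    ext S
    simp only [mem_powerset, mem_filter, mem_erase]
    exact ⟨fun h => ⟨h.2.2, h.2.1⟩, fun h => ⟨h.2.trans (filter_subset _ _), h.2, h.1⟩⟩
  simp only [e1]
  rw [sum_comm]
  refine (sum_le_sum fun S hS => ?_).trans_eq (b := ∑ S ∈ T.powerset, (∏ P ∈ S, gp P) *
    ((if S = ∅ then (N : ℝ) else 0) + 1 + N * ∑ m ∈ range (N + 1),
      (1 / 2 : ℝ) ^ m * if S ⊆ Tm L Y m ∧ S ≠ ∅ then 1 else 0)) ?_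
  · rw [← mul_sum, sum_boole]
    exact mul_le_mul_of_nonneg_left (cnt_set hL c (mem_powerset.1 hS)) (g0 S hS)
  · simp only [mul_add, sum_add_distrib, mul_one, ← e2, mul_sum]
    rw [prod_one_add, sum_comm (s := range (N + 1))]
    refine congrArg₂ _ (congrArg₂ _ ?_ rfl)
      (sum_congr rfl fun _ _ => sum_congr rfl fun _ _ => by ring)
    simp

theorem rom (hM : S_MER3) {ε : ℝ} (hε : 0 < ε) : ∃ L : ℕ, 1 ≤ L ∧ ∃ N0 : ℕ, ∀ N, N0 ≤ N →
    ∀ c : k[X], c.natDegree ≤ 2 * MM k L * N →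
      ∑ a ∈ (Icc 1 N).filter (fun a => c + X ^ (MM k L * a) ≠ 0),
        (VV (pc 1) (pf (c + X ^ (MM k L * a)) \ pf (WW k L)))⁻¹ ≤ (1 + ε) * ((1 + 2 * ε) * N) := by
  obtain ⟨L, hL, hT⟩ := tau (k := k) hM hε
  have ht : Tendsto (fun Y : ℕ => Real.exp (1 / ((Y : ℝ) + 1))) atTop (𝓝 1) := by
    simpa [Function.comp_def] using (Real.continuous_exp.tendsto _).comp
      (tendsto_one_div_add_atTop_nhds_zero_nat (𝕜 := ℝ))
  obtain ⟨Y0, h0⟩ := eventually_atTop.1 (ht.eventually_le_const (show (1 : ℝ) < 1 + ε by linarith))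
  obtain ⟨Y1, h1⟩ := NEG 2 1 (2 * MM k L) ε le_rfl hε
  have m1 := MM_pos (k := k) hL
  refine ⟨L, hL, 2 ^ (Y0 + Y1 + 1), fun N hN c hc => ?_⟩
  obtain ⟨Y, hY⟩ : ∃ Y, Y = Nat.clog 2 (2 * MM k L * N) := ⟨_, rfl⟩
  have n1 : N ≤ MM k L * N := Nat.le_mul_of_pos_left _ m1
  have n2 : 1 ≤ N := Nat.one_le_two_pow.trans hN
  have y1 : 2 * MM k L * N ≤ 2 ^ Y := hY ▸ Nat.le_pow_clog one_lt_two _
  have y2 : 2 ^ (Y - 1) < 2 * MM k L * N :=
    hY ▸ Nat.pow_pred_clog_lt_self one_lt_two (by rw [mul_assoc]; omega)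
  have y3 : Y0 + Y1 + 1 ≤ Y :=
    (Nat.pow_le_pow_iff_right one_lt_two).1 (by rw [mul_assoc] at y1; omega)
  have y4 : (Y : ℝ) ^ 2 ≤ ε * N := by
    have a := h1 (Y - 1) (by omega)
    rw [Nat.div_one, Nat.cast_pred (by omega), sub_add_cancel] at a
    have b : (2 : ℝ) ^ (Y - 1) ≤ 2 * MM k L * N := by exact_mod_cast y2.le
    have d : (0 : ℝ) < 2 * MM k L := by exact_mod_cast (by omega : 0 < 2 * MM k L)
    refine le_of_mul_le_mul_left (a.trans ?_) d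
    nlinarith
  have s := fun P (hP : P ∈ Pr k Y \ pf (WW k L)) => out_spec hL hP
  have a1 := rom_sum (N := N) (Y := Y) hL c
  have a2 := prod_JJ hM (b := Y) (by omega) (S := Pr k Y \ pf (WW k L)) fun P hP => by
    obtain ⟨p3, p2, p4, -⟩ := s P hP
    exact mem_JJ.2 ⟨p3, lt_of_le_of_ne p3.pos fun e => p4 (e ▸ one_dvd _), p2⟩
  have a3 := mul_le_mul_of_nonneg_left (hT Y (N + 1)) (Nat.cast_nonneg (α := ℝ) N)
  have n0 : ∀ a, 0 ≤ ∏ P ∈ (Pr k Y \ pf (WW k L)).filter (fun P => P ∣ c + X ^ (MM k L * a)),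
      (1 + gp P) := fun a => prod_nonneg fun P hP => by
    linarith [(gp_bd (s P (mem_filter.1 hP).1).1).1]
  refine (sum_le_sum fun a ha => ?_).trans ((sum_le_sum_of_subset_of_nonneg (filter_subset _ _)
    fun a _ _ => mul_nonneg (show 0 ≤ 1 + ε by linarith) (n0 a)).trans ?_)
  · obtain ⟨b1, b2⟩ := mem_filter.1 ha
    have b3 : (c + X ^ (MM k L * a)).natDegree ≤ 2 ^ Y := by
      refine (natDegree_add_le _ _).trans (max_le (hc.trans y1) ?_)
      have := Nat.mul_le_mul_left (MM k L) (mem_Icc.1 b1).2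
      rw [natDegree_X_pow]
      rw [mul_assoc] at y1
      omega
    rw [inv_VV, ← prod_filter_mul_prod_filter_not _ fun P => P ∉ Pr k Y]
    refine mul_le_mul ((prod_mono (fun P hP => isPr_of_mem_pf (mem_sdiff.1 hP).1) fun P hP =>
      mem_sdiff.2 ⟨(mem_sdiff.1 (mem_filter.1 hP).1).1, (mem_filter.1 hP).2⟩).trans
      ((prod_le_exp (fun P hP => isPr_of_mem_pf (mem_sdiff.1 hP).1) (big_primes b2 b3)).trans
        (h0 Y (by omega)))) (prod_mono (fun P hP => (s P (mem_filter.1 hP).1).1) fun P hP => ?_)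
      (prod_nonneg fun P hP => ?_) (by linarith)
    · obtain ⟨p1, p2⟩ := mem_filter.1 hP
      obtain ⟨p3, p4⟩ := mem_sdiff.1 p1
      exact mem_filter.2 ⟨mem_sdiff.2 ⟨not_not.1 p2, p4⟩, ((mem_pf b2).1 p3).2⟩
    · linarith [(gp_bd (isPr_of_mem_pf (mem_sdiff.1 (mem_filter.1 hP).1).1)).1]
  · rw [← mul_sum]
    exact mul_le_mul_of_nonneg_left (by linarith) (by linarith)

end Pool.Agent.P.MP_e94e4b_nt.RP.U.G
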