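import Pool.Agent.P.MP_42fc1a_nt.TU.GPnt
import Pool.Agent.P.MP_42fc1a_nt.TU.GRom

/-! The second moment in a class, and the sum over the classes. -/

set_option linter.unusedSectionVars false

namespace Pool.Agent.P.MP_e94e4b_nt.RP.U.G

open Polynomial Finset
open Pool.Agent.P.MP_8be758_nt Pool.Agent.P.MP_8be758_nt.C2 Pool.Agent.P.MP_8be758_nt.L2
open Pool.Agent.P.MP_e94e4b_nt.LG
open scoped Classical

variable {k : Type} [Field k] [Finite k] [CharP k 2]

/-- the shifts -/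
noncomputable def sh (k : Type) [Field k] (M N : ℕ) (p : ℕ × ℕ) : k[X] :=
  X ^ (M * (N + p.1)) + X ^ (M * p.2)

theorem WW_dvd {L a b : ℕ} (hL : 1 ≤ L) (ha : 1 ≤ a) (hb : 1 ≤ b) :
    WW k L ∣ X ^ (MM k L * a) + X ^ (MM k L * b) := by
  have key : ∀ a, 1 ≤ a → WW k L ∣ X ^ (MM k L * a) - X ^ MM k L := fun a ha => by
    obtain ⟨t, rfl⟩ := Nat.exists_eq_add_of_le ha
    rw [WW_eq, mul_add, mul_one, pow_add, ← mul_sub_one, pow_mul]
    exact mul_dvd_mul (dvd_pow_self _ (Nat.one_le_iff_ne_zero.1 (MM_pos hL)))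
      (sub_one_dvd_pow_sub_one _ _)
  have := dvd_sub (key a ha) (key b hb)
  rwa [sub_sub_sub_cancel_right, CharTwo.sub_eq_add] at this

theorem sh_deg {M N : ℕ} {p : ℕ × ℕ} (hp : p ∈ Icc 1 N ×ˢ Icc 1 N) :
    (X ^ (M * (N + p.1)) : k[X]).natDegree ≤ 2 * M * N ∧ (sh k M N p).natDegree ≤ 2 * M * N := by
  obtain ⟨a, b⟩ := mem_product.1 hp
  have a1 := Nat.mul_le_mul_left M (mem_Icc.1 a).2
  have b1 := Nat.mul_le_mul_left M (mem_Icc.1 b).2
  have c : (X ^ (M * (N + p.1)) : k[X]).natDegree ≤ 2 * M * N := by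
    rw [natDegree_X_pow, mul_add, mul_assoc]; omega
  exact ⟨c, (natDegree_add_le _ _).trans (max_le c (by rw [natDegree_X_pow, mul_assoc]; omega))⟩

theorem sh_inj {M N : ℕ} (hM : 1 ≤ M) {p p' : ℕ × ℕ} (hp : p ∈ Icc 1 N ×ˢ Icc 1 N)
    (hp' : p' ∈ Icc 1 N ×ˢ Icc 1 N) (h : sh k M N p + sh k M N p' = 0) : p' = p := by
  have d : ∀ p ∈ Icc 1 N ×ˢ Icc 1 N, (sh k M N p).natDegree = M * (N + p.1) := fun p hp => by
    obtain ⟨a, b⟩ := mem_product.1 hp
    rw [sh, natDegree_add_eq_left_of_natDegree_lt, natDegree_X_pow]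
    rw [natDegree_X_pow, natDegree_X_pow]
    exact Nat.mul_lt_mul_of_pos_left (by have := mem_Icc.1 a; have := mem_Icc.1 b; omega) hM
  have e := CharTwo.add_eq_zero.1 h
  have e1 : p.1 = p'.1 := by
    have := Nat.eq_of_mul_eq_mul_left hM ((d p hp).symm.trans (e ▸ d p' hp'))
    omega
  rw [sh, sh, e1, add_right_inj] at e
  have e2 := congrArg natDegree e
  rw [natDegree_X_pow, natDegree_X_pow] at e2
  exact Prod.ext e1.symm (Nat.eq_of_mul_eq_mul_left hM e2).symm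

theorem adm_of {L : ℕ} {h : k[X]} (h0 : h ≠ 0) (hW : WW k L ∣ h) : Adm h := by
  refine ⟨h0, fun P hP a => ((dvd_WW hP).2 ?_).trans hW⟩
  have b : (2 : ℝ) ^ P.natDegree ≤ 2 ^ 1 := (two_pow_le_qq _).trans (a.trans_eq (pow_one _).symm)
  rw [le_antisymm ((pow_le_pow_iff_right₀ one_lt_two).1 b) hP.pos]
  exact one_dvd _

theorem cls_zero {L N n : ℕ} (hL : 1 ≤ L) (hN : 1 ≤ N) (hn : 2 * MM k L * N < n) {η : ℝ}
    (η0 : 0 < η) (η1 : η ≤ 1) (c : k[X])
    (hP : (1 - η) * (qq k ^ n / qq k ^ (WW k L).natDegree) ≤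
      n * N1 (WW k L) c n * VV (pc 1) (pf (WW k L)))
    (hC : ∀ h : k[X], Adm h → WW k L ∣ h → h.natDegree ≤ 2 * MM k L * N →
      (n : ℝ) ^ 2 * N2 (WW k L) c h n * VV (pc 1) (pf (WW k L)) ^ 2 ≤ (1 + 11 * η) *
        (qq k ^ n / qq k ^ (WW k L).natDegree) * (VV (pc 1) (pf h \ pf (WW k L)))⁻¹)
    (hR : ∀ c : k[X], c.natDegree ≤ 2 * MM k L * N →
      ∑ a ∈ (Icc 1 N).filter (fun a => c + X ^ (MM k L * a) ≠ 0),
        (VV (pc 1) (pf (c + X ^ (MM k L * a)) \ pf (WW k L)))⁻¹ ≤ (1 + η) * ((1 + 2 * η) * N))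
    (hw : (WW k L).natDegree ≤ n) (hB : n * qq k ^ (WW k L).natDegree ≤ η * (N : ℝ) ^ 2) :
    (((Gs (WW k L) c n).filter fun g => ¬ ∃ p ∈ Icc 1 N ×ˢ Icc 1 N,
      Irreducible (g + sh k (MM k L) N p)).card : ℝ) ≤
      74 * η * (qq k ^ n / qq k ^ (WW k L).natDegree) := by
  have hq := qq_pos (k := k)
  have hG := card_Gs (WW_ne (k := k) hL) c hw
  obtain ⟨s1, s2⟩ := VV_pos (T := pf (WW k L)) fun _ => isPr_of_mem_pf
  have sd : ∀ p ∈ Icc 1 N ×ˢ Icc 1 N, WW k L ∣ sh k (MM k L) N p := fun p hp =>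
    WW_dvd hL (by omega) (mem_Icc.1 (mem_product.1 hp).2).1
  have st : ∀ p ∈ Icc 1 N ×ˢ Icc 1 N, ∀ g ∈ Gs (WW k L) c n,
      g + sh k (MM k L) N p ∈ Gs (WW k L) c n := fun p hp g hg =>
    add_mem_Gs hg (mem_low_of_natDegree_lt ((sh_deg hp).2.trans_lt hn)) (sd p hp)
  have n1 : n * N1 (WW k L) c n ≤ qq k ^ n := by
    refine le_trans (mul_le_mul_of_nonneg_left (Nat.cast_le.2 (card_le_card fun f hf => ?_))
      (Nat.cast_nonneg _)) (a_GAUSS k n (by omega)).1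
    obtain ⟨f1, f2⟩ := mem_filter.1 hf
    exact mem_Pd.2 ⟨⟨(mem_Gs.1 f1).1, f2⟩, (mem_Gs.1 f1).2.1⟩
  have cI : ((Icc 1 N ×ˢ Icc 1 N).card : ℝ) = (N : ℝ) ^ 2 := by simp [sq]
  obtain ⟨Q, hQ⟩ : ∃ Q, Q = qq k ^ n / qq k ^ (WW k L).natDegree := ⟨_, rfl⟩
  have Q0 : 0 < Q := by rw [hQ]; positivity
  have n2 : n * qq k ^ n ≤ η * (N : ℝ) ^ 2 * Q := by
    rw [hQ, ← mul_div_assoc, le_div_iff₀ (by positivity), mul_right_comm]
    exact mul_le_mul_of_nonneg_right hB (by positivity)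
  rw [← hQ] at hP hC hG ⊢
  generalize VV (pc 1) (pf (WW k L)) = th at *
  set I := Icc 1 N ×ˢ Icc 1 N with hI
  set r : k[X] → ℝ := fun g => ∑ p ∈ I, if Irreducible (g + sh k (MM k L) N p) then 1 else 0
    with hr
  have m1 : ∑ g ∈ Gs (WW k L) c n, r g = (N : ℝ) ^ 2 * N1 (WW k L) c n := by
    rw [sum_comm, ← cI, ← nsmul_eq_mul, ← sum_const]
    refine sum_congr rfl fun p hp => ?_
    rw [sum_shift _ _ (st p hp) fun g => if Irreducible g then (1 : ℝ) else 0, sum_boole, N1]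
  have m2 : ∑ g ∈ Gs (WW k L) c n, r g ^ 2 = ∑ p ∈ I, ∑ p' ∈ I,
      N2 (WW k L) c (sh k (MM k L) N p + sh k (MM k L) N p') n := by
    simp only [hr, sq, sum_mul_sum]
    rw [sum_comm]
    refine sum_congr rfl fun p hp => ?_
    rw [sum_comm]
    refine sum_congr rfl fun p' _ => ?_
    rw [N2, ← sum_boole, ← sum_shift _ _ (st p hp) fun f => if Irreducible f ∧
      Irreducible (f + (sh k (MM k L) N p + sh k (MM k L) N p')) then (1 : ℝ) else 0]
    refine sum_congr rfl fun g _ => ?_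
    rw [add_assoc g, ← add_assoc (sh k _ N p), add_self', zero_add, ite_zero_mul_ite_zero, one_mul]
  have m3 : ∀ p ∈ I, (n : ℝ) ^ 2 * th ^ 2 * ∑ p' ∈ I,
      N2 (WW k L) c (sh k (MM k L) N p + sh k (MM k L) N p') n ≤
      (1 + 72 * η) * (N : ℝ) ^ 2 * Q := fun p hp => by
    rw [mul_sum]
    refine (sum_le_sum (g := fun p' => (if p' = p then n * qq k ^ n else 0) + (1 + 11 * η) * Q *
      if sh k (MM k L) N p + sh k (MM k L) N p' ≠ 0 then (VV (pc 1)
        (pf (sh k (MM k L) N p + sh k (MM k L) N p') \ pf (WW k L)))⁻¹ else 0)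
      fun p' hp' => ?_).trans ?_
    · by_cases e : sh k (MM k L) N p + sh k (MM k L) N p' = 0
      · rw [if_pos (sh_inj (MM_pos hL) hp hp' e), if_neg (not_not.2 e), mul_zero, add_zero, e]
        have e1 : N2 (WW k L) c 0 n = N1 (WW k L) c n := by simp [N1, N2]
        have e2 : 0 ≤ N1 (WW k L) c n := Nat.cast_nonneg _
        calc _ = th ^ 2 * (n * (n * N1 (WW k L) c n)) := by rw [e1]; ring
          _ ≤ 1 * (n * qq k ^ n) := by gcongr; exact pow_le_one₀ s1.le s2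
          _ = _ := one_mul _
      · have d := dvd_add (sd p hp) (sd p' hp')
        have := hC _ (adm_of e d) d ((natDegree_add_le _ _).trans
          (max_le (sh_deg hp).2 (sh_deg hp').2))
        rw [if_pos e, mul_right_comm]
        exact this.trans (le_add_of_nonneg_left (by positivity))
    · rw [sum_add_distrib, sum_ite_eq', if_pos hp, ← mul_sum, hI, sum_product]
      have a := sum_le_card_nsmul (Icc 1 N) (fun b => ∑ a ∈ Icc 1 N,
        if sh k (MM k L) N p + sh k (MM k L) N (b, a) ≠ 0 then (VV (pc 1)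
          (pf (sh k (MM k L) N p + sh k (MM k L) N (b, a)) \ pf (WW k L)))⁻¹ else 0) _
        fun b hb => by
          have := hR (sh k (MM k L) N p + X ^ (MM k L * (N + b))) ((natDegree_add_le _ _).trans
            (max_le (sh_deg hp).2 (sh_deg (p := (b, b)) (mem_product.2 ⟨hb, hb⟩)).1))
          rw [sum_filter] at this
          simpa only [sh, add_assoc] using this
      rw [nsmul_eq_mul, Nat.card_Icc, Nat.add_sub_cancel] at a
      have b := mul_le_mul_of_nonneg_left a (show 0 ≤ (1 + 11 * η) * Q by positivity)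
      have d : (1 + 11 * η) * ((1 + η) * (1 + 2 * η)) ≤ 1 + 71 * η := by
        nlinarith [mul_le_mul_of_nonneg_left η1 η0.le,
          mul_le_mul_of_nonneg_left η1 (sq_nonneg η)]
      nlinarith [mul_le_mul_of_nonneg_right d (show 0 ≤ (N : ℝ) ^ 2 * Q by positivity)]
  have m4 := sum_le_card_nsmul _ _ _ m3
  rw [← mul_sum, ← m2, nsmul_eq_mul, cI] at m4
  have c1 := card_filter_add_card_filter_not (s := Gs (WW k L) c n)
    fun g => ∃ p ∈ I, Irreducible (g + sh k (MM k L) N p)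
  have c2 := sq_sum_le_card_mul_sum_sq (s := (Gs (WW k L) c n).filter
    fun g => ∃ p ∈ I, Irreducible (g + sh k (MM k L) N p)) (f := r)
  rw [sum_filter_of_ne fun g _ hg => ?_, sum_filter_of_ne fun g _ hg => ?_, m1] at c2
  · rw [← c1, Nat.cast_add] at hG
    set A : ℝ := (((Gs (WW k L) c n).filter
      fun g => ∃ p ∈ I, Irreducible (g + sh k (MM k L) N p)).card : ℝ)
    have A0 : 0 ≤ A := Nat.cast_nonneg _
    have N0 : (0 : ℝ) < N := Nat.cast_pos.2 hN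
    have c3 : ((1 - η) * Q) ^ 2 ≤ (n * N1 (WW k L) c n * th) ^ 2 :=
      pow_le_pow_left₀ (mul_nonneg (by linarith) Q0.le) hP 2
    have c4 : (1 - η) ^ 2 * Q ≤ (1 + 72 * η) * A := by
      refine le_of_mul_le_mul_right ?_ (show 0 < (N : ℝ) ^ 4 * Q by positivity)
      calc _ = (N : ℝ) ^ 4 * ((1 - η) * Q) ^ 2 := by ring
        _ ≤ (N : ℝ) ^ 4 * (n * N1 (WW k L) c n * th) ^ 2 := by gcongr
        _ = (n : ℝ) ^ 2 * th ^ 2 * ((N : ℝ) ^ 2 * N1 (WW k L) c n) ^ 2 := by ring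
        _ ≤ (n : ℝ) ^ 2 * th ^ 2 * (A * ∑ g ∈ Gs (WW k L) c n, r g ^ 2) := by gcongr
        _ = A * ((n : ℝ) ^ 2 * th ^ 2 * ∑ g ∈ Gs (WW k L) c n, r g ^ 2) := by ring
        _ ≤ A * ((N : ℝ) ^ 2 * ((1 + 72 * η) * (N : ℝ) ^ 2 * Q)) := by gcongr
        _ = _ := by ring
    have c5 : (1 - 74 * η) * Q ≤ A := by
      refine le_of_mul_le_mul_left (le_trans ?_ c4) (show 0 < 1 + 72 * η by positivity)
      nlinarith [mul_nonneg (sq_nonneg η) Q0.le]
    linarith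
  · by_contra e
    exact hg (by rw [show r g = 0 from sum_eq_zero fun p hp => if_neg fun i => e ⟨p, hp, i⟩]; norm_num)
  · by_contra e
    exact hg (sum_eq_zero fun p hp => if_neg fun i => e ⟨p, hp, i⟩)

theorem msum_low {n : ℕ} (s : Multiset ℕ) (h : ∀ a ∈ s, a < n) :
    (s.map fun a => (X : k[X]) ^ a).sum ∈ low k n := by
  induction s using Multiset.induction_on with
  | empty => simpa using zero_mem_low n
  | cons a s ih =>
    rw [Multiset.map_cons, Multiset.sum_cons]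
    exact add_mem_low (mem_low_of_natDegree_lt (by
      rw [natDegree_X_pow]; exact h a (Multiset.mem_cons_self _ _)))
      (ih fun b hb => h b (Multiset.mem_cons_of_mem hb))

theorem glob (hCLS : S_CLS) (hMAP : S_MAP) (hU0 : S_U0) (hM : S_MER3) {k0 : ℕ}
    (hL : ∀ f W : k[X], W ≠ 0 → ∃ s : Multiset ℕ, s.card ≤ k0 ∧
      IsCoprime (f + (s.map fun a => X ^ a).sum) W) {ε : ℝ} (hε : 0 < ε) :
    ∃ n0 : ℕ, ∀ n, n0 ≤ n → (((Mo k n).filter fun f => ¬ ∃ (P : k[X]) (s : Multiset ℕ),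
      Irreducible P ∧ s.card ≤ k0 + 2 ∧ (∀ a ∈ s, a < n) ∧
        f = P + (s.map fun a => X ^ a).sum).card : ℝ) ≤ ε * qq k ^ n := by
  obtain ⟨η, η0, η1, η2⟩ : ∃ η : ℝ, 0 < η ∧ η ≤ 1 ∧ 74 * η ≤ ε :=
    ⟨min 1 (ε / 74), by positivity, min_le_left _ _, by linarith [min_le_right 1 (ε / 74)]⟩
  have hq := qq_pos (k := k)
  obtain ⟨L, l1, N0, hR⟩ := rom (k := k) hM η0
  have W0 := WW_ne (k := k) l1
  have M1 := MM_pos (k := k) l1
  obtain ⟨K, hK, hC⟩ := hCLS η η0 η1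
  obtain ⟨n1, hC⟩ := hC k
  obtain ⟨n2, hP⟩ := pnt hMAP hU0 W0 η0
  choose s hs1 hs2 using fun f => hL f _ W0
  obtain ⟨N1, hN1⟩ := exists_nat_ge (5 * K * MM k L * qq k ^ (WW k L).natDegree / η)
  obtain ⟨B, hB⟩ : ∃ B, ∀ c ∈ low k (WW k L).natDegree, ∀ a ∈ s c, a ≤ B :=
    ⟨(low k (WW k L).natDegree).sup fun c => (s c).sup, fun c hc a ha =>
      (Multiset.le_sup ha).trans (le_sup (f := fun c => (s c).sup) hc)⟩
  refine ⟨n1 + n2 + B + 1 + (WW k L).natDegree + (2 * MM k L * (N0 + N1 + 1) + 1) * K,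
    fun n hn => ?_⟩
  obtain ⟨N, hN⟩ : ∃ N, N = (n / K - 1) / (2 * MM k L) := ⟨_, rfl⟩
  have d1 : 2 * MM k L * (N0 + N1 + 1) + 1 ≤ n / K := (Nat.le_div_iff_mul_le hK).2 (by omega)
  have d2 : N0 + N1 + 1 ≤ N :=
    hN ▸ (Nat.le_div_iff_mul_le (by omega)).2 (by rw [mul_comm]; omega)
  have d3 : 2 * MM k L * N < n / K := by
    have := Nat.mul_div_le (n / K - 1) (2 * MM k L)
    rw [← hN] at this
    omega
  have d4 := Nat.div_le_self n K
  have d5 : n ≤ 5 * K * MM k L * N := by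
    have a := Nat.lt_mul_div_succ n hK
    have b := Nat.lt_mul_div_succ (n / K - 1) (show 0 < 2 * MM k L by omega)
    rw [← hN] at b
    have c : 1 ≤ MM k L * N := Nat.mul_pos M1 (by omega)
    have d : MM k L ≤ MM k L * N := Nat.le_mul_of_pos_right _ (by omega)
    have e : n / K + 1 ≤ 5 * (MM k L * N) := by
      rw [mul_add, mul_one, mul_assoc] at b
      omega
    calc n ≤ K * (5 * (MM k L * N)) := a.le.trans (Nat.mul_le_mul_left _ e)
      _ = _ := by ring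
  have d6 : n * qq k ^ (WW k L).natDegree ≤ η * (N : ℝ) ^ 2 := by
    have a : (n : ℝ) ≤ 5 * K * MM k L * N := by exact_mod_cast d5
    have b : (N1 : ℝ) ≤ N := by exact_mod_cast (by omega : N1 ≤ N)
    rw [div_le_iff₀ η0] at hN1
    calc _ ≤ 5 * K * MM k L * N * qq k ^ (WW k L).natDegree := by gcongr
      _ = 5 * K * MM k L * qq k ^ (WW k L).natDegree * N := by ring
      _ ≤ N1 * η * N := by gcongr
      _ ≤ N * η * N := by gcongr
      _ = _ := by ring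
  rw [card_eq_sum_card_fiberwise (f := fun f => f % WW k L) (t := low k (WW k L).natDegree)
    fun f _ => mod_mem_low W0 f, Nat.cast_sum]
  refine (sum_le_card_nsmul _ _ (ε * (qq k ^ n / qq k ^ (WW k L).natDegree)) fun c hc => ?_).trans_eq
    (by rw [nsmul_eq_mul, card_low']; field_simp)
  have hs3 : ∀ a ∈ s c, a < n := fun a ha => by have := hB c hc a ha; omega
  refine le_trans (Nat.cast_le.2 (card_le_card_of_injOn (· + ((s c).map fun a => X ^ a).sum)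
    (fun f hf => ?_) fun _ _ _ _ e => add_right_cancel e))
    ((cls_zero l1 (N := N) (by omega) (by omega) η0 η1 _ (hP n (by omega) _ (hs2 c))
      (fun h a b d => hC n (by omega) _ _ h a b (by omega)) (hR N (by omega)) (by omega) d6).trans
      (mul_le_mul_of_nonneg_right η2 (by positivity)))
  obtain ⟨f1, f2⟩ := mem_filter.1 (mem_coe.1 hf)
  obtain ⟨f3, f4⟩ := mem_filter.1 f1
  obtain ⟨f5, f6⟩ := mem_Mo.1 (add_mem_Mo f3 (msum_low _ hs3))
  refine mem_coe.2 (mem_filter.2 ⟨mem_Gs.2 ⟨f5, f6, f / WW k L, ?_⟩, fun ⟨p, p1, p2⟩ => f4 ⟨_,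
    (MM k L * (N + p.1)) ::ₘ (MM k L * p.2) ::ₘ s c, p2, ?_, fun a ha => ?_, ?_⟩⟩)
  · rw [← f2]
    linear_combination -EuclideanDomain.div_add_mod f (WW k L)
  · simpa using hs1 c
  · obtain ⟨a1, a2⟩ := mem_product.1 p1
    have a3 := Nat.mul_le_mul_left (MM k L) (mem_Icc.1 a1).2
    have a4 := Nat.mul_le_mul_left (MM k L) (mem_Icc.1 a2).2
    rw [mul_assoc] at d3
    rcases Multiset.mem_cons.1 ha with rfl | ha
    · rw [mul_add]; omega
    rcases Multiset.mem_cons.1 ha with rfl | ha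
    · omega
    · exact hs3 a ha
  · simp only [Multiset.map_cons, Multiset.sum_cons, sh]
    linear_combination -add_self' (X ^ (MM k L * (N + p.1)) + X ^ (MM k L * p.2) +
      ((s c).map fun a => (X : k[X]) ^ a).sum)

end Pool.Agent.P.MP_e94e4b_nt.RP.U.G
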