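import Pool.Agent.P.MP_e94e4b_nt.RP.IfS
import Pool.Agent.P.MP_e94e4b_nt.LG.TPP

/-! The von Mangoldt function on polynomials. -/

namespace Pool.Agent.P.MP_e94e4b_nt.RP.U.G

open Polynomial Finset
open Pool.Agent.P.MP_8be758_nt Pool.Agent.P.MP_8be758_nt.C2 Pool.Agent.P.MP_8be758_nt.L2
open Pool.Agent.P.MP_e94e4b_nt.LG
open scoped Classical

variable {k : Type} [Field k] [Finite k]

/-- the von Mangoldt function -/
noncomputable def La (f : k[X]) : ℝ := if (pf f).card = 1 then (dg (pf f) : ℝ) else 0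

theorem La_nonneg (f : k[X]) : 0 ≤ La f := by unfold La; positivity

theorem La_irr {n : ℕ} {f : k[X]} (hf : f ∈ Mo k n) (hi : Irreducible f) : La f = n := by
  obtain ⟨h1, h2⟩ := mem_Mo.1 hf
  have hp : IsPr f := ⟨h1, hi⟩
  have e : pf f = {f} := by
    simpa [pr] using pf_pr (S := {f}) (fun P hP => by rwa [mem_singleton.1 hP])
  simp [La, e, dg, h2]

theorem pp_of {n : ℕ} {f P : k[X]} (hf : f ∈ Mo k n) (h1 : 1 ≤ n) (h : pf f = {P}) :
    IsPr P ∧ ∃ j, f = P ^ j ∧ j * P.natDegree = n := by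
  obtain ⟨m1, m2⟩ := mem_Mo.1 hf
  obtain ⟨Q, j, hQ, e⟩ := PP_pow m1 (by rw [h, card_singleton])
  have e2 : j * Q.natDegree = n := by rw [← m2, e, natDegree_pow]
  have j0 : j ≠ 0 := by rintro rfl; omega
  have : Q ∈ pf f := (mem_pf m1.ne_zero).2 ⟨hQ, e ▸ dvd_pow_self Q j0⟩
  rw [h, mem_singleton] at this
  subst this
  exact ⟨hQ, j, e, e2⟩

theorem La_sum {n : ℕ} (h1 : 1 ≤ n) {A T : Finset k[X]} (hA : A ⊆ Mo k n)
    (hT : ∀ P j, IsPr P → P ^ j ∈ A → j * P.natDegree = n → P ∈ T) :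
    ∑ f ∈ A, La f ≤ dg T := by
  have a : ∀ f ∈ A, La f ≤ ∑ P ∈ T, if pf f = {P} then (P.natDegree : ℝ) else 0 := fun f hf => by
    unfold La
    split_ifs with c
    · obtain ⟨P, hP⟩ := card_eq_one.1 c
      obtain ⟨p1, j, p2, p3⟩ := pp_of (hA hf) h1 hP
      refine le_trans (le_of_eq ?_) (single_le_sum
        (f := fun P => if pf f = {P} then (P.natDegree : ℝ) else 0)
        (fun _ _ => by positivity) (hT P j p1 (p2 ▸ hf) p3))
      rw [if_pos hP, hP, dg_singleton]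
    · positivity
  refine (sum_le_sum a).trans ?_
  rw [sum_comm, dg, Nat.cast_sum]
  refine sum_le_sum fun P _ => ?_
  rw [← sum_filter, sum_const, nsmul_eq_mul]
  refine mul_le_of_le_one_left (by positivity) (Nat.cast_le_one.2 (card_le_one.2 fun f hf g hg => ?_))
  obtain ⟨p1, j, p2, p3⟩ := pp_of (hA (mem_filter.1 hf).1) h1 (mem_filter.1 hf).2
  obtain ⟨-, i, q2, q3⟩ := pp_of (hA (mem_filter.1 hg).1) h1 (mem_filter.1 hg).2
  rw [p2, q2, Nat.eq_of_mul_eq_mul_right p1.pos (p3.trans q3.symm)]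

theorem La_all {n : ℕ} (h1 : 1 ≤ n) : ∑ f ∈ Mo k n, La f ≤ qq k ^ n := by
  have h0 : (X ^ Nat.card k ^ n - X : k[X]) ≠ 0 :=
    FiniteField.X_pow_card_pow_sub_X_ne_zero _ (by omega) Finite.one_lt_card
  refine (La_sum h1 subset_rfl (T := pf (X ^ Nat.card k ^ n - X)) fun P j hP _ e =>
    (mem_pf h0).2 ⟨hP, hP.2.natDegree_dvd_iff_dvd_X_pow_card_pow_sub_X.1
      (Dvd.intro_left j e)⟩).trans ?_
  have := dg_pf_le h0
  rw [FiniteField.X_pow_card_pow_sub_X_natDegree_eq _ (by omega) Finite.one_lt_card] at this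
  unfold qq
  exact_mod_cast this

theorem La_red {n : ℕ} (h1 : 1 ≤ n) :
    ∑ f ∈ (Mo k n).filter (fun f => ¬ Irreducible f), La f ≤ 2 * qq k ^ (n / 2) := by
  refine (La_sum h1 (filter_subset _ _) fun P j hP hf e => mem_Pr.2 ⟨hP, ?_⟩).trans (GAUSS_pr _)
  rcases j with _ | _ | j
  · omega
  · exact absurd (by simpa using hP.2) (mem_filter.1 hf).2
  · exact (Nat.le_div_iff_mul_le two_pos).2 (by nlinarith)

theorem gauss_low {a : ℕ} (ha : 1 ≤ a) :
    qq k ^ a ≤ a * (Pd k a).card + 2 * qq k ^ (a / 2) := by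
  have e : (dg (Pd k a) : ℝ) = a * (Pd k a).card := by rw [GAUSS_dg, Nat.cast_mul]
  obtain ⟨p, hp⟩ := CharP.exists k
  have := Fintype.ofFinite k
  obtain ⟨n, -, hn⟩ := FiniteField.card k p
  have h1 : Squarefree (X ^ Nat.card k ^ a - X : k[X]) :=
    (galois_poly_separable p _ (dvd_pow (by
      rw [Nat.card_eq_fintype_card, hn]; exact dvd_pow_self _ n.ne_zero) (by omega))).squarefree
  have h2 := GAUSS_sf h1
  rw [FiniteField.X_pow_card_pow_sub_X_natDegree_eq _ (by omega) Finite.one_lt_card] at h2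
  have h3 : pf (X ^ Nat.card k ^ a - X : k[X]) ⊆ Pd k a ∪ Pr k (a / 2) := fun P hP => by
    obtain ⟨b, c⟩ := (mem_pf h1.ne_zero).1 hP
    obtain ⟨d, hd⟩ := b.2.natDegree_dvd_iff_dvd_X_pow_card_pow_sub_X.2 c
    rw [mem_union, mem_Pd, mem_Pr]
    rcases d with _ | _ | d
    · omega
    · exact .inl ⟨b, by omega⟩
    · exact .inr ⟨b, (Nat.le_div_iff_mul_le two_pos).2
        (hd ▸ Nat.mul_le_mul_left _ (by omega))⟩
  have h5 : qq k ^ a ≤ dg (Pd k a) + dg (Pr k (a / 2)) := by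
    unfold qq
    exact_mod_cast h2.trans ((dg_mono h3).trans (dg_union_le _ _))
  linarith [GAUSS_pr (k := k) (a / 2)]

theorem pc_lt {P : k[X]} (hP : IsPr P) : 0 ≤ pc 1 P ∧ pc 1 P ≤ 1 / 2 := by
  have q0 := qq_pos (k := k)
  refine ⟨by unfold pc; positivity, one_div_le_one_div_of_le (by norm_num) ?_⟩
  exact two_le_qq.trans (le_self_pow₀ one_le_qq (Nat.one_le_iff_ne_zero.1 hP.pos))

theorem VV_pos {T : Finset k[X]} (hT : ∀ P ∈ T, IsPr P) :
    0 < VV (pc 1) T ∧ VV (pc 1) T ≤ 1 :=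
  ⟨prod_pos fun P hP => by linarith [(pc_lt (hT P hP)).2],
    prod_le_one (fun P hP => by linarith [(pc_lt (hT P hP)).2])
      fun P hP => by linarith [(pc_lt (hT P hP)).1]⟩

end Pool.Agent.P.MP_e94e4b_nt.RP.U.G
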