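import Pool.Agent.P.MP_42fc1a_nt.TU.GCls

/-! Primes in a class to a fixed modulus. -/

set_option linter.unusedSectionVars false

namespace Pool.Agent.P.MP_e94e4b_nt.RP.U.G

open Polynomial Finset
open Pool.Agent.P.MP_8be758_nt Pool.Agent.P.MP_8be758_nt.C2 Pool.Agent.P.MP_8be758_nt.L2
open Pool.Agent.P.MP_e94e4b_nt.LG
open scoped Classical

variable {k : Type} [Field k] [Finite k]

/-- the number of primes in a class -/
noncomputable def N1 (W c : k[X]) (n : ℕ) : ℝ := (((Gs W c n).filter Irreducible).card : ℝ)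

theorem td_eq (W c : k[X]) (D j : ℕ) : ∑ f ∈ Gs W c (D + j), DS D mu f =
    ∑ d ∈ Mo k D, ∑ e ∈ Mo k j, if W ∣ d * e - c then mu d else 0 := by
  have e : Gs W c (D + j) = (Mo k (D + j)).filter fun f => W ∣ f - c := by
    ext f
    simp only [mem_filter, mem_Gs, mem_Mo, and_assoc]
  rw [← sum_Mo_dvd, e, sum_filter]
  refine sum_congr rfl fun f _ => ?_
  rw [sum_congr rfl (g := fun d => if W ∣ f - c then mu d else 0) fun d hd => by
    obtain ⟨d1, x, rfl⟩ := mem_filter.1 hd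
    rw [mul_divByMonic_cancel_left _ (mem_Mo.1 d1).1]]
  split_ifs
  · rfl
  · simp

theorem cop_of {W c d e : k[X]} (hc : IsCoprime c W) (h : W ∣ d * e - c) :
    IsCoprime d W ∧ IsCoprime e W := by
  obtain ⟨x, hx⟩ := h
  have : IsCoprime (d * e) W := by
    rw [eq_add_of_sub_eq' hx]
    exact hc.add_mul_left_left x
  exact ⟨this.of_mul_left_left, this.of_mul_left_right⟩

theorem td_low {W c : k[X]} (hW : W ≠ 0) (hc : IsCoprime c W) (D : ℕ) {j : ℕ}
    (hj : W.natDegree ≤ j) : ∑ f ∈ Gs W c (D + j), DS D mu f =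
      ∑ d ∈ Mo k D, if IsCoprime d W then qq k ^ j / qq k ^ W.natDegree * mu d else 0 := by
  rw [td_eq]
  refine sum_congr rfl fun d _ => ?_
  split_ifs with h
  · obtain ⟨u, v, e⟩ := h
    rw [← sum_filter, sum_const, nsmul_eq_mul, ← card_Gs hW (u * c) hj]
    congr 3
    ext x
    simp only [mem_filter, mem_Gs, mem_Mo, and_assoc]
    exact and_congr_right fun _ => and_congr_right fun _ =>
      ⟨fun ⟨y, a⟩ => ⟨u * y + v * x, by linear_combination u * a - x * e⟩,
        fun ⟨y, a⟩ => ⟨d * y - v * c, by linear_combination d * a + c * e⟩⟩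
  · exact sum_eq_zero fun e _ => if_neg fun a => h (cop_of hc a).1

theorem pnt [CharP k 2] (hMAP : S_MAP) (hU0 : S_U0) {W : k[X]} (hW : W ≠ 0) {η : ℝ} (hη : 0 < η) :
    ∃ n0 : ℕ, ∀ n, n0 ≤ n → ∀ c, IsCoprime c W →
      (1 - η) * (qq k ^ n / qq k ^ W.natDegree) ≤ n * N1 W c n * VV (pc 1) (pf W) := by
  obtain ⟨κ, D0, hκ, hM⟩ := hMAP
  have hq := qq_pos (k := k)
  obtain ⟨w, hw⟩ : ∃ w, w = W.natDegree := ⟨_, rfl⟩
  obtain ⟨n1, h1⟩ := NEG 2 (2 * κ) (2 * qq k ^ w) (η / 2) (by omega) (by positivity)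
  obtain ⟨n2, h2⟩ := NEG 0 2 (4 * qq k ^ w) (η / 2) (by omega) (by positivity)
  refine ⟨n1 + n2 + 2 * w + 2 * D0 + 1, fun n hn c hc => ?_⟩
  have hi : ∀ c, IsCoprime c W → ∀ D j, D + j = n → n ≤ 2 * D →
      |∑ f ∈ Gs W c n, DS D mu f| ≤ qq k ^ n / qq k ^ (n / (2 * κ)) := fun c hc D j e hD => by
    subst e
    rw [td_eq, sum_comm]
    refine (abs_sum_le_sum_abs _ _).trans ((sum_le_card_nsmul _ _
      (qq k ^ D / qq k ^ ((D + j) / (2 * κ))) fun e _ => ?_).trans_eq ?_)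
    · rw [← sum_filter]
      rcases ((Mo k D).filter fun d => W ∣ d * e - c).eq_empty_or_nonempty with h | ⟨d0, h⟩
      · rw [h, sum_empty, abs_zero]; positivity
      obtain ⟨d1, d2⟩ := mem_filter.1 h
      rw [filter_congr (q := fun d => d - d0 ∈ low k D ∧ W ∣ d - d0) fun d hd => ?_,
        le_div_iff₀ (by positivity)]
      · refine le_trans (mul_le_mul_of_nonneg_left (qq_pow_mono ?_) (abs_nonneg _))
          (hM k d0 W D D hW d1 le_rfl (by omega))
        rw [← Nat.div_div_eq_div_mul]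
        exact Nat.div_le_div_right (by omega)
      · obtain ⟨a1, a2⟩ := mem_Mo.1 hd
        obtain ⟨a3, a4⟩ := mem_Mo.1 d1
        refine ⟨fun a => ⟨a2 ▸ sub_mem_low_of_monic a1 a3 (a2.trans a4.symm),
          (cop_of hc a).2.symm.dvd_of_dvd_mul_right ?_⟩, fun a => ?_⟩
        · simpa [sub_mul] using dvd_sub a d2
        · simpa [sub_mul] using dvd_add (a.2.mul_right e) d2
    · rw [nsmul_eq_mul, card_Mo, pow_add]
      ring
  have hS : ∀ c, ∑ f ∈ Gs W c n, La f =
      -∑ D ∈ range (n + 1), (D : ℝ) * ∑ f ∈ Gs W c n, DS D mu f := fun c => by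
    simp only [mul_sum]
    rw [sum_comm, ← sum_neg_distrib]
    refine sum_congr rfl fun f hf => ?_
    obtain ⟨f1, f2, -⟩ := mem_Gs.1 hf
    have := (hU0 k f f1 (by omega)).2
    rw [f2] at this
    rw [this, neg_neg, La]
  obtain ⟨Δ, hΔ⟩ : ∃ Δ, Δ = qq k ^ n / qq k ^ (n / (2 * κ)) := ⟨_, rfl⟩
  have Δ0 : 0 ≤ Δ := by rw [hΔ]; positivity
  rw [← hΔ] at hi
  have df : ∀ b, IsCoprime b W →
      ∑ f ∈ Gs W b n, La f ≤ ∑ f ∈ Gs W c n, La f + 2 * ((n : ℝ) + 1) ^ 2 * Δ := fun b hb => by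
    rw [hS, hS, ← sub_le_iff_le_add', neg_sub_neg, ← sum_sub_distrib]
    refine (sum_le_card_nsmul _ _ ((n + 1) * (2 * Δ)) fun D hD => ?_).trans_eq ?_
    · obtain ⟨j, hj⟩ := Nat.exists_eq_add_of_le (Nat.lt_succ_iff.1 (mem_range.1 hD))
      rw [← mul_sub]
      rcases le_or_gt w j with h | h
      · rw [hj, td_low hW hb D (hw ▸ h), td_low hW hc D (hw ▸ h), sub_self, mul_zero]
        positivity
      · have a := abs_le.1 (hi b hb D j hj.symm (by omega))
        have b := abs_le.1 (hi c hc D j hj.symm (by omega))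
        have d : (D : ℝ) ≤ n + 1 := by exact_mod_cast (mem_range.1 hD).le
        exact (mul_le_mul_of_nonneg_left (show _ ≤ 2 * Δ by linarith) (Nat.cast_nonneg _)).trans
          (mul_le_mul_of_nonneg_right d (by positivity))
    · rw [card_range, nsmul_eq_mul]
      push_cast
      ring
  obtain ⟨s1, s2⟩ := VV_pos (T := pf W) fun _ => isPr_of_mem_pf
  have ph : (((low k w).filter (fun b => IsCoprime b W)).card : ℝ) =
      qq k ^ w * VV (pc 1) (pf W) := by
    have e : eu (-1) (pf W) = (VV (pc 1) (pf W))⁻¹ := by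
      rw [eu, VV, ← prod_inv_distrib]
      exact prod_congr rfl fun P _ => by rw [pc, neg_div, sub_eq_add_neg]
    rw [hw, ← phi_eq hW, e, inv_mul_cancel_right₀ s1.ne']
  have lo : (n : ℝ) * (Pd k n).card ≤
      ∑ b ∈ (low k w).filter (fun b => IsCoprime b W), ∑ f ∈ Gs W b n, La f := by
    rw [mul_comm, ← nsmul_eq_mul, ← sum_const, ← sum_fiberwise_of_maps_to (g := fun P => P % W)
      (t := (low k w).filter fun b => IsCoprime b W) fun P hP => ?_]
    · refine sum_le_sum fun b _ => (sum_congr rfl fun P hP => ?_).trans_le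
        (sum_le_sum_of_subset_of_nonneg (fun P hP => ?_) fun f _ _ => La_nonneg f)
      · obtain ⟨p1, p2⟩ := mem_Pd.1 (mem_filter.1 hP).1
        exact (La_irr (mem_Mo.2 ⟨p1.1, p2⟩) p1.2).symm
      · obtain ⟨p0, p3⟩ := mem_filter.1 hP
        obtain ⟨p1, p2⟩ := mem_Pd.1 p0
        exact mem_Gs.2 ⟨p1.1, p2, P / W, by
          rw [← p3]; linear_combination -EuclideanDomain.div_add_mod P W⟩
    · obtain ⟨p1, p2⟩ := mem_Pd.1 hP
      have : IsCoprime P W := p1.2.coprime_iff_not_dvd.2 fun d =>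
        absurd (natDegree_le_of_dvd d hW) (by omega)
      rw [← EuclideanDomain.div_add_mod P W, add_comm] at this
      exact mem_filter.2 ⟨hw ▸ mod_mem_low hW P, this.of_add_mul_left_left⟩
  have hi2 : ∑ f ∈ Gs W c n, La f ≤ n * N1 W c n + 2 * qq k ^ (n / 2) := by
    rw [← sum_filter_add_sum_filter_not _ Irreducible]
    refine add_le_add (le_of_eq ?_) ((sum_le_sum_of_subset_of_nonneg (fun f hf => mem_filter.2
      ⟨Gs_Mo (mem_filter.1 hf).1, (mem_filter.1 hf).2⟩) fun f _ _ => La_nonneg f).trans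
      (La_red (by omega)))
    rw [sum_congr rfl fun f hf => La_irr (Gs_Mo (mem_filter.1 hf).1) (mem_filter.1 hf).2,
      sum_const, nsmul_eq_mul, N1, mul_comm]
  have a1 := lo.trans (sum_le_card_nsmul _ _ _ fun b hb => df b (mem_filter.1 hb).2)
  rw [nsmul_eq_mul, ph] at a1
  have a2 := gauss_low (k := k) (a := n) (by omega)
  have w1 : 1 ≤ qq k ^ w := one_le_pow₀ one_le_qq
  have b1 : qq k ^ w * (2 * ((n : ℝ) + 1) ^ 2 * Δ) ≤ η / 2 * qq k ^ n := by
    have := (h1 n (by omega)).trans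
      (mul_le_mul_of_nonneg_left (two_pow_le_qq (k := k) _) (by positivity))
    rw [hΔ, ← mul_assoc, ← mul_div_assoc, div_le_iff₀ (by positivity)]
    nlinarith [mul_le_mul_of_nonneg_right this (pow_pos hq n).le]
  have b2 : 4 * qq k ^ w * qq k ^ (n / 2) ≤ η / 2 * qq k ^ n := by
    have := (h2 n (by omega)).trans
      (mul_le_mul_of_nonneg_left (two_pow_le_qq (k := k) _) (by positivity))
    rw [pow_zero, mul_one] at this
    refine (mul_le_mul_of_nonneg_right this (by positivity)).trans ?_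
    rw [mul_assoc, ← pow_add]
    exact mul_le_mul_of_nonneg_left (qq_pow_mono (by omega)) (by positivity)
  have b3 : qq k ^ w * VV (pc 1) (pf W) * (∑ f ∈ Gs W c n, La f + 2 * ((n : ℝ) + 1) ^ 2 * Δ) ≤
      qq k ^ w * VV (pc 1) (pf W) * (n * N1 W c n) +
        qq k ^ w * 1 * (2 * qq k ^ (n / 2) + 2 * ((n : ℝ) + 1) ^ 2 * Δ) := by
    refine (mul_le_mul_of_nonneg_left (add_le_add hi2 le_rfl) (by positivity)).trans ?_
    rw [add_assoc, mul_add]
    gcongr
  have b4 := mul_le_mul_of_nonneg_right w1 (pow_pos hq (n / 2)).le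
  rw [← hw, ← mul_div_assoc, div_le_iff₀ (by positivity)]
  linarith

end Pool.Agent.P.MP_e94e4b_nt.RP.U.G
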