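import Pool.Agent.P.MP_42fc1a_nt.TU.GLam

/-! The singular factor on average over the shifts. -/

set_option linter.unusedSectionVars false

namespace Pool.Agent.P.MP_e94e4b_nt.RP.U.G

open Polynomial Finset Filter
open Pool.Agent.P.MP_8be758_nt Pool.Agent.P.MP_8be758_nt.C2 Pool.Agent.P.MP_8be758_nt.L2
open Pool.Agent.P.MP_e94e4b_nt.LG
open scoped Classical Topology

/-- the product of the primes whose degree divides `L` -/
noncomputable def WW (k : Type) [Field k] (L : ℕ) : k[X] := X ^ Nat.card k ^ L - X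

/-- the step of the exponents -/
noncomputable def MM (k : Type) (L : ℕ) : ℕ := Nat.card k ^ L - 1

variable {k : Type} [Field k] [Finite k]

theorem MM_pos {L : ℕ} (hL : 1 ≤ L) : 1 ≤ MM k L := by
  have := Nat.one_lt_pow (n := L) (by omega) (Finite.one_lt_card (α := k))
  unfold MM; omega

theorem WW_ne {L : ℕ} (hL : 1 ≤ L) : WW k L ≠ 0 :=
  FiniteField.X_pow_card_pow_sub_X_ne_zero _ (by omega) Finite.one_lt_card

theorem WW_eq (L : ℕ) : WW k L = X * (X ^ MM k L - 1) := by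
  have := Nat.one_le_pow L _ (Nat.card_pos (α := k))
  rw [WW, MM, mul_sub, ← pow_succ', Nat.sub_add_cancel this, mul_one]

theorem dvd_WW {L : ℕ} {P : k[X]} (hP : IsPr P) : P ∣ WW k L ↔ P.natDegree ∣ L :=
  hP.2.natDegree_dvd_iff_dvd_X_pow_card_pow_sub_X.symm

theorem dvd_pow_iff (P : k[X]) (a : ℕ) : P ∣ X ^ a - 1 ↔ AdjoinRoot.root P ^ a = 1 := by
  rw [← AdjoinRoot.mk_eq_zero, map_sub, map_pow, map_one, AdjoinRoot.mk_X, sub_eq_zero]

/-- the excess of the singular factor -/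
noncomputable def gp (P : k[X]) : ℝ := (1 - pc 1 P)⁻¹ - 1

theorem gp_bd {P : k[X]} (hP : IsPr P) : 0 ≤ gp P ∧ gp P ≤ pc 2 P := by
  obtain ⟨a, b⟩ := pc_lt hP
  have e : pc 2 P = 2 * pc 1 P := by unfold pc; ring
  rw [gp, e, sub_nonneg, sub_le_iff_le_add, inv_le_iff_one_le_mul₀ (by linarith)]
  exact ⟨one_le_inv_iff₀.2 ⟨by linarith, by linarith⟩, by nlinarith⟩

theorem inv_VV (T : Finset k[X]) : (VV (pc 1) T)⁻¹ = ∏ P ∈ T, (1 + gp P) := by
  rw [VV, ← prod_inv_distrib]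
  exact prod_congr rfl fun P _ => by rw [gp]; ring

theorem prod_le_exp {T : Finset k[X]} (hT : ∀ P ∈ T, IsPr P) {B : ℝ} (h : ∑ P ∈ T, gp P ≤ B) :
    ∏ P ∈ T, (1 + gp P) ≤ Real.exp B := by
  refine le_trans ?_ (Real.exp_le_exp.2 h)
  rw [Real.exp_sum]
  exact prod_le_prod (fun P hP => by linarith [(gp_bd (hT P hP)).1])
    fun P _ => by linarith [Real.add_one_le_exp (gp P)]

theorem prod_mono {S T : Finset k[X]} (hT : ∀ P ∈ T, IsPr P) (h : S ⊆ T) :
    ∏ P ∈ S, (1 + gp P) ≤ ∏ P ∈ T, (1 + gp P) :=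
  prod_le_prod_of_subset_of_one_le h (fun P hP => by linarith [(gp_bd (hT P (h hP))).1])
    fun P hP _ => by linarith [(gp_bd (hT P hP)).1]

theorem prod_JJ (hM : S_MER3) {S : Finset k[X]} {b : ℕ} (hb : 1 ≤ b) (h : S ⊆ JJ k 1 b) :
    ∏ P ∈ S, (1 + gp P) ≤ (b : ℝ) ^ 2 := by
  have hp : ∀ P ∈ JJ k 1 b, IsPr P := fun P hP => (mem_JJ.1 hP).1
  refine (prod_mono hp h).trans (le_trans (prod_le_prod
    (fun P hP => by linarith [(gp_bd (hp P hP)).1])
    fun P hP => add_le_add le_rfl (gp_bd (hp P hP)).2)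
    ((hM k 2 1 b le_rfl hb).trans_eq (by simp)))

/-- the large primes -/
theorem big_primes {h : k[X]} (h0 : h ≠ 0) {Y : ℕ} (hY : h.natDegree ≤ 2 ^ Y) :
    ∑ P ∈ pf h \ Pr k Y, gp P ≤ 1 / ((Y : ℝ) + 1) := by
  have a : ∀ P ∈ pf h \ Pr k Y, gp P * ((Y : ℝ) + 1) ≤ P.natDegree / 2 ^ Y := fun P hP => by
    obtain ⟨p1, p2⟩ := mem_sdiff.1 hP
    have p3 := isPr_of_mem_pf p1
    have p4 : Y + 1 ≤ P.natDegree := not_le.1 fun c => p2 (mem_Pr.2 ⟨p3, c⟩)
    have p5 : gp P ≤ 1 / 2 ^ Y := by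
      refine (gp_bd p3).2.trans ?_
      rw [pc, div_le_div_iff₀ (pow_pos qq_pos _) (by positivity), one_mul, ← pow_succ']
      exact (two_pow_le_qq _).trans (qq_pow_mono p4)
    rw [mul_comm, div_eq_mul_one_div]
    exact mul_le_mul (by exact_mod_cast p4) p5 (gp_bd p3).1 (by positivity)
  rw [le_div_iff₀ (by positivity), sum_mul]
  refine (sum_le_sum a).trans ?_
  rw [← sum_div, div_le_one (by positivity)]
  exact_mod_cast ((dg_mono sdiff_subset).trans (dg_pf_le h0)).trans hY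

/-- the step has small order modulo `P` -/
def Sm (L m : ℕ) (P : k[X]) : Prop := ∃ t ∈ Ico 1 (2 ^ (m + 1)), P ∣ X ^ (MM k L * t) - 1

/-- the primes modulo which the step has small order -/
noncomputable def Tm (L Y m : ℕ) : Finset k[X] := (Pr k Y \ pf (WW k L)).filter (Sm L m)

theorem out_spec {L Y : ℕ} (hL : 1 ≤ L) {P : k[X]} (h : P ∈ Pr k Y \ pf (WW k L)) :
    IsPr P ∧ P.natDegree ≤ Y ∧ ¬ P.natDegree ∣ L ∧ ¬ P ∣ X := by
  obtain ⟨a, b⟩ := mem_sdiff.1 h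
  obtain ⟨c, d⟩ := mem_Pr.1 a
  have e : ¬ P ∣ WW k L := fun e => b ((mem_pf (WW_ne hL)).2 ⟨c, e⟩)
  exact ⟨c, d, fun f => e ((dvd_WW c).2 f), fun f => e (WW_eq (k := k) L ▸ f.mul_right _)⟩

theorem card_Tm {L : ℕ} (hL : 1 ≤ L) (Y m d : ℕ) :
    ((Tm (k := k) L Y m).filter fun P => P.natDegree = d).card ≤
      4 ^ (m + 1) * Nat.card k ^ (d / 2) := by
  rcases ((Tm (k := k) L Y m).filter fun P => P.natDegree = d).eq_empty_or_nonempty with
    h | ⟨P0, h⟩
  · simp [h]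
  obtain ⟨a1, -, a2, -⟩ := out_spec hL (mem_filter.1 (mem_filter.1 h).1).1
  rw [(mem_filter.1 h).2] at a2
  have d1 : 1 ≤ d := (mem_filter.1 h).2 ▸ a1.pos
  have g1 : Nat.gcd d L ≤ d / 2 := by
    obtain ⟨c, hc⟩ := Nat.gcd_dvd_left d L
    rcases c with _ | _ | c
    · omega
    · exact absurd (by rw [hc]; simpa using Nat.gcd_dvd_right d L) a2
    · exact (Nat.le_div_iff_mul_le two_pos).2 (by nlinarith)
  have g2 : ∀ t, 1 ≤ t → Nat.gcd (MM k d) (MM k L * t) ≤ Nat.card k ^ (d / 2) * t := fun t ht => by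
    refine (Nat.le_of_dvd (Nat.mul_pos (Nat.gcd_pos_of_pos_left _ (MM_pos d1))
      (Nat.gcd_pos_of_pos_left _ (MM_pos d1))) (Nat.gcd_mul_right_dvd_mul_gcd _ _ _)).trans
      (Nat.mul_le_mul ?_ (Nat.gcd_le_right _ ht))
    rw [MM, MM, Nat.pow_sub_one_gcd_pow_sub_one]
    exact (Nat.sub_le _ _).trans (Nat.pow_le_pow_right Nat.card_pos g1)
  have n0 : ∀ g, 1 ≤ g → (X ^ g - 1 : k[X]) ≠ 0 := fun g hg => by
    simpa using X_pow_sub_C_ne_zero (R := k) hg 1
  refine (card_le_card (t := (Ico 1 (2 ^ (m + 1))).biUnion fun t =>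
    pf (X ^ Nat.gcd (MM k d) (MM k L * t) - 1)) fun P hP => ?_).trans (card_biUnion_le.trans ?_)
  · obtain ⟨p1, p2⟩ := mem_filter.1 hP
    obtain ⟨p3, t, t1, t2⟩ := mem_filter.1 p1
    obtain ⟨b1, -, -, b2⟩ := out_spec hL p3
    refine mem_biUnion.2 ⟨t, t1, (mem_pf (n0 _ (Nat.gcd_pos_of_pos_left _ (MM_pos d1)))).2
      ⟨b1, (dvd_pow_iff _ _).2 (pow_gcd_eq_one.2 ⟨(dvd_pow_iff _ _).1 ?_, (dvd_pow_iff _ _).1 t2⟩)⟩⟩
    exact (b1.prime.dvd_or_dvd (WW_eq (k := k) d ▸ (dvd_WW b1).2 p2.dvd)).resolve_left b2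
  · refine (sum_le_card_nsmul _ _ (Nat.card k ^ (d / 2) * 2 ^ (m + 1)) fun t ht => ?_).trans ?_
    · obtain ⟨t1, t2⟩ := mem_Ico.1 ht
      refine (card_le_dg fun _ => isPr_of_mem_pf).trans
        ((dg_pf_le (n0 _ (Nat.gcd_pos_of_pos_left _ (MM_pos d1)))).trans ?_)
      rw [← C_1, natDegree_X_pow_sub_C]
      exact (g2 t t1).trans (Nat.mul_le_mul_left _ t2.le)
    · rw [Nat.card_Ico, smul_eq_mul, mul_comm (Nat.card k ^ _), ← mul_assoc,
        show 4 = 2 * 2 from rfl, mul_pow]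
      exact Nat.mul_le_mul_right _ (Nat.mul_le_mul_right _ (Nat.sub_le _ _))

theorem half_le (d : ℕ) : qq k ^ (d / 2) / qq k ^ d ≤ (3 / 4) ^ d := by
  have q0 := qq_pos (k := k)
  have a : (1 : ℝ) ≤ (3 / 4) ^ d * 2 ^ (d - d / 2) := by
    refine le_of_sq_le_sq ?_ (by positivity) 
    rw [one_pow, mul_pow, ← pow_mul, ← pow_mul, mul_comm d, pow_mul]
    calc (1 : ℝ) ≤ ((3 / 4) ^ 2 * 2) ^ d := one_le_pow₀ (by norm_num)
      _ ≤ _ := by
        rw [mul_pow]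
        exact mul_le_mul_of_nonneg_left (pow_le_pow_right₀ one_le_two (by omega)) (by positivity)
  rw [div_le_iff₀ (by positivity)]
  calc qq k ^ (d / 2) ≤ (3 / 4) ^ d * 2 ^ (d - d / 2) * qq k ^ (d / 2) :=
        le_mul_of_one_le_left (by positivity) a
    _ ≤ (3 / 4) ^ d * qq k ^ (d - d / 2) * qq k ^ (d / 2) := by
        gcongr
        exact two_le_qq
    _ = _ := by rw [mul_assoc, ← pow_add, Nat.sub_add_cancel (Nat.div_le_self _ _)]

theorem sum_Tm {L : ℕ} (hL : 1 ≤ L) (Y m D : ℕ) :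
    ∑ P ∈ (Tm (k := k) L Y m).filter (fun P => D < P.natDegree), gp P ≤
      6 * 4 ^ (m + 1) * (3 / 4) ^ D := by
  have q0 := qq_pos (k := k)
  have s := fun P (hP : P ∈ Tm (k := k) L Y m) => out_spec hL (mem_filter.1 hP).1
  rw [← sum_fiberwise_of_maps_to (s := (Tm (k := k) L Y m).filter fun P => D < P.natDegree)
    (t := Ico (D + 1) (D + 1 + Y)) (g := fun P : k[X] => P.natDegree) fun P hP => mem_Ico.2 ⟨(mem_filter.1 hP).2, by have := (s P (mem_filter.1 hP).1).2.1; omega⟩]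
  refine (sum_le_sum (g := fun d => 2 * 4 ^ (m + 1) * (3 / 4 : ℝ) ^ d) fun d _ => ?_).trans ?_
  · refine (sum_le_card_nsmul _ _ (2 / qq k ^ d) fun P hP => ?_).trans ?_
    · obtain ⟨p1, p2⟩ := mem_filter.1 hP
      exact p2 ▸ (gp_bd (s P (mem_filter.1 p1).1).1).2
    · have c : ((((Tm (k := k) L Y m).filter fun P => D < P.natDegree).filter
          fun P => P.natDegree = d).card : ℝ) ≤ 4 ^ (m + 1) * qq k ^ (d / 2) := by
        unfold qq
        exact_mod_cast (card_le_card (filter_subset_filter _ (filter_subset _ _))).trans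
          (card_Tm hL Y m d)
      rw [nsmul_eq_mul]
      calc _ ≤ 4 ^ (m + 1) * qq k ^ (d / 2) * (2 / qq k ^ d) := by gcongr
        _ = 2 * 4 ^ (m + 1) * (qq k ^ (d / 2) / qq k ^ d) := by ring
        _ ≤ _ := by gcongr; exact half_le d
  · rw [← mul_sum]
    have := geom_sum_Ico_le_of_lt_one (x := (3 / 4 : ℝ)) (by norm_num) (by norm_num)
      (m := D + 1) (n := D + 1 + Y)
    calc _ ≤ 2 * 4 ^ (m + 1) * ((3 / 4 : ℝ) ^ (D + 1) / (1 - 3 / 4)) := by gcongr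
      _ = _ := by ring

theorem prod_Tm (hM : S_MER3) {L : ℕ} (hL : 1 ≤ L) (Y m : ℕ) :
    ∏ P ∈ Tm (k := k) L Y m, (1 + gp P) ≤ 25 * Real.exp 6 * ((m : ℝ) + 1) ^ 2 := by
  have s := fun P (hP : P ∈ Tm (k := k) L Y m) => out_spec hL (mem_filter.1 hP).1
  rw [← prod_filter_mul_prod_filter_not _ fun P => 5 * (m + 1) < P.natDegree]
  have a := prod_le_exp (B := 6) (fun P hP => (s P (mem_filter.1 hP).1).1)
    ((sum_Tm (k := k) hL Y m (5 * (m + 1))).trans (by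
      rw [pow_mul, mul_assoc, ← mul_pow]
      exact mul_le_of_le_one_right (by norm_num) (pow_le_one₀ (by norm_num) (by norm_num))))
  have b := prod_JJ hM (b := 5 * (m + 1)) (by omega)
    (S := (Tm (k := k) L Y m).filter fun P => ¬ 5 * (m + 1) < P.natDegree) fun P hP => by
      obtain ⟨p1, p2⟩ := mem_filter.1 hP
      obtain ⟨p3, -, p4, -⟩ := s P p1
      refine mem_JJ.2 ⟨p3, lt_of_le_of_ne p3.pos fun e => p4 (e ▸ one_dvd _), not_lt.1 p2⟩
  refine (mul_le_mul a b (prod_nonneg fun P hP => by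
    linarith [(gp_bd (s P (mem_filter.1 hP).1).1).1]) (by positivity)).trans_eq ?_
  push_cast
  ring

theorem tau (hM : S_MER3) {ε : ℝ} (hε : 0 < ε) : ∃ L : ℕ, 1 ≤ L ∧ ∀ Y B : ℕ,
    ∑ m ∈ range B, (1 / 2 : ℝ) ^ m * (∏ P ∈ Tm (k := k) L Y m, (1 + gp P) - 1) ≤ ε := by
  have hs : Summable fun m : ℕ => 25 * Real.exp 6 * (((m : ℝ) + 1) ^ 2 * (1 / 2) ^ m) := by
    refine Summable.mul_left _ ?_
    have := (summable_nat_add_iff 1).2
      (summable_pow_mul_geometric_of_norm_lt_one 2 (r := (1 / 2 : ℝ)) (by norm_num))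
    refine (this.mul_left 2).congr fun m => ?_
    push_cast
    ring
  obtain ⟨s, hs⟩ := summable_iff_vanishing_norm.1 hs (ε / 2) (by positivity)
  obtain ⟨m0, hm0⟩ := s.exists_nat_subset_range
  have ht : Tendsto (fun J : ℕ => Real.exp (6 * 4 ^ m0 * (3 / 4) ^ J)) atTop (𝓝 1) := by
    have := (Real.continuous_exp.tendsto _).comp ((tendsto_pow_atTop_nhds_zero_of_lt_one
      (r := (3 / 4 : ℝ)) (by norm_num) (by norm_num)).const_mul (6 * 4 ^ m0))
    simpa [Function.comp_def] using this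
  obtain ⟨J, hJ⟩ := (ht.eventually_le_const (show (1 : ℝ) < 1 + ε / 4 by linarith)).exists
  have hL : 1 ≤ J.factorial := J.factorial_pos
  refine ⟨_, hL, fun Y B => ?_⟩
  rw [← sum_filter_add_sum_filter_not _ fun m => m < m0]
  have a : ∑ m ∈ (range B).filter (fun m => m < m0),
      (1 / 2 : ℝ) ^ m * (∏ P ∈ Tm (k := k) J.factorial Y m, (1 + gp P) - 1) ≤ 2 * (ε / 4) := by
    refine (sum_le_sum (g := fun m => (1 / 2 : ℝ) ^ m * (ε / 4)) fun m hm => ?_).trans ?_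
    · have s := fun P (hP : P ∈ Tm (k := k) J.factorial Y m) => out_spec hL (mem_filter.1 hP).1
      have b := sum_Tm (k := k) hL Y m J
      rw [filter_true_of_mem fun P hP => not_le.1 fun c =>
        (s P hP).2.2.1 (Nat.dvd_factorial (s P hP).1.pos c)] at b
      have c := prod_le_exp (B := 6 * 4 ^ m0 * (3 / 4) ^ J) (fun P hP => (s P hP).1) (b.trans (by
        gcongr
        · norm_num
        · exact (mem_filter.1 hm).2))
      exact mul_le_mul_of_nonneg_left (by linarith) (by positivity)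
    · rw [← sum_mul]
      exact mul_le_mul_of_nonneg_right ((sum_le_sum_of_subset_of_nonneg (filter_subset _ _)
        fun _ _ _ => by positivity).trans (sum_geometric_two_le B)) (by positivity)
  have b := (le_abs_self _).trans (hs ((range B).filter fun m => ¬ m < m0)
    (disjoint_left.2 fun m h1 h2 => (mem_filter.1 h1).2 (mem_range.1 (hm0 h2)))).le
  have c : ∑ m ∈ (range B).filter (fun m => ¬ m < m0),
      (1 / 2 : ℝ) ^ m * (∏ P ∈ Tm (k := k) J.factorial Y m, (1 + gp P) - 1) ≤ _ :=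
    (sum_le_sum fun m _ => by
      have := prod_Tm (k := k) hM hL Y m
      calc _ ≤ (1 / 2 : ℝ) ^ m * (25 * Real.exp 6 * ((m : ℝ) + 1) ^ 2) :=
            mul_le_mul_of_nonneg_left (by linarith) (by positivity)
        _ = _ := by ring).trans b
  linarith

end Pool.Agent.P.MP_e94e4b_nt.RP.U.G
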