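import Pool.Agent.P.MP_42fc1a_nt.TU.GLam
import Pool.Agent.P.MP_0a67b8_nt.RU.TIDT
import Pool.Agent.P.MP_e94e4b_nt.RP.TMA

/-! The main term from the other side. -/

set_option linter.unusedSectionVars false

namespace Pool.Agent.P.MP_e94e4b_nt.RP.U.G

open Polynomial Finset
open Pool.Agent.P.MP_8be758_nt Pool.Agent.P.MP_8be758_nt.C2 Pool.Agent.P.MP_8be758_nt.L2
open Pool.Agent.P.MP_e94e4b_nt.LG
open scoped Classical

theorem cv2 (hU0 : S_U0) (hCVX : S_CVX) (k : Type) [Field k] [Finite k] (Z n : ℕ) (hn : 1 ≤ n) :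
    -1 ≤ ∑ D ∈ range (n + 1), (D : ℝ) * (mm (Pr k Z) D * rho (Pr k Z) (n - D)) := by
  have q0 : (0 : ℝ) < qq k ^ n := pow_pos qq_pos _
  have key : qq k ^ n * ∑ D ∈ range (n + 1), (D : ℝ) * (mm (Pr k Z) D * rho (Pr k Z) (n - D)) =
      ∑ f ∈ Mo k n, av (Pr k Z) f * ∑ D ∈ range (n + 1), (D : ℝ) * DS D mu f := by
    simp only [mul_sum]
    rw [sum_comm]
    refine sum_congr rfl fun D hD => ?_
    rw [mul_left_comm, ← hCVX k _ n D isPr_Pr (by have := mem_range.1 hD; omega), mul_sum]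
    exact sum_congr rfl fun f _ => by ring
  have hU : ∀ f ∈ Mo k n, ∑ D ∈ range (n + 1), (D : ℝ) * DS D mu f = -La f := fun f hf => by
    have := hU0 k f (mem_Mo.1 hf).1 (by rw [(mem_Mo.1 hf).2]; omega)
    rw [(mem_Mo.1 hf).2] at this
    exact this.2
  refine le_of_mul_le_mul_left ?_ q0
  rw [key, sum_congr rfl fun f hf => by rw [hU f hf, mul_neg], sum_neg_distrib]
  have := (sum_le_sum fun f _ => mul_le_of_le_one_left (La_nonneg f)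
    (av_le_one (Pr k Z) f)).trans (La_all (k := k) hn)
  linarith

theorem ma2 (m r : ℕ → ℝ) (n Y : ℕ) (V E μ0 R η : ℝ) (hY : Y ≤ n) (hV : 0 ≤ V) (hE : 0 ≤ E)
    (hμ : 0 ≤ μ0) (h1 : ∀ D, |m D| ≤ r D) (h2 : ∑ D ∈ range (n + 1), r D ≤ R)
    (h3 : ∀ D, Y < D → D ≤ n → |m D| ≤ μ0) (h4 : ∀ D, D ≤ Y → |r (n - D) - V| ≤ E * V)
    (h5 : ∑ D ∈ range (n + 1), m D * r (n - D) = 0)
    (h6 : |∑ D ∈ range (n + 1), (D : ℝ) * (m D * r (n - D))| ≤ 1)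
    (h7 : n * ((E * V + μ0) * R) ≤ η) (h8 : (E * V + μ0) * R * (V * n ^ 2 * R) ≤ η) :
    -(2 * (1 + η) ^ 2 + 2 * η) ≤
      V ^ 2 * ∑ i ∈ range (Y + 1), ∑ j ∈ range (Y + 1), ((i : ℝ) - j) ^ 2 * (m i * m j) := by
  have r0 : ∀ D, 0 ≤ r D := fun D => (abs_nonneg _).trans (h1 D)
  have k0 := MA_key m r (fun _ => 1) n Y V E μ0 R 1 hY hV hE hμ zero_le_one h1 h2 h3 h4
    (fun _ _ => by simp)
  have k1 := MA_key m r (fun D => D) n Y V E μ0 R n hY hV hE hμ (Nat.cast_nonneg n) h1 h2 h3 h4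
    (fun D hD => by rw [Nat.abs_cast]; exact_mod_cast hD)
  simp only [one_mul, h5, zero_sub, abs_neg] at k0
  have k2 : |∑ D ∈ range (Y + 1), (D : ℝ) ^ 2 * m D| ≤ n ^ 2 * R := by
    refine (abs_sum_le_sum_abs _ _).trans ?_
    have a : ∀ D ∈ range (Y + 1), |(D : ℝ) ^ 2 * m D| ≤ n ^ 2 * r D := by
      intro D hD
      have hD' : (D : ℝ) ≤ n := by
        have := mem_range.1 hD
        exact_mod_cast (by omega : D ≤ n)
      rw [abs_mul, abs_of_nonneg (by positivity)]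
      exact mul_le_mul (pow_le_pow_left₀ (Nat.cast_nonneg D) hD' 2) (h1 D) (abs_nonneg _)
        (by positivity)
    refine (sum_le_sum a).trans ?_
    rw [← mul_sum]
    refine mul_le_mul_of_nonneg_left (le_trans ?_ h2) (by positivity)
    exact sum_le_sum_of_subset_of_nonneg (range_mono (by omega)) fun D _ _ => r0 D
  have e : ∑ i ∈ range (Y + 1), ∑ j ∈ range (Y + 1), ((i : ℝ) - j) ^ 2 * (m i * m j) =
      2 * ((∑ D ∈ range (Y + 1), m D) * ∑ D ∈ range (Y + 1), (D : ℝ) ^ 2 * m D) -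
        2 * ((∑ D ∈ range (Y + 1), (D : ℝ) * m D) * ∑ D ∈ range (Y + 1), (D : ℝ) * m D) := by
    have c : (∑ D ∈ range (Y + 1), m D) * ∑ D ∈ range (Y + 1), (D : ℝ) ^ 2 * m D =
        (∑ D ∈ range (Y + 1), (D : ℝ) ^ 2 * m D) * ∑ D ∈ range (Y + 1), m D := mul_comm _ _
    rw [two_mul ((∑ D ∈ range (Y + 1), m D) * _)]
    nth_rewrite 2 [c]
    rw [sum_mul_sum, sum_mul_sum, sum_mul_sum, mul_sum, ← sum_add_distrib, ← sum_sub_distrib]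
    refine sum_congr rfl fun i _ => ?_
    rw [mul_sum, ← sum_add_distrib, ← sum_sub_distrib]
    refine sum_congr rfl fun j _ => by ring
  rw [e]
  set A0 := ∑ D ∈ range (Y + 1), m D
  set A1 := ∑ D ∈ range (Y + 1), (D : ℝ) * m D
  set A2 := ∑ D ∈ range (Y + 1), (D : ℝ) ^ 2 * m D
  have b1 : (V * A1) ^ 2 ≤ (1 + η) ^ 2 := by
    obtain ⟨c1, c2⟩ := abs_le.1 k1
    obtain ⟨c3, c4⟩ := abs_le.1 h6
    exact sq_le_sq' (by linarith) (by linarith)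
  have b2 : |V * A2| ≤ V * n ^ 2 * R := by
    rw [abs_mul, abs_of_nonneg hV, mul_assoc]
    exact mul_le_mul_of_nonneg_left k2 hV
  have b3 : |V * A0 * (V * A2)| ≤ η := by
    rw [abs_mul]
    exact (mul_le_mul k0 b2 (abs_nonneg _) ((abs_nonneg _).trans k0)).trans h8
  have : V ^ 2 * (2 * (A0 * A2) - 2 * (A1 * A1)) =
      2 * (V * A0 * (V * A2)) - 2 * (V * A1) ^ 2 := by ring
  rw [this]
  linarith [(abs_le.1 b3).1]

theorem main2 (hU0 : S_U0) (hCVX : S_CVX) (hCV : S_CV) (hMER1 : S_MER1)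
    (k : Type) [Field k] [Finite k] (n Z δ : ℕ) (E CR N η : ℝ) (h4 : 4 ≤ n) (hZ : 1 ≤ Z)
    (hZn : Z < n) (hδ : 2 * δ ≤ n) (hN : (n : ℝ) ≤ N * Z) (hC : 1 ≤ CR) (hE : 0 ≤ E)
    (hs : 360 * CR ^ 3 * E * N ^ 4 ≤ η) (r1 : ∀ j, 1 ≤ j → rho (Pr k Z) j ≤ CR / Z)
    (mb : ∀ D, n / 4 < D → D ≤ n → |mm (Pr k Z) D| ≤ 2 * E / Z)
    (hr : ∀ j, δ ≤ j → |rho (Pr k Z) j - VV (pc 1) (Pr k Z)| ≤ E * VV (pc 1) (Pr k Z)) :
    E ≤ η ∧ -(2 * (1 + η) ^ 2 + 2 * η) ≤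
      VV (pc 1) (Pr k Z) ^ 2 * ∑ i ∈ range (n / 4 + 1), ∑ j ∈ range (n / 4 + 1),
        ((i : ℝ) - j) ^ 2 * (mm (Pr k Z) i * mm (Pr k Z) j) := by
  obtain ⟨v0, v1⟩ := hMER1 k Z
  obtain ⟨c1, c2⟩ := hCV k Z n h4 hZn
  have c3 := cv2 hU0 hCVX k Z n (by omega)
  have z0 : (0 : ℝ) < Z := Nat.cast_pos.2 hZ
  have zn : (Z : ℝ) < n := Nat.cast_lt.2 hZn
  have N1 : 1 ≤ N := by nlinarith
  have n0 : (0 : ℝ) ≤ n := Nat.cast_nonneg n
  have x1 : n / (Z : ℝ) ≤ N := (div_le_iff₀ z0).2 hN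
  have x0 : 0 ≤ n / (Z : ℝ) := by positivity
  generalize VV (pc 1) (Pr k Z) = V at *
  have v2 : V ≤ 1 / Z := (le_div_iff₀ z0).2 (by linarith)
  have CN : 1 ≤ CR * N := one_le_mul_of_one_le_of_one_le hC N1
  have a1 : n * ((E * V + 2 * E / Z) * (2 * (CR * N))) ≤ 6 * (E * (CR * N) * N) := by
    calc _ ≤ n * ((E * (1 / Z) + 2 * E / Z) * (2 * (CR * N))) := by gcongr
      _ = 6 * (E * (CR * N) * (n / Z)) := by ring
      _ ≤ _ := by gcongr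
  have a2 : V * n ≤ N := (mul_le_mul_of_nonneg_right v2 n0).trans (by rwa [one_div_mul_eq_div])
  have a3 : E * (CR * N) * N * (CR * N * N) ≤ CR ^ 3 * E * N ^ 4 := by
    have := mul_le_mul_of_nonneg_left hC (show 0 ≤ CR ^ 2 * E * N ^ 4 by positivity)
    linarith
  have CNN := one_le_mul_of_one_le_of_one_le CN N1
  have a4 : E * (CR * N) * N ≤ E * (CR * N) * N * (CR * N * N) :=
    le_mul_of_one_le_right (by positivity) CNN
  have a5 : E ≤ E * (CR * N * N) := le_mul_of_one_le_right hE CNN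
  have a6 : 0 ≤ CR ^ 3 * E * N ^ 4 := by positivity
  refine ⟨by linarith, ma2 _ (rho (Pr k Z)) n (n / 4) V E (2 * E / Z) (2 * (CR * N)) η (by omega)
    v0.le hE (by positivity) (abs_mm_le _) ?_ mb (fun D hD => hr _ (by omega)) c1
    (abs_le.2 ⟨c3, by linarith⟩) (by linarith) ?_⟩
  · rw [sum_range_succ']
    have := sum_le_card_nsmul (range n) (fun j => rho (Pr k Z) (j + 1)) _
      fun j _ => r1 (j + 1) (by omega)
    rw [card_range, nsmul_eq_mul, ← mul_div_assoc, mul_comm, mul_div_assoc] at this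
    linarith [rho_le_one (Pr k Z) 0, mul_le_mul_of_nonneg_left x1 (show 0 ≤ CR by linarith)]
  · calc _ = n * ((E * V + 2 * E / Z) * (2 * (CR * N))) * (V * n * (2 * (CR * N))) := by ring
      _ ≤ 6 * (E * (CR * N) * N) * (N * (2 * (CR * N))) := by gcongr
      _ ≤ _ := by linarith

theorem idt2 (hWB : S_WB) (hU0 : S_U0) (k : Type) [Field k] [Finite k] [CharP k 2] (F h : k[X])
    (M Z : ℕ) (hF : F.Monic) (h0 : h ≠ 0) (hM : h.natDegree < M) (hn : M ≤ F.natDegree)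
    (hZ : Z < F.natDegree) :
    2 * (F.natDegree : ℝ) ^ 2 * PI2 F h M ≤
      -∑ i ∈ range (F.natDegree + 1), ∑ j ∈ range (F.natDegree + 1),
        ((i : ℝ) - j) ^ 2 * CC F h M Z i j := by
  have wb := fun f => hWB k F h f M hF h0 hM hn
  generalize e : F.natDegree = n at *
  have h1 : 1 ≤ n := by omega
  have u0 : ∀ f ∈ Mo k n, ∑ D ∈ range (n + 1), DS D mu f = 0 ∧
      ∑ D ∈ range (n + 1), (D : ℝ) * DS D mu f = -La f := fun f hf => by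
    obtain ⟨m1, rfl⟩ := mem_Mo.1 hf
    exact hU0 k f m1 h1
  have av1 : ∀ f ∈ Mo k n, Irreducible f → Av (Pr k Z) f := fun f hf hi =>
    Av_Pr.2 fun Q hQ hd => by
      rw [hQ.eq_of_dvd ⟨(mem_Mo.1 hf).1, hi⟩ hd, (mem_Mo.1 hf).2]; exact hZ
  simp only [CC, BS, mul_sum (Wn F h M)]
  rw [sum_congr rfl fun i _ => sum_comm, sum_comm, sum_congr rfl fun f hf =>
    IDT_alg _ _ _ _ _ _ (u0 f (wb f hf).1).1 (u0 _ (wb f hf).2.1).1 (u0 f (wb f hf).1).2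
      (u0 _ (wb f hf).2.1).2, sum_neg_distrib, neg_neg, PI2, ← sum_boole, mul_sum]
  refine sum_le_sum fun f hf => ?_
  obtain ⟨w1, w2, -⟩ := wb f hf
  split_ifs with c
  · rw [La_irr w1 c.1, La_irr w2 c.2, av_of ((Av_mul isPr_Pr).2 ⟨av1 _ w1 c.1, av1 _ w2 c.2⟩)]
    exact le_of_eq (by ring)
  · rw [mul_zero]
    exact mul_nonneg zero_le_two (mul_nonneg (av_nonneg _ _)
      (mul_nonneg (La_nonneg _) (La_nonneg _)))

theorem num2 (hN : S_NUM) (CF CR : ℝ) (c0 κ5 : ℕ) (hF : 1 ≤ CF) (hR : 1 ≤ CR) {η : ℝ}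
    (hη : 0 < η) : ∃ t K0 : ℕ, 1 ≤ t ∧ CF ≤ 2 ^ (5 * t) ∧ 2 ^ t ≤ K0 ∧
      3600 * c0 * κ5 * (10 * t + 3) ≤ 2 ^ t ∧
      eta CR (CF / 2 ^ (5 * t)) (2 ^ (t + 1)) (2 ^ (t + 1) / K0) (134 * (10 * t + 3)) (om0 c0 t)
        (lc0 c0 t) ≤ η := by
  obtain ⟨j, hj⟩ := pow_unbounded_of_one_lt (1 / η) (show (1 : ℝ) < 2 ^ 8 by norm_num)
  rw [← pow_mul, div_lt_iff₀ hη] at hj
  have s1 : (1 : ℝ) ≤ 2 ^ (8 * j) := one_le_pow₀ one_le_two
  obtain ⟨t, K0, h1, h2, h3, h4, h5⟩ := hN CF (2 ^ (8 * j) * CR) (c0 + j) κ5 hF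
    (one_le_mul_of_one_le_of_one_le s1 hR)
  refine ⟨t, K0, h1, h2, h3, le_trans (by gcongr; omega) h4, ?_⟩
  have e1 : lc0 (c0 + j) t = 2 ^ (8 * j) * lc0 c0 t := by
    unfold lc0
    generalize ((700 : ℝ) * (10 * t + 3)) ^ 512 = u
    ring
  have e2 : om0 c0 t ≤ om0 (c0 + j) t := by unfold om0; gcongr; omega
  have e3 : 0 ≤ om0 c0 t := by unfold om0; positivity
  have e4 : 0 ≤ lc0 c0 t := by unfold lc0; positivity
  have e5 : 0 ≤ CF / 2 ^ (5 * t) := by positivity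
  have e6 : (0 : ℝ) ≤ 2 ^ (t + 1) / K0 := by positivity
  have e7 : (0 : ℝ) ≤ 134 * (10 * t + 3) := by positivity
  have e8 : (0 : ℝ) ≤ 2 ^ (t + 1) := by positivity
  rw [e1] at h5
  unfold eta at h5 ⊢
  generalize (2 : ℝ) ^ (8 * j) = s at *
  generalize om0 (c0 + j) t = ω' at *
  generalize om0 c0 t = ω at *
  generalize lc0 c0 t = Lc at *
  generalize CF / 2 ^ (5 * t) = E at *
  generalize (2 : ℝ) ^ (t + 1) / K0 = x at *
  generalize (134 : ℝ) * (10 * t + 3) = y at *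
  generalize (2 : ℝ) ^ (t + 1) = N at *
  have s2 : s ≤ s ^ 2 := le_self_pow₀ s1 (by norm_num)
  have s3 : s ≤ s ^ 3 := le_self_pow₀ s1 (by norm_num)
  have r0 : 0 ≤ CR := by linarith
  have s0 : 0 < s := by linarith
  refine le_of_mul_le_mul_left (le_trans ?_ (h5.trans (by linarith))) s0
  calc _ = s * (360 * CR ^ 3 * E * N ^ 4) + s * (72 * CR ^ 2 * N ^ 2 * x ^ 2) +
        s * (24 * CR ^ 2 * N ^ 3 * x) + 4 * y ^ 4 * ω * (s * CR) + y ^ 3 * ω * (s * Lc) := by ring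
    _ ≤ s ^ 3 * (360 * CR ^ 3 * E * N ^ 4) + s ^ 2 * (72 * CR ^ 2 * N ^ 2 * x ^ 2) +
        s ^ 2 * (24 * CR ^ 2 * N ^ 3 * x) + 4 * y ^ 4 * ω' * (s * CR) + y ^ 3 * ω' * (s * Lc) := by
        gcongr
    _ = _ := by ring

theorem end2 (A Y Q V1 V2 Θ Z η e1 x th : ℝ) (hQ : 0 ≤ Q) (hV : 0 < V1) (hZ : 0 ≤ Z)
    (hVZ : V1 * (Z + 1) ≤ 1) (h1 : V2 * th ^ 2 ≤ V1 ^ 2) (h2 : th ^ 2 ≤ 1)
    (h3 : 0 ≤ Θ) (h4 : Θ ≤ (1 + η) * V2) (η0 : 0 ≤ η) (η1 : η ≤ 1)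
    (hA : |A - Q * Θ * Y| ≤ 2 * (Q * V2) * Z ^ 2 * η + e1)
    (hY : -(2 * (1 + η) ^ 2 + 2 * η) ≤ V1 ^ 2 * Y) (hx : 2 * x ≤ -A) (he : e1 ≤ η * Q) :
    x * th ^ 2 ≤ (1 + 11 * η) * Q := by
  have hW : 0 < V1 ^ 2 := by positivity
  have t0 := sq_nonneg th
  have a1 : Θ * th ^ 2 ≤ (1 + η) * V1 ^ 2 := by nlinarith
  have a2 : -(Θ * th ^ 2 * Y) ≤ (1 + η) * (2 * (1 + η) ^ 2 + 2 * η) := by
    rcases le_total 0 Y with c | c
    · exact (neg_nonpos.2 (by positivity)).trans (by positivity)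
    · nlinarith [mul_le_mul_of_nonneg_right a1 (neg_nonneg.2 c)]
  have a3 : (V1 * Z) ^ 2 ≤ 1 := pow_le_one₀ (by positivity) (by nlinarith)
  have a4 : V2 * th ^ 2 * Z ^ 2 ≤ 1 := by
    nlinarith [mul_le_mul_of_nonneg_right h1 (sq_nonneg Z)]
  have a5 : (1 + η) * (2 * (1 + η) ^ 2 + 2 * η) ≤ 2 + 18 * η := by
    nlinarith [mul_le_mul_of_nonneg_left η1 η0, mul_le_mul_of_nonneg_left η1 (sq_nonneg η)]
  have a6 := mul_le_mul_of_nonneg_right ((abs_le.1 hA).1) t0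
  have a7 := mul_le_mul_of_nonneg_right hx t0
  have a8 := mul_le_mul_of_nonneg_left (a2.trans a5) hQ
  have a9 := mul_le_mul_of_nonneg_left a4 (mul_nonneg hQ η0)
  have a10 := mul_le_mul_of_nonneg_right he t0
  have a11 := mul_le_mul_of_nonneg_left h2 (mul_nonneg hQ η0)
  have a12 := mul_nonneg hQ η0
  nlinarith

end Pool.Agent.P.MP_e94e4b_nt.RP.U.G
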