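import Pool.Agent.P.MP_42fc1a_nt.TU.GUp1

/-! The upper bound inside a class. -/

set_option linter.unusedSectionVars false

namespace Pool.Agent.P.MP_e94e4b_nt.RP.U.G

open Polynomial Finset
open Pool.Agent.P.MP_8be758_nt Pool.Agent.P.MP_8be758_nt.C2 Pool.Agent.P.MP_8be758_nt.L2
open Pool.Agent.P.MP_e94e4b_nt.LG
open scoped Classical

def S_INP2 : Prop :=
  ∃ (CF CR : ℝ) (c0 κ5 : ℕ), 1 ≤ CF ∧ 1 ≤ CR ∧ 2 ≤ c0 ∧ 1 ≤ κ5 ∧ ∀ t K0 : ℕ, 1 ≤ t →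
    CF ≤ 2 ^ (5 * t) → 2 ^ t ≤ K0 → 3600 * c0 * κ5 * (10 * t + 3) ≤ 2 ^ t → ∃ κ : ℕ, 1 ≤ κ ∧
    ∀ (k : Type) [Field k] [Finite k] [CharP k 2],
    ∃ n0 : ℕ, ∀ (h F : k[X]) (M : ℕ), Adm h → F.Monic → n0 ≤ F.natDegree → M ≤ F.natDegree →
      F.natDegree + h.natDegree < M + F.natDegree / κ → ∃ (Θ : ℝ) (c3 : ℕ → ℕ → ℝ),
        (0 ≤ Θ ∧ Θ ≤ (1 + CF / 2 ^ (5 * t)) * VV (pc 2) (T2 h (zz F.natDegree t))) ∧
        Cells F.natDegree M h.natDegree (zz F.natDegree t) (dl F.natDegree t) (F.natDegree / K0)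
          (CC F h M (zz F.natDegree t)) c3 (mm (Pr k (zz F.natDegree t)))
          (rho (Pr k (zz F.natDegree t))) (QQ h M * VV (pc 2) (T2 h (zz F.natDegree t)))
          (QQ h M * Θ) (CF / 2 ^ (5 * t)) (qq k ^ M / qq k ^ (F.natDegree / κ)) (om0 c0 t)
          (lc0 c0 t) CR ∧
        ∀ j, dl F.natDegree t ≤ j →
          |rho (Pr k (zz F.natDegree t)) j - VV (pc 1) (Pr k (zz F.natDegree t))| ≤
            CF / 2 ^ (5 * t) * VV (pc 1) (Pr k (zz F.natDegree t))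

theorem inp2 (hONE : S_ONE) (hTWO : S_TWO) (hSYM : S_SYM) (hRZ : S_RZ) (hCX : S_CX) (hCK : S_CK)
    (hCA : S_CA) (hCT1 : S_CT1) (hCT2 : S_CT2) (hCP : S_CP) (hCZ : S_CZ) :
    S_INP2 := by
  obtain ⟨C1, c1, hONE⟩ := hONE
  obtain ⟨C2, c2, hTWO⟩ := hTWO
  obtain ⟨CR, cR, hRZ⟩ := hRZ
  obtain ⟨κ5, k5, hCA⟩ := hCA
  obtain ⟨c0, c02, hCZ⟩ := hCZ
  refine ⟨C1 + C2, CR, c0, κ5, by linarith, cR, c02, k5, fun t K0 ht hF hK hc => ?_⟩
  have g0 : 1 * 1 ≤ c0 * κ5 := Nat.mul_le_mul (by omega) k5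
  have g1 : 3600 * c0 * (10 * t + 3) ≤ 2 ^ t := by
    refine le_trans (Nat.mul_le_mul_right _ ?_) hc
    exact Nat.le_mul_of_pos_right _ k5
  have g2 : 300 * κ5 * (10 * t + 3) ≤ 2 ^ t := by
    refine le_trans (Nat.mul_le_mul_right _ (Nat.mul_le_mul_right _ ?_)) hc
    omega
  have g3 : 400 * (10 * t + 3) ≤ 2 ^ t := by
    refine le_trans (Nat.mul_le_mul_right _ ?_) g1
    omega
  obtain ⟨κX, kX, hCX⟩ := hCX t
  obtain ⟨κK, kK, hCK⟩ := hCK t ht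
  obtain ⟨κA, kA, hCA⟩ := hCA t g2
  obtain ⟨κ1, k1, hCT1⟩ := hCT1 t K0 hK
  obtain ⟨κ2, k2, hCT2⟩ := hCT2 t K0 hK
  obtain ⟨κZ, kZ, hCZ⟩ := hCZ t g1
  have p2 : 0 < 2 ^ t := Nat.pos_of_ne_zero (by positivity)
  have p5 : (0 : ℝ) < 2 ^ (5 * t) := by positivity
  obtain ⟨E, hE⟩ : ∃ E : ℝ, E = (C1 + C2) / 2 ^ (5 * t) := ⟨_, rfl⟩
  have E0 : 0 ≤ E := by rw [hE]; exact div_nonneg (by linarith) p5.le
  have E1 : E ≤ 1 := by rw [hE]; exact (div_le_one p5).2 hF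
  have E2 : C1 / 2 ^ (5 * t) ≤ E := by rw [hE]; gcongr; linarith
  have E3 : C2 / 2 ^ (5 * t) ≤ E := by rw [hE]; gcongr; linarith
  rw [← hE]
  obtain ⟨κ, hκ⟩ : ∃ κ, κ = κX + κK + κA + κ1 + κ2 + κZ + K0 * 2 := ⟨_, rfl⟩
  refine ⟨κ, by omega, fun k _ _ _ => ?_⟩
  obtain ⟨nO, hONE⟩ := hONE t E E2 E1 (by omega) k
  obtain ⟨nX, hCX⟩ := hCX k
  obtain ⟨nK, hCK⟩ := hCK k
  obtain ⟨nA, hCA⟩ := hCA k
  obtain ⟨n1, hCT1⟩ := hCT1 k
  obtain ⟨n2, hCT2⟩ := hCT2 k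
  obtain ⟨nZ, hCZ⟩ := hCZ k
  refine ⟨nO + nX + nK + nA + n1 + n2 + nZ, fun h F M hh hm hn hM hw => ?_⟩
  have u2 : F.natDegree / K0 ≤ zz F.natDegree t := Nat.div_le_div_left hK p2
  have dv : ∀ j, 1 ≤ j → j ≤ κ → F.natDegree / κ ≤ F.natDegree / j := fun j a b =>
    Nat.div_le_div_left b a
  have u3 : F.natDegree / κ ≤ F.natDegree / K0 / 2 := by
    rw [Nat.div_div_eq_div_mul]; exact dv _ (by omega) (by omega)
  have z1 : h.natDegree + 1 ≤ zz F.natDegree t := by omega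
  have u4 : F.natDegree + h.natDegree ≤ M + F.natDegree / K0 := by omega
  have d1 : zz F.natDegree t ≤ dl F.natDegree t := Nat.le_mul_of_pos_left _ (by omega)
  have d2 : 400 * dl F.natDegree t ≤ F.natDegree := by
    rw [dl, ← mul_assoc]
    exact (Nat.mul_le_mul_right _ g3).trans (Nat.mul_div_le _ _)
  have m1 : h.natDegree < M := by omega
  obtain ⟨lam, xi, hs⟩ := hTWO t (zz F.natDegree t) E E3 E1 (by omega) k h hh
  have ctx : Ctx F h M (zz F.natDegree t) (dl F.natDegree t) E lam xi :=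
    ⟨hm, hh, by omega, m1, hM, hs, E0, E1⟩
  have q0 : (0 : ℝ) < qq k := qq_pos
  have W : ∀ j, 1 ≤ j → j ≤ κ →
      qq k ^ M / qq k ^ (F.natDegree / j) ≤ qq k ^ M / qq k ^ (F.natDegree / κ) := fun j a b =>
    div_le_div_of_nonneg_left (by positivity) (by positivity)
      (pow_le_pow_right₀ one_le_qq (dv j a b))
  obtain ⟨o1, o2⟩ := hONE F.natDegree (by omega)
  have r1 : ∀ j, 1 ≤ j → rho (Pr k (zz F.natDegree t)) j ≤ CR / zz F.natDegree t :=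
    fun j hj => hRZ k _ j (by omega) hj
  obtain ⟨c3, z0, z2, z3⟩ := hCZ h F M _ E CR lam xi ctx (by omega) u2 u4 r1 fun D a _ => o1 D a
  have Q0 := (QQ_pos h M).le
  have v0 := hs.e0
  refine ⟨EE (pc 2) (T2 h (zz F.natDegree t)) lam, c3, ⟨v0.trans hs.e1, hs.e2⟩, ?_, o2⟩
  refine
    { a1 := mul_nonneg Q0 v0
      a2 := mul_nonneg Q0 (v0.trans hs.e1)
      a3 := ?_
      a4 := E0
      a5 := by positivity
      a6 := by unfold om0; positivity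
      a7 := by unfold lc0; positivity
      a8 := cR
      n1 := by omega
      n2 := d1
      n3 := u2
      n4 := d2
      n5 := u4
      sym := fun i j => hSYM k F h M i j _ _ _ hm hh.1 m1 hM
      mr := abs_mm_le _
      r0 := rho_le_one _ _
      r1 := r1
      mb := fun D a _ => o1 D a
      cX := fun i j a => (hCX h F M _ E lam xi ctx (by omega) i j a).trans
        (add_le_add le_rfl (W _ kX (by omega)))
      cK := fun i j a b c d => (hCK h F M _ E lam xi ctx (by omega) u2 u4 i j a b c d).trans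
        (add_le_add le_rfl (W _ kK (by omega)))
      cA := fun i j a b c => (hCA h F M _ E lam xi ctx (by omega) u2 u4 i j a b c).trans
        (add_le_add le_rfl (W _ kA (by omega)))
      cT1 := fun i j β a b c d e => (hCT1 h F M E lam xi ctx (by omega)
        (hw.trans_le (Nat.add_le_add_left (dv _ k1 (by omega)) _)) i j β a b c d e).trans
        (add_le_add le_rfl (W _ k1 (by omega)))
      cT2 := fun i j β a b c d e => (hCT2 h F M E lam xi ctx (by omega)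
        (hw.trans_le (Nat.add_le_add_left (dv _ k2 (by omega)) _)) i j β a b c d e).trans
        (add_le_add le_rfl (W _ k2 (by omega)))
      cP := fun i j β β' a b c d e => hCP k F h M _ _ i j β β' E lam xi ctx a b c d e
      cZ := fun i j a b => (z2 i j a b).trans (by linarith [W _ kZ (by omega)])
      c30 := z0
      c31 := z3 }
  have := hs.e2
  have h2 : EE (pc 2) (T2 h (zz F.natDegree t)) lam ≤ 2 * VV (pc 2) (T2 h (zz F.natDegree t)) :=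
    this.trans (mul_le_mul_of_nonneg_right (by linarith) v0)
  calc _ ≤ QQ h M * (2 * VV (pc 2) (T2 h (zz F.natDegree t))) := mul_le_mul_of_nonneg_left h2 Q0
    _ = _ := by ring

def S_UP : Prop :=
  ∀ η : ℝ, 0 < η → η ≤ 1 → ∃ K : ℕ, 1 ≤ K ∧ ∀ (k : Type) [Field k] [Finite k] [CharP k 2],
    ∃ n0 : ℕ, ∀ (h F : k[X]), Adm h → F.Monic → n0 ≤ F.natDegree →
      h.natDegree < F.natDegree / K →
      (F.natDegree : ℝ) ^ 2 * PI2 F h F.natDegree * VV (pc 1) (pf h) ^ 2 ≤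
        (1 + 11 * η) * QQ h F.natDegree

theorem sing3 (hADM : S_ADM) (k : Type) [Field k] [Finite k] [CharP k 2] (h : k[X]) (Z : ℕ)
    (hA : Adm h) (hZ : h.natDegree ≤ Z) :
    VV (pc 2) (T2 h Z) * VV (pc 1) (pf h) ^ 2 ≤ VV (pc 1) (Pr k Z) ^ 2 := by
  obtain ⟨h1, -, -⟩ := hADM k h Z hA
  have h2 : VV (pc 1) (Pr k Z) = VV (pc 1) (T2 h Z) * VV (pc 1) (pf h) :=
    (prod_sdiff fun P hP => mem_Pr.2 ⟨isPr_of_mem_pf hP,
      (natDegree_le_of_dvd ((mem_pf hA.1).1 hP).2 hA.1).trans hZ⟩).symm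
  rw [h2, mul_pow]
  refine mul_le_mul_of_nonneg_right ?_ (sq_nonneg _)
  unfold VV
  rw [← prod_pow]
  refine prod_le_prod (fun P hP => by linarith [(h1 P hP).2.2]) fun P _ => ?_
  have e : pc 2 P = 2 * pc 1 P := by unfold pc; ring
  rw [e]
  nlinarith [sq_nonneg (pc 1 P)]

theorem up (hNUM : S_NUM) (hINP : S_INP2) (hSUM : S_SUM) (hWB : S_WB) (hU0 : S_U0)
    (hCVX : S_CVX) (hCV : S_CV) (hADM : S_ADM) (hMER1 : S_MER1) : S_UP := by
  intro η η0 η1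
  obtain ⟨CF, CR, c0, κ5, hCF, hCR, -, -, hI⟩ := hINP
  obtain ⟨t, K0, ht, h1, h2, h3, hη⟩ := num2 hNUM CF CR c0 κ5 hCF hCR η0
  obtain ⟨κ, hκ, hI⟩ := hI t K0 ht h1 h2 h3
  have hp : 1 ≤ 2 ^ t := Nat.one_le_two_pow
  have hp1 : 2 ^ (t + 1) = 2 * 2 ^ t := by ring
  have hp2 : 2 ≤ 2 ^ t := by
    calc 2 = 2 ^ 1 := rfl
      _ ≤ 2 ^ t := Nat.pow_le_pow_right (by norm_num) ht
  refine ⟨κ * 2 ^ (t + 1), Nat.mul_pos hκ (by positivity), fun k _ _ _ => ?_⟩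
  obtain ⟨n1, hI⟩ := hI k
  obtain ⟨n2, hn2⟩ := NEG 4 (κ * 2) 4 η (by omega) η0
  refine ⟨n1 + n2 + 2 ^ t + 4, fun h F hh hF hn hnM => ?_⟩
  have d0 : F.natDegree / (κ * 2) = F.natDegree / κ / 2 := (Nat.div_div_eq_div_mul _ _ _).symm
  have d1 : F.natDegree / (κ * 2 ^ (t + 1)) ≤ F.natDegree / (κ * 2) :=
    Nat.div_le_div_left (Nat.mul_le_mul_left _ (by omega)) (by omega)
  have d2 : F.natDegree / (κ * 2 ^ (t + 1)) ≤ F.natDegree / 2 ^ (t + 1) :=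
    Nat.div_le_div_left (Nat.le_mul_of_pos_left _ hκ) (by positivity)
  have d3 : F.natDegree / 2 ^ (t + 1) = F.natDegree / 2 ^ t / 2 := by
    rw [Nat.div_div_eq_div_mul, pow_succ]
  have d4 : F.natDegree / 2 ^ t ≤ F.natDegree / 2 := Nat.div_le_div_left hp2 (by norm_num)
  obtain ⟨Θ, c3, ⟨Θ0, hΘ⟩, hC, hρ⟩ := hI h F F.natDegree hh hF (by omega) le_rfl (by omega)
  have hZ1 : 1 ≤ zz F.natDegree t := hC.n1
  have hZd : zz F.natDegree t = F.natDegree / 2 ^ t := rfl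
  have hN : F.natDegree ≤ 2 ^ (t + 1) * zz F.natDegree t := by
    have a1 := Nat.div_add_mod F.natDegree (2 ^ t)
    have a2 := Nat.mod_lt F.natDegree hp
    rw [← hZd] at a1
    have a3 : 2 ^ t ≤ 2 ^ t * zz F.natDegree t := Nat.le_mul_of_pos_right _ hZ1
    rw [hp1, mul_assoc]
    omega
  have hN' : (F.natDegree : ℝ) ≤ 2 ^ (t + 1) * (zz F.natDegree t : ℝ) := by exact_mod_cast hN
  have hK0 : (0 : ℝ) < K0 := by exact_mod_cast (show 0 < K0 by omega)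
  have hu : ((F.natDegree / K0 : ℕ) : ℝ) ≤ 2 ^ (t + 1) / K0 * (zz F.natDegree t : ℝ) := by
    refine le_trans Nat.cast_div_le ?_
    rw [div_mul_eq_mul_div]
    exact div_le_div_of_nonneg_right hN' hK0.le
  have hy : 134 * (dl F.natDegree t : ℝ) ≤ 134 * (10 * t + 3) * (zz F.natDegree t : ℝ) := by
    simp only [dl, zz]
    push_cast
    linarith
  have hS := hSUM _ _ _ _ _ _ _ _ _ _ _ _ _ _ _ _ _ _ _ _ hC hN' hu hy
  have hE : 360 * CR ^ 3 * (CF / 2 ^ (5 * t)) * (2 ^ (t + 1)) ^ 4 ≤ η := by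
    refine le_trans ?_ hη
    have b1 := hC.a6
    have b2 := hC.a7
    have b3 : 0 < CR := by linarith
    unfold eta
    have b4 : 0 ≤ 72 * CR ^ 2 * ((2 : ℝ) ^ (t + 1)) ^ 2 * (2 ^ (t + 1) / K0) ^ 2 := by positivity
    have b5 : 0 ≤ 24 * CR ^ 2 * ((2 : ℝ) ^ (t + 1)) ^ 3 * (2 ^ (t + 1) / K0) := by positivity
    have b6 : 0 ≤ 4 * (134 * (10 * (t : ℝ) + 3)) ^ 4 * om0 c0 t * CR := by positivity
    have b7 : 0 ≤ (134 * (10 * (t : ℝ) + 3)) ^ 3 * om0 c0 t * lc0 c0 t := by positivity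
    linarith
  have hn4 := hC.n4
  obtain ⟨m0, hMa⟩ := main2 hU0 hCVX hCV hMER1 k F.natDegree (zz F.natDegree t)
    (dl F.natDegree t) (CF / 2 ^ (5 * t)) CR (2 ^ (t + 1)) η (by omega) hZ1 (by omega) (by omega)
    hN' hCR hC.a4 hE hC.r1 hC.mb hρ
  have hId := idt2 hWB hU0 k F h _ (zz F.natDegree t) hF hh.1 (by omega) le_rfl (by omega)
  obtain ⟨m1, m2⟩ := hMER1 k (zz F.natDegree t)
  have hq := qq_pos (k := k)
  obtain ⟨s2, s3⟩ := VV_pos (T := pf h) fun _ => isPr_of_mem_pf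
  have hQ := QQ_pos h F.natDegree
  have v0 := (hADM k h (zz F.natDegree t) hh).2.1.le
  refine end2 _ _ _ _ _ _ _ _ _ _ _ hQ.le m1 (Nat.cast_nonneg _) m2
    (sing3 hADM k h _ hh (by omega)) (pow_le_one₀ s2.le s3) Θ0
    (hΘ.trans (mul_le_mul_of_nonneg_right (by linarith) v0)) η0.le η1
    (hS.trans (add_le_add (mul_le_mul_of_nonneg_left hη (by positivity)) le_rfl)) hMa
    (by linarith) ?_
  have a1 := (hn2 F.natDegree (by omega)).trans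
    (mul_le_mul_of_nonneg_left (two_pow_le_qq (k := k) _) η0.le)
  have a2 : qq k ^ (F.natDegree / (κ * 2)) * qq k ^ h.natDegree ≤ qq k ^ (F.natDegree / κ) := by
    rw [← pow_add]
    exact qq_pow_mono (by omega)
  have a3 : (F.natDegree : ℝ) ^ 2 ≤ (F.natDegree + 1) ^ 2 := by
    gcongr
    linarith
  unfold QQ
  calc _ ≤ 4 * (qq k ^ F.natDegree / (qq k ^ (F.natDegree / (κ * 2)) * qq k ^ h.natDegree)) *
        (((F.natDegree : ℝ) + 1) ^ 2 * (F.natDegree + 1) ^ 2) := by gcongr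
    _ = 4 * ((F.natDegree : ℝ) + 1) ^ 4 / qq k ^ (F.natDegree / (κ * 2)) *
        (qq k ^ F.natDegree / qq k ^ h.natDegree) := by field_simp
    _ ≤ _ := mul_le_mul_of_nonneg_right ((div_le_iff₀ (by positivity)).2 a1) (by positivity)

end Pool.Agent.P.MP_e94e4b_nt.RP.U.G
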