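import Pool.Agent.P.MP_42fc1a_nt.TU.F4

/-! Sum-product growth in a finite field of characteristic two. -/

set_option autoImplicit false
set_option linter.unusedSectionVars false

namespace Pool.Agent.P.MP_42fc1a_nt.TU

open Finset
open scoped Pointwise

variable {F : Type} [Field F] [Fintype F] [DecidableEq F] [CharP F 2]

theorem closure_sub (S : Finset F) (h0 : ∀ s ∈ S, s ≠ 0) (Q : F → Prop) (q0 : Q 0)
    (q1 : ∀ x, Q x → Q (x + 1)) (q2 : ∀ s ∈ S, ∀ x, Q x → Q (x * s)) :
    ∀ z ∈ Subring.closure (S : Set F), Q z := by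
  classical
  have q3 : ∀ s ∈ S, ∀ x, Q x → ∃ y, Q y ∧ x = y * s := by
    intro s hs x hx
    have hb : Set.BijOn (fun y => y * s) {y | Q y} {y | Q y} :=
      (Set.toFinite _).injOn_iff_bijOn_of_mapsTo (fun y hy => q2 s hs y hy) |>.1
        (mul_left_injective₀ (h0 s hs)).injOn
    obtain ⟨y, hy, e⟩ := hb.surjOn hx
    exact ⟨y, hy, e.symm⟩
  let U : F → Prop := fun z => ∀ x, Q x → Q (x + z)
  have key : ∀ z ∈ Subring.closure (S : Set F), ∀ w, U w → U (z * w) := by
    intro z hz
    induction hz using Subring.closure_induction with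
    | mem s hs =>
      intro w hw x hx
      obtain ⟨y, hy, rfl⟩ := q3 s hs x hx
      have := q2 s hs _ (hw y hy)
      rwa [add_mul, mul_comm w] at this
    | zero => intro w _ x hx; simpa using hx
    | one => intro w hw; simpa using hw
    | add a b _ _ ha hb =>
      intro w hw x hx
      rw [add_mul, ← add_assoc]
      exact hb w hw _ (ha w hw x hx)
    | neg a _ ha => intro w hw; rw [CharTwo.neg_eq]; exact ha w hw
    | mul a b _ _ ha hb => intro w hw; rw [mul_assoc]; exact ha _ (hb w hw)
  intro z hz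
  simpa using key z hz 1 q1 0 q0

theorem grow (S T : Finset F) (hT : T.Nonempty) (hS : 1 < S.card) (h0 : ∀ s ∈ S, s ≠ 0) {N : ℝ}
    (hN : 0 < N) (hQ : N ≤ Nat.card (Subring.closure (S : Set F))) :
    ∃ s ∈ S, ∃ s' ∈ S, ∃ a ∈ T, ∃ b ∈ T, ∃ w,
      (w = a - b ∨ w = a - b + (s - s') ∨ ∃ s2 ∈ S, w = (a - b) * s2) ∧
      min ((T.card : ℝ) * S.card) N ≤ 2 * (image₂ (fun t c => (s - s') * t + w * c) T S).card := by
  classical
  let Q : F → Prop := fun x => ∃ s ∈ S, ∃ s' ∈ S, ∃ a ∈ T, ∃ b ∈ T, s ≠ s' ∧
    (s - s') * x = a - b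
  have hcard : ∀ s ∈ S, ∀ s' ∈ S, s ≠ s' → ∀ x,
      (image₂ (fun t c => (s - s') * t + ((s - s') * x) * c) T S).card =
        (image₂ (fun t c => t + x * c) T S).card := by
    intro s hs s' hs' hss x
    rw [← card_image_of_injective (image₂ (fun t c => t + x * c) T S)
      (mul_right_injective₀ (sub_ne_zero.2 hss)), image_image₂]
    congr 2
    funext t c
    ring
  have hinj : ∀ x, ¬ Q x → min ((T.card : ℝ) * S.card) N ≤
      2 * (image₂ (fun t c => t + x * c) T S).card := by
    intro x hx
    have : (image₂ (fun t c => t + x * c) T S).card = T.card * S.card := by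
      rw [card_image₂_iff]
      rintro ⟨t, c⟩ hp ⟨t', c'⟩ hp' e3
      simp only [Set.mem_prod, mem_coe] at hp hp'
      simp only at e3
      by_cases hc : c = c'
      · subst hc
        exact Prod.ext (by simpa using e3) rfl
      · exact (hx ⟨c, hp.2, c', hp'.2, t', hp'.1, t, hp.1, hc, by linear_combination e3⟩).elim
    rw [this]
    push_cast
    have : (0 : ℝ) ≤ (T.card : ℝ) * S.card := by positivity
    linarith [min_le_left ((T.card : ℝ) * S.card) N]
  by_cases hQ1 : ∀ x, Q x → Q (x + 1)
  · by_cases hQ2 : ∀ s ∈ S, ∀ x, Q x → Q (x * s)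
    · have q0 : Q 0 := by
        obtain ⟨s, hs, s', hs', hss⟩ := one_lt_card.1 hS
        obtain ⟨a, ha⟩ := hT
        exact ⟨s, hs, s', hs', a, ha, a, ha, hss, by simp⟩
      have hall := closure_sub S h0 Q q0 hQ1 hQ2
      let C : Finset F := univ.filter fun z => z ∈ Subring.closure (S : Set F)
      have hC : N ≤ C.card := by
        refine hQ.trans (le_of_eq ?_)
        rw [Nat.card_eq_fintype_card, Fintype.card_subtype]
      obtain ⟨x, hxC, hx⟩ := exists_big T S C ⟨0, by simp [C]⟩
      obtain ⟨s, hs, s', hs', a, ha, b, hb, hss, e⟩ := hall x (mem_filter.1 hxC).2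
      refine ⟨s, hs, s', hs', a, ha, b, hb, a - b, Or.inl rfl, ?_⟩
      rw [← e, hcard s hs s' hs' hss]
      have hnu : nu S ≤ S.card := by
        unfold nu
        calc _ ≤ ∑ _c ∈ S, (1 : ℝ) := by
              refine sum_le_sum fun c hc => ?_
              rw [sum_eq_single c]
              · exact nuI_le_one _
              · intro d hd hdc
                exact nuI_of_unit (sub_ne_zero.2 hdc.symm).isUnit
              · intro h; exact (h hc).elim
          _ = _ := by simp
      set I : ℝ := ((image₂ (fun a c => a + x * c) T S).card : ℝ)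
      have hI : 0 ≤ I := Nat.cast_nonneg _
      set m : ℝ := (T.card : ℝ) * S.card with hm
      have hm0 : 0 < m := by
        have := hT.card_pos
        have : 0 < S.card := by omega
        positivity
      set c : ℝ := (C.card : ℝ)
      have hc : 0 < c := hN.trans_le hC
      have h1 : c * T.card * nu S ≤ c * m := by
        rw [hm, mul_assoc]
        gcongr
      have h2 : (c * m) * m ≤ (I * (m + c)) * m := by nlinarith
      have h3 : c * m ≤ I * (m + c) := le_of_mul_le_mul_right h2 hm0
      rcases le_total m c with h | h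
      · refine (min_le_left _ _).trans ?_
        have : m * c ≤ (2 * I) * c := by nlinarith
        exact le_of_mul_le_mul_right this hc
      · refine ((min_le_right _ _).trans hC).trans ?_
        have : c * m ≤ (2 * I) * m := by nlinarith
        exact le_of_mul_le_mul_right this hm0
    · push Not at hQ2
      obtain ⟨s2, h2, x, ⟨s, hs, s', hs', a, ha, b, hb, hss, e⟩, hx⟩ := hQ2
      refine ⟨s, hs, s', hs', a, ha, b, hb, (a - b) * s2, Or.inr (Or.inr ⟨s2, h2, rfl⟩), ?_⟩
      rw [← e, mul_assoc, hcard s hs s' hs' hss]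
      exact hinj _ hx
  · push Not at hQ1
    obtain ⟨x, ⟨s, hs, s', hs', a, ha, b, hb, hss, e⟩, hx⟩ := hQ1
    refine ⟨s, hs, s', hs', a, ha, b, hb, a - b + (s - s'), Or.inr (Or.inl rfl), ?_⟩
    have e2 : a - b + (s - s') = (s - s') * (x + 1) := by rw [← e]; ring
    rw [e2, hcard s hs s' hs' hss]
    exact hinj _ hx

theorem iter (B Z S : Finset F) {La : ℝ} (hLa : 1 ≤ La) (hB : ∀ b ∈ B, -b ∈ B)
    (hZ : (Z.card : ℝ) ≤ La) (hBZ : ∀ b ∈ B, ∀ b' ∈ B, ∃ z ∈ Z, ∃ b'' ∈ B, b + b' = z + b'')
    (hS : 1 < S.card) (h0 : ∀ s ∈ S, s ≠ 0) {N : ℝ} (hN : 0 < N)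
    (hQ : N ≤ Nat.card (Subring.closure (S : Set F)))
    (hG : ∀ s ∈ S, Good B La s) (j : ℕ) :
    ∃ T : Finset F, (∀ t ∈ T, Good B (La ^ cc j) t) ∧
      min (((S.card : ℝ) / 2) ^ (j + 1)) (N / 2) ≤ T.card := by
  have hS2 : (2 : ℝ) ≤ S.card := by exact_mod_cast hS
  induction j with
  | zero =>
    refine ⟨S, fun t ht => by simpa [cc] using hG t ht, (min_le_left _ _).trans ?_⟩
    simp only [zero_add, pow_one]
    linarith
  | succ j ih =>
    obtain ⟨T, hT1, hT2⟩ := ih
    have hT : T.Nonempty := by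
      rw [← card_pos]
      have : (0 : ℝ) < T.card := lt_of_lt_of_le (lt_min (by positivity) (by positivity)) hT2
      exact_mod_cast this
    obtain ⟨s, hs, s', hs', a, ha, b, hb, w, hw, hc⟩ := grow S T hT hS h0 hN hQ
    refine ⟨image₂ (fun t c => (s - s') * t + w * c) T S, ?_, ?_⟩
    · intro t0 ht0
      obtain ⟨t, ht, c, hc, rfl⟩ := mem_image₂.1 ht0
      have g1 : Good B (La ^ 3) (s - s') := by
        have := Good.add hZ hBZ (hG s hs) ((hG s' hs').neg hB)
        rw [← sub_eq_add_neg] at this
        exact this.mono (le_of_eq (by ring))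
      have g2 : Good B (La ^ (2 * cc j + 1)) (a - b) := by
        have := Good.add hZ hBZ (hT1 a ha) ((hT1 b hb).neg hB)
        rw [← sub_eq_add_neg] at this
        exact this.mono (le_of_eq (by ring))
      have g3 : Good B (La ^ (2 * cc j + 5)) w := by
        rcases hw with rfl | rfl | ⟨s2, h2, rfl⟩
        · exact g2.mono (pow_le_pow_right₀ hLa (by omega))
        · exact (Good.add hZ hBZ g2 g1).mono (le_of_eq (by ring))
        · exact (g2.mul (hG s2 h2)).mono (by
            rw [← pow_succ]; exact pow_le_pow_right₀ hLa (by omega))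
      exact (Good.add hZ hBZ (g1.mul (hT1 t ht)) (g3.mul (hG c hc))).mono
        (le_of_eq (by rw [cc]; ring))
    · set I : ℝ := ((image₂ (fun t c => (s - s') * t + w * c) T S).card : ℝ)
      rcases le_total ((T.card : ℝ) * S.card) N with h | h
      · rw [min_eq_left h] at hc
        rcases le_total (((S.card : ℝ) / 2) ^ (j + 1)) (N / 2) with h' | h'
        · rw [min_eq_left h'] at hT2
          refine (min_le_left _ _).trans ?_
          rw [pow_succ]
          nlinarith
        · rw [min_eq_right h'] at hT2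
          refine (min_le_right _ _).trans ?_
          nlinarith
      · rw [min_eq_right h] at hc
        refine (min_le_right _ _).trans ?_
        linarith

end Pool.Agent.P.MP_42fc1a_nt.TU
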