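import Pool.Agent.P.MP_42fc1a_nt.TU.DefsL

/-! The steps of the local statement. -/

namespace Pool.Agent.P.MP_42fc1a_nt.TU

open Polynomial Finset
open Pool.Agent.P.MP_8be758_nt.L2 (IsPr Pd mem_Pd)
open scoped Classical

-- deps:
def S_GS : Prop :=
  ∀ (F : Type) [Field F] [Fintype F] [DecidableEq F] (Γ : Type) [Group Γ] [Fintype Γ]
    (φ : Γ →* Fˣ) (K : Subring F) (ξ : F), (∀ g, (φ g : F) ∈ K) →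
    (∀ κ ∈ K, ch F (ξ * κ) = 1) ∨
      (Nat.card φ.range : ℝ) ^ 2 * ‖ft (mu φ) ξ‖ ^ 2 ≤ Nat.card K

-- deps: GS
def S_ONE : Prop :=
  ∀ (F : Type) [Field F] [Fintype F] [DecidableEq F] (Γ : Type) [Group Γ] [Fintype Γ]
    (φ : Γ →* Fˣ), Fintype.card F ^ 6 ≤ Nat.card φ.range ^ 10 → Fk φ 10 ≤ 2 / Fintype.card F

-- deps:
def S_PERP : Prop :=
  ∀ (F : Type) [Field F] [Fintype F] [DecidableEq F] (K : Subring F) (u u' : Fˣ),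
    ((univ.filter fun ξ : F => ∀ κ ∈ K, ch F (u * ξ * κ) = 1).card : ℝ) * Nat.card K =
      Fintype.card F ∧
    (((u * u'⁻¹ : Fˣ) : F) ∉ K → ((univ.filter fun ξ : F => (∀ κ ∈ K, ch F (u * ξ * κ) = 1) ∧
      ∀ κ ∈ K, ch F (u' * ξ * κ) = 1).card : ℝ) * (Nat.card K : ℝ) ^ 2 = Fintype.card F)

-- deps: GS PERP
def S_TWO : Prop :=
  ∀ (F : Type) [Field F] [Fintype F] [DecidableEq F] (Γ : Type) [Group Γ] [Fintype Γ]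
    (φ : Γ →* Fˣ) (K : Subring F) (N D : ℕ) (u : IX N D → Fˣ) (r : F) (G : Finset (Fin 12)),
    (∀ g, (φ g : F) ∈ K) → Nat.card K ^ 6 ≤ Nat.card φ.range ^ 10 → 10 ≤ G.card →
    (∀ m ∈ G, ((u (.inl (m, 0)) * (u (.inl (m, 1)))⁻¹ : Fˣ) : F) ∉ K) →
    pr φ u r ≤ 4 / (Nat.card K : ℝ) ^ 2

-- deps:
def S_SP0 : Prop :=
  ∀ (F : Type) [Field F] [Fintype F] [DecidableEq F] [CharP F 2] (Γ : Type) [Group Γ] [Fintype Γ]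
    (φ : Γ →* Fˣ) (ξ : F) (g0 : Γ), ch F (ξ * ((φ g0 : F) - 1)) ≠ 1 →
    ‖ft (mu φ) ξ‖ ≤ 1 - 1 / (Nat.card φ.range : ℝ)

-- deps: SP0
def S_SPAN : Prop :=
  ∀ (F : Type) [Field F] [Fintype F] [DecidableEq F] [CharP F 2] (Γ : Type) [Group Γ] [Fintype Γ]
    (φ : Γ →* Fˣ) (x : Fˣ) (d N D E : ℕ) (u : IX N D → Fˣ) (r : F), Sp x d → d ≤ D →
    1 < Nat.card φ.range → Nat.card φ.range ≤ E → (∀ i, ∃ g, u i = x ^ alf i * φ g) →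
    pr φ u r ≤ 1 / Fintype.card F + (1 - 1 / (E : ℝ)) ^ N

-- deps:
def S_BR : Prop :=
  ∀ (F : Type) [Field F] [Fintype F] [DecidableEq F] (x : Fˣ) (M : ℕ) [NeZero M] (c : ℕ)
    (h : (x ^ c) ^ M = 1) (ι : Type) [Fintype ι] [DecidableEq ι] (b : ι → ℕ) (r : F),
    sh M c b (fun a => ∑ i, (x : F) ^ a i = r) = pr (expHom M (x ^ c) h) (fun i => x ^ b i) r

-- deps:
def S_SUB : Prop :=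
  ∀ (F : Type) [Field F] [Fintype F] [CharP F 2] (K : Subring F) (z : Fˣ),
    (∃ κ, 1 ≤ κ ∧ Nat.card K = 2 ^ κ) ∧ ∃ R, 1 ≤ R ∧ orderOf z = R * hk z K ∧
      (∀ t, ((z ^ t : Fˣ) : F) ∈ K ↔ R ∣ t) ∧ orderOf (z ^ R) = hk z K ∧
      hk z K ∣ Nat.card K - 1 ∧
      ∀ a b : ℕ, ((z ^ a * (z ^ b)⁻¹ : Fˣ) : F) ∈ K → a ≡ b [MOD R]

-- deps: BR SUB
def S_HB1 : Prop :=
  ∃ k1 E1 : ℕ, ∀ (F : Type) [Field F] [Fintype F] [DecidableEq F] [CharP F 2] (x : Fˣ) (M : ℕ)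
    [NeZero M] (c : ℕ) (ι : Type) [Fintype ι] (b : ι → ℕ) (r : F) (h Q : ℝ), x ^ M = 1 →
    k1 ≤ Fintype.card ι → E1 ≤ orderOf (x ^ c) → 0 < h → h ^ 20 = orderOf (x ^ c) → 0 < Q →
    (∀ K : Subring F, (orderOf (x ^ c) : ℝ) ≤ h * hk (x ^ c) K → Q ≤ Nat.card K) →
    sh M c b (fun a => ∑ i, (x : F) ^ a i = r) ≤ 1 / (orderOf (x ^ c) : ℝ) ^ 4 + h / Q

-- deps:
def S_SHF : Prop :=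
  ∀ (M : ℕ) [NeZero M] (ι : Type) [Fintype ι] (c R : ℕ) (b : ι → ℕ) (G : (ι → ℕ) → Prop) (w : ℝ),
    Per M G → (∀ b', sh M (c * R) b' G ≤ w) → sh M c b G ≤ w

-- deps: BR TWO SHF
def S_HB2 : Prop :=
  ∀ (F : Type) [Field F] [Fintype F] [DecidableEq F] (x : Fˣ) (M : ℕ) [NeZero M]
    (c R R' N D : ℕ) (K : Subring F) (b : IX N D → ℕ) (r : F), x ^ M = 1 → R ∣ M → R ∣ c * R' →
    (∀ t, (((x ^ (c * R')) ^ t : Fˣ) : F) ∈ K) →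
    (∀ a a' : ℕ, ((x ^ a * (x ^ a')⁻¹ : Fˣ) : F) ∈ K → a ≡ a' [MOD R]) →
    Nat.card K ^ 6 ≤ orderOf (x ^ (c * R')) ^ 10 →
    sh M c b (fun a => ∑ i, (x : F) ^ a i = r ∧ ¬ Dg R a) ≤ 4 / (Nat.card K : ℝ) ^ 2

-- deps:
def S_NUM : Prop :=
  ∀ (e h1 Q : ℕ) (h : ℝ), 1 ≤ e → 0 < h → h ^ 20 = e → (e : ℝ) ≤ h * h1 → h1 ≤ Q →
    e ^ 19 ≤ h1 ^ 20 ∧ (Q ^ 2 < e ^ 3 → Q ^ 6 ≤ h1 ^ 10) ∧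
    (e ^ 3 ≤ Q ^ 2 → h / Q ≤ 4 / ((Q : ℝ) ^ (4 / 15 : ℝ) * (e : ℝ) ^ (21 / 20 : ℝ))) ∧
    4 / (Q : ℝ) ^ 2 ≤ 4 / ((Q : ℝ) ^ (4 / 15 : ℝ) * (e : ℝ) ^ (21 / 20 : ℝ))

-- deps: BR ONE SUB HB1 HB2 NUM
def S_HB : Prop :=
  ∃ k1 E1 : ℕ, ∀ (F : Type) [Field F] [Fintype F] [DecidableEq F] [CharP F 2] (x : Fˣ) (M : ℕ)
    [NeZero M] (c d N D : ℕ), x ^ M = 1 → Sp x d → k1 ≤ N * D → E1 ≤ orderOf (x ^ c) →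
    (∀ (b : IX N D → ℕ) (r : F),
      sh M c b (fun a => ∑ i, (x : F) ^ a i = r) ≤ 2 / Fintype.card F) ∨
    ∃ κ, 1 ≤ κ ∧ orderOf (x ^ c) ^ 19 ≤ Nat.gcd (orderOf (x ^ c)) (2 ^ κ - 1) ^ 20 ∧
      ∀ (b : IX N D → ℕ) (r : F), sh M c b (fun a => ∑ i, (x : F) ^ a i = r ∧
          ∀ R, 1 < R → R ∣ orderOf x → ¬ Dg R a) ≤ 1 / (orderOf (x ^ c) : ℝ) ^ 4 +
        4 / (((2 : ℝ) ^ κ) ^ (4 / 15 : ℝ) * (orderOf (x ^ c) : ℝ) ^ (21 / 20 : ℝ))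

-- deps:
def S_FLD : Prop :=
  ∀ P : (ZMod 2)[X], IsPr P → P ≠ X → ∃ (F : Type) (_ : Field F) (_ : Fintype F)
    (_ : DecidableEq F) (_ : CharP F 2) (x : Fˣ) (ev : (ZMod 2)[X] →+* F), ev X = x ∧
    (∀ g, ev g = 0 ↔ P ∣ g) ∧ Fintype.card F = 2 ^ P.natDegree ∧ Sp x P.natDegree ∧
    ∀ c, orderOf (x ^ c) = oo P c

-- deps: FLD
def S_ORD : Prop :=
  ∀ (P : (ZMod 2)[X]) (c : ℕ), IsPr P → P ≠ X →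
    (∀ t, P ∣ X ^ (c * t) - 1 ↔ oo P c ∣ t) ∧ oo P c ∣ 2 ^ P.natDegree - 1 ∧ 1 ≤ oo P c ∧
    (1 ≤ c → P.natDegree ≤ c * oo P c) ∧
    ∀ L0, c = 2 ^ L0 - 1 → 1 < oo P c → ¬ P.natDegree ∣ L0

-- deps:
def S_CNT : Prop :=
  ∀ (S : Finset (ZMod 2)[X]) (m : ℕ), 1 ≤ m → (∀ P ∈ S, IsPr P ∧ P ∣ X ^ m - 1) → S.card ≤ m

-- deps: FLD BR ONE SPAN HB
def S_PP : Prop :=
  ∃ k1 E1 : ℕ, ∀ (P : (ZMod 2)[X]) (M : ℕ) [NeZero M] (c N D : ℕ), IsPr P → P ≠ X →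
    2 ^ P.natDegree - 1 ∣ M →
    ((2 ^ P.natDegree) ^ 6 ≤ oo P c ^ 10 → ∀ f (b : IX N D → ℕ),
      sh M c b (Bad P f) ≤ 2 / 2 ^ P.natDegree) ∧
    (∀ E : ℕ, 1 < oo P c → oo P c ≤ E → P.natDegree ≤ D → (1 - 1 / (E : ℝ)) ^ N ≤ 1 / 2 ^ D →
      ∀ f (b : IX N D → ℕ), (∀ i, ∃ m, b i = alf i + c * m) →
        sh M c b (Bad P f) ≤ 2 / 2 ^ P.natDegree) ∧
    (k1 ≤ N * D → E1 ≤ oo P c →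
      (∀ f (b : IX N D → ℕ), sh M c b (Bad P f) ≤ 2 / 2 ^ P.natDegree) ∨
      ∃ κ, 1 ≤ κ ∧ oo P c ^ 19 ≤ Nat.gcd (oo P c) (2 ^ κ - 1) ^ 20 ∧
        ∀ f (b : IX N D → ℕ), sh M c b (Cad P f) ≤ 1 / (oo P c : ℝ) ^ 4 +
          4 / (((2 : ℝ) ^ κ) ^ (4 / 15 : ℝ) * (oo P c : ℝ) ^ (21 / 20 : ℝ)))

-- deps: ORD
def S_PER : Prop :=
  ∀ (P f : (ZMod 2)[X]) (N D : ℕ), IsPr P → P ≠ X →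
    Per (2 ^ P.natDegree - 1) (Bad P f : (IX N D → ℕ) → Prop) ∧
    Per (2 ^ P.natDegree - 1) (Cad P f : (IX N D → ℕ) → Prop) ∧
    ∀ R R', R ∣ R' → Per R' (Dg R : (IX N D → ℕ) → Prop)

-- deps:
def S_DEG : Prop :=
  ∀ (M : ℕ) [NeZero M] (c R N D : ℕ) (b : IX N D → ℕ), 1 < R → R ∣ M →
    (R.Coprime c → sh M c b (Dg R) ≤ 220 / (R : ℝ) ^ 3) ∧
    (¬ R.Coprime c → (∀ i, ∃ m, b i = alf i + c * m) → sh M c b (Dg R) = 0)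

-- deps:
def S_DEG2 : Prop :=
  ∀ y L0 L R : ℕ, 1 ≤ L → y.factorial ∣ L0 → 1 < R → R ∣ 2 ^ L - 1 →
    (R.Coprime (2 ^ L0 - 1) → y < R) ∧ ∃ d, 1 ≤ d ∧ d ≤ R ∧ d ∣ L ∧ R ∣ 2 ^ d - 1

-- deps:
def S_ALS : Prop :=
  ∀ (N D M : ℕ) [NeZero M] (y L0 L : ℕ) (G : (IX N D → ℕ) → Prop) (j : Fin (L + 1))
    (ω : Fin (L + 1) → IX N D → ZMod M), L0 ∈ (y + 1).smoothNumbers → L0 ∣ L → 1 ≤ L →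
    ∃ b : IX N D → ℕ, (∀ i, ∃ m, b i = alf i + (2 ^ L0 - 1) * m) ∧
      al (fun ω => G (ex y L0 L ω)) j ω = sh M (cj y L0 L j) b G

-- deps:
def S_IND : Prop :=
  ∀ (N D M y L0 L d : ℕ) (G : (IX N D → ℕ) → Prop), 1 ≤ L → d ∣ L → Per (2 ^ d - 1) G →
    (∀ j ∉ JD y L d, Ind (fun ω : Fin (L + 1) → IX N D → ZMod M => G (ex y L0 L ω)) j) ∧
    (6 / 5 : ℝ) ^ (JD y L d).card ≤ 2 * tau d ∧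
    (d ∈ (y + 1).smoothNumbers → (6 / 5 : ℝ) ^ (JD y L d).card ≤ 6 / 5)

-- deps:
def S_DIST : Prop :=
  ∀ (n : ℕ) (Ω τ : Type) [Fintype Ω] [Nonempty Ω] (A : Fin n → (Fin n → Ω) → Prop) (T : Finset τ)
    (C : τ → (Fin n → Ω) → Prop) (J : τ → Finset (Fin n)) (w : τ → ℝ) (j0 : Fin n),
    (∀ j i, j < i → Ind (A j) i) → (∀ j x, al (A j) j x ≤ 1 / 6) →
    (∀ t ∈ T, ∀ j ∉ J t, Ind (C t) j) → (∀ t ∈ T, ∀ x, al (C t) j0 x ≤ w t) →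
    ∑ t ∈ T, (6 / 5) ^ (J t).card * w t < 1 → ∃ x, (∀ j, ¬ A j x) ∧ ∀ t ∈ T, ¬ C t x

-- deps:
def S_SM : Prop :=
  ∃ y0 : ℕ, ∀ l, y0 ≤ l → l.Prime → ∀ S : Finset (ZMod 2)[X],
    (∀ P ∈ S, IsPr P ∧ l ∣ P.natDegree ∧ P.natDegree ∈ (l + 1).smoothNumbers) →
    ∑ P ∈ S, (2 : ℝ) / 2 ^ P.natDegree ≤ 1 / 6

-- deps:
def S_S0 : Prop :=
  ∀ (y : ℕ) (S : Finset ℕ), 4400 ≤ y → (∀ R ∈ S, y < R) →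
    ∑ R ∈ S, 2 * (R : ℝ) * (220 / (R : ℝ) ^ 3) ≤ 1 / 10

-- deps:
def S_S1 : Prop :=
  ∀ y : ℕ, ∃ D0 ∈ (y + 1).smoothNumbers, ∀ S : Finset (ZMod 2)[X],
    (∀ P ∈ S, IsPr P ∧ P.natDegree ∈ (y + 1).smoothNumbers ∧ ¬ P.natDegree ∣ D0) →
    ∑ P ∈ S, 6 / 5 * ((2 : ℝ) / 2 ^ P.natDegree) ≤ 1 / 10

-- deps: CNT
def S_S2 : Prop :=
  ∃ y0 : ℕ, ∀ (σ : ℕ → ℕ) (S : Finset (ZMod 2)[X]),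
    (∀ P ∈ S, IsPr P ∧ y0 ≤ P.natDegree ∧ 1 ≤ σ P.natDegree ∧ 10 * σ P.natDegree ≤ P.natDegree ∧
      ∃ t, t ∣ 2 ^ P.natDegree - 1 ∧ t ^ 10 < (2 ^ P.natDegree) ^ 6 ∧
        P ∣ X ^ ((2 ^ σ P.natDegree - 1) * t) - 1) →
    ∑ P ∈ S, 2 * (tau P.natDegree : ℝ) * (2 / 2 ^ P.natDegree) ≤ 1 / 10

-- deps: ORD CNT
def S_S3 : Prop :=
  ∀ c : ℕ, 1 ≤ c → ∃ E1 : ℕ, ∀ S : Finset (ZMod 2)[X],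
    (∀ P ∈ S, IsPr P ∧ P ≠ X ∧ E1 ≤ oo P c) →
    ∑ P ∈ S, 2 * (tau P.natDegree : ℝ) * (1 / (oo P c : ℝ) ^ 4) ≤ 1 / 10

-- deps:
def S_S4A : Prop :=
  ∃ C : ℝ, 1 ≤ C ∧ ∀ (κ : ℕ) (S : Finset ℕ), 1 ≤ κ →
    (∀ e ∈ S, 1 ≤ e ∧ e ^ 19 ≤ Nat.gcd e (2 ^ κ - 1) ^ 20) →
    (S.card : ℝ) ≤ C * ((2 : ℝ) ^ κ) ^ (11 / 100 : ℝ) ∧ ∀ e ∈ S, e ≤ 4 ^ κ

-- deps: ORD CNT S4A
def S_S4 : Prop :=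
  ∀ c : ℕ, 1 ≤ c → ∃ E1 : ℕ, ∀ (κ : (ZMod 2)[X] → ℕ) (S : Finset (ZMod 2)[X]),
    (∀ P ∈ S, IsPr P ∧ P ≠ X ∧ E1 ≤ oo P c ∧ 1 ≤ κ P ∧
      oo P c ^ 19 ≤ Nat.gcd (oo P c) (2 ^ κ P - 1) ^ 20) →
    ∑ P ∈ S, 2 * (tau P.natDegree : ℝ) *
      (4 / (((2 : ℝ) ^ κ P) ^ (4 / 15 : ℝ) * (oo P c : ℝ) ^ (21 / 20 : ℝ))) ≤ 1 / 10

-- deps: ORD
def S_EX2 : Prop :=
  ∀ (P : (ZMod 2)[X]) (y L0 L l : ℕ), IsPr P → P ≠ X → 1 ≤ L → P.natDegree ∣ L → l.Prime →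
    y < l → 10 ≤ y → l ∣ P.natDegree →
    1 ≤ Nat.gcd (L / l ^ L.factorization l) P.natDegree ∧
    10 * Nat.gcd (L / l ^ L.factorization l) P.natDegree ≤ P.natDegree ∧
    P ∣ X ^ ((2 ^ Nat.gcd (L / l ^ L.factorization l) P.natDegree - 1) * oo P (cj y L0 L l)) - 1

-- deps: ORD PP PER DEG DEG2 ALS IND DIST SM S0 S1 S2 S3 S4 EX2
def S_AV : Prop :=
  ∃ c N D : ℕ, 1 ≤ c ∧ ∀ (f : (ZMod 2)[X]) (S : Finset (ZMod 2)[X]),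
    (∀ P ∈ S, IsPr P ∧ P ≠ X ∧ ¬ P ∣ X ^ c - 1) →
    ∃ a : IX N D → ℕ, (∀ i, ∃ m, a i = alf i + c * m) ∧ ∀ P ∈ S, ¬ Bad P f a

end Pool.Agent.P.MP_42fc1a_nt.TU
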