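import Pool.Agent.P.MP_42fc1a_nt.TU.GrowF

/-! An invariant set of intermediate size has small additive energy. -/

set_option autoImplicit false
set_option linter.unusedSectionVars false

namespace Pool.Agent.P.MP_42fc1a_nt.TU

open Finset
open scoped Pointwise

variable {F : Type} [Field F] [Fintype F] [DecidableEq F] [CharP F 2] {Γ : Type} [Group Γ]
  [Fintype Γ]

theorem many_overlap (φ : Γ →* Fˣ) (A0 A : Finset F) (hA : A ⊆ A0)
    (inv : ∀ g x, (φ g : F) * x ∈ A0 ↔ x ∈ A0) :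
    (Fintype.card Γ : ℝ) * (A.card : ℝ) ^ 2 ≤
      A0.card * ∑ g, ((A.filter fun y => (φ g : F) * y ∈ A).card : ℝ) := by
  classical
  let m : F → ℝ := fun x => ∑ g, if (φ g : F) * x ∈ A then 1 else 0
  have hperm : ∀ (g : Γ) (f : F → ℝ), ∑ x ∈ A0, f ((φ g : F) * x) = ∑ x ∈ A0, f x := by
    intro g f
    refine sum_bijective (fun x => (φ g : F) * x) (Units.mulLeft (φ g)).bijective
      (fun x => (inv g x).symm) (fun _ _ => rfl)
  have hind : ∀ f : F → ℝ, ∑ x ∈ A0, (if x ∈ A then f x else 0) = ∑ x ∈ A, f x := by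
    intro f
    rw [← sum_filter, filter_mem_eq_inter, inter_eq_right.2 hA]
  have h1 : ∑ x ∈ A0, m x = Fintype.card Γ * A.card := by
    simp only [m]
    rw [sum_comm]
    have : ∀ g : Γ, ∑ x ∈ A0, (if (φ g : F) * x ∈ A then (1 : ℝ) else 0) = A.card := by
      intro g
      rw [hperm g (fun x => if x ∈ A then (1 : ℝ) else 0), hind]
      simp
    simp [this]
  have h2 : ∑ x ∈ A0, m x ^ 2 = Fintype.card Γ *
      ∑ g, ((A.filter fun y => (φ g : F) * y ∈ A).card : ℝ) := by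
    simp only [m, sq, sum_mul_sum]
    rw [sum_comm]
    have : ∀ g : Γ, ∑ x ∈ A0, ∑ g' : Γ, (if (φ g : F) * x ∈ A then (1 : ℝ) else 0) *
        (if (φ g' : F) * x ∈ A then (1 : ℝ) else 0) =
        ∑ g', ((A.filter fun y => (φ g' : F) * y ∈ A).card : ℝ) := by
      intro g
      rw [sum_comm, ← Equiv.sum_comp (Equiv.mulRight g)]
      refine sum_congr rfl fun g' _ => ?_
      rw [card_filter]
      push_cast
      rw [← hind, ← hperm g (fun x => if x ∈ A then
        (if (φ g' : F) * x ∈ A then (1 : ℝ) else 0) else 0)]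
      refine sum_congr rfl fun x _ => ?_
      simp only [Equiv.coe_mulRight, map_mul, Units.val_mul, mul_assoc]
      split_ifs <;> simp
    simp only [this]
    simp
  have h3 := sq_sum_le_card_mul_sum_sq (s := A0) (f := m)
  rw [h1, h2] at h3
  have hG : (0 : ℝ) < Fintype.card Γ := by exact_mod_cast Fintype.card_pos
  refine le_of_mul_le_mul_left ?_ hG
  nlinarith

theorem good_of_overlap {A Z : Finset F} (hA : A.Nonempty) {La L : ℝ}
    (hZ : (Z.card : ℝ) ≤ La)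
    (hBZ : ∀ b ∈ A - A, ∀ b' ∈ A - A, ∃ z ∈ Z, ∃ b'' ∈ A - A, b + b' = z + b'')
    (u : Fˣ)
    (h : ((A - A).card : ℝ) ^ 2 ≤ L * A.card * (A.filter fun y => (u : F) * y ∈ A).card)
    (h0 : (A.filter fun y => (u : F) * y ∈ A).Nonempty) :
    Good (A - A) (L * L * La) u := by
  set C := A.filter fun y => (u : F) * y ∈ A with hC
  let f : F → F := fun y => (u : F) * y
  have hf : Function.Injective f := (Units.mulLeft u).injective
  have h1 := ruzsa_triangle_inequality_sub_sub_sub (A.image f) (C.image f) A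
  rw [card_image_of_injective _ hf] at h1
  have h2 : (A.image f - C.image f).card ≤ (A - A).card := by
    rw [← card_image_of_injective (A - A) hf]
    refine card_le_card fun x hx => ?_
    obtain ⟨a, ha, c, hc, rfl⟩ := mem_sub.1 hx
    obtain ⟨a, ha', rfl⟩ := mem_image.1 ha
    obtain ⟨c, hc', rfl⟩ := mem_image.1 hc
    exact mem_image.2 ⟨a - c, sub_mem_sub ha' (mem_filter.1 hc').1, by simp [f, mul_sub]⟩
  have h3 : (A - C.image f).card ≤ (A - A).card := by
    refine card_le_card (sub_subset_sub_left fun x hx => ?_)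
    obtain ⟨c, hc', rfl⟩ := mem_image.1 hx
    exact (mem_filter.1 hc').2
  have hC0 : (0 : ℝ) < C.card := by exact_mod_cast h0.card_pos
  have h4 : ((A.image f - A).card : ℝ) ≤ L * A.card := by
    refine le_of_mul_le_mul_right (le_trans ?_ h) hC0
    have : (A.image f - A).card * C.card ≤ (A - A).card ^ 2 :=
      h1.trans (by rw [sq]; exact Nat.mul_le_mul h2 h3)
    exact_mod_cast this
  obtain ⟨F0, -, hF, hF'⟩ := ruzsa_covering_add (A := A.image f) (B := -A) (K := L) hA.neg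
    (by rw [← sub_eq_add_neg, card_neg]; exact h4)
  have hcov : ∀ a ∈ A, ∃ x ∈ F0, ∃ b ∈ A - A, (u : F) * a = x + b := by
    intro a ha
    obtain ⟨x, hx, b, hb, e⟩ := mem_add.1 (hF' (mem_image_of_mem f ha))
    obtain ⟨c, hc, d, hd, rfl⟩ := mem_sub.1 hb
    refine ⟨x, hx, c - d, mem_sub.2 ⟨-d, mem_neg'.1 hd, -c, mem_neg'.1 hc, by ring⟩, e.symm⟩
  refine ⟨F0 - F0 + Z, ?_, fun b hb => ?_⟩
  · calc _ ≤ ((F0.card * F0.card * Z.card : ℕ) : ℝ) := by
          exact_mod_cast card_add_le.trans (Nat.mul_le_mul_right _ card_sub_le)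
      _ ≤ _ := by
        push_cast
        have hL : 0 ≤ L := (Nat.cast_nonneg _).trans hF
        gcongr
  · obtain ⟨a, ha, a', ha', rfl⟩ := mem_sub.1 hb
    obtain ⟨x, hx, b1, hb1, e1⟩ := hcov a ha
    obtain ⟨x', hx', b2, hb2, e2⟩ := hcov a' ha'
    have hb2' : -b2 ∈ A - A := by
      obtain ⟨c, hc, d, hd, rfl⟩ := mem_sub.1 hb2
      exact mem_sub.2 ⟨d, hd, c, hc, by ring⟩
    obtain ⟨z, hz, b3, hb3, e3⟩ := hBZ b1 hb1 _ hb2'
    refine ⟨x - x' + z, add_mem_add (sub_mem_sub hx hx') hz, b3, hb3, ?_⟩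
    linear_combination e1 - e2 + e3

theorem exists_Z {A : Finset F} (hA : A.Nonempty) {K : ℝ}
    (hK : ((A - A).card : ℝ) ≤ K * A.card) : ∃ Z : Finset F, (Z.card : ℝ) ≤ K ^ 5 ∧
      ∀ b ∈ A - A, ∀ b' ∈ A - A, ∃ z ∈ Z, ∃ b'' ∈ A - A, b + b' = z + b'' := by
  obtain ⟨F0, -, hF, hF'⟩ := ruzsa_covering_add (A := (A - A) + (A - A)) (B := A) (K := K ^ 5) hA
    (by
      refine le_trans ?_ (pr_real hA hK 3 2)
      norm_cast
      refine card_le_card fun x hx => ?_
      obtain ⟨y, hy, a5, h5, rfl⟩ := mem_add.1 hx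
      obtain ⟨b, hb, b', hb', rfl⟩ := mem_add.1 hy
      obtain ⟨a1, h1, a2, h2, rfl⟩ := mem_sub.1 hb
      obtain ⟨a3, h3, a4, h4, rfl⟩ := mem_sub.1 hb'
      rw [succ_nsmul, two_nsmul]
      exact mem_sub.2 ⟨a1 + a3 + a5, add_mem_add (add_mem_add h1 h3) h5, a2 + a4,
        add_mem_add h2 h4, by ring⟩)
  refine ⟨F0, hF, fun b hb b' hb' => ?_⟩
  obtain ⟨x, hx, c, hc, e⟩ := mem_add.1 (hF' (add_mem_add hb hb'))
  exact ⟨x, hx, c, hc, e.symm⟩

theorem image_le_of_good {A : Finset F} (hA : A.Nonempty) {K L : ℝ}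
    (hK : ((A - A).card : ℝ) ≤ K * A.card) {lam : F} (h : Good (A - A) L lam) :
    ((image₂ (fun a c => a + lam * c) A A).card : ℝ) ≤ L * (K ^ 3 * A.card) := by
  obtain ⟨X, hX, hX'⟩ := h
  obtain ⟨a0, ha0⟩ := hA
  have h1 : image₂ (fun a c => a + lam * c) A A ⊆
      image₂ (fun x w => lam * a0 + x + w) X (2 • A - 1 • A) := by
    intro y hy
    obtain ⟨a, ha, c, hc, rfl⟩ := mem_image₂.1 hy
    obtain ⟨x, hx, b, hb, e⟩ := hX' (c - a0) (sub_mem_sub hc ha0)
    obtain ⟨a1, h1, a2, h2, rfl⟩ := mem_sub.1 hb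
    refine mem_image₂.2 ⟨x, hx, a + a1 - a2, ?_, by linear_combination -e⟩
    rw [two_nsmul, one_nsmul]
    exact sub_mem_sub (add_mem_add ha h1) h2
  calc _ ≤ ((X.card * (2 • A - 1 • A).card : ℕ) : ℝ) := by
        exact_mod_cast (card_le_card h1).trans (card_image₂_le _ _ _)
    _ ≤ _ := by
      push_cast
      exact mul_le_mul hX (pr_real ⟨a0, ha0⟩ hK 2 1) (Nat.cast_nonneg _)
        ((Nat.cast_nonneg _).trans hX)

open Classical in
/-- every subring that holds a share `1/h` of the image has at least `N` elements -/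
def Big (φ : Γ →* Fˣ) (h N : ℝ) : Prop :=
  ∀ K : Subring F, (Fintype.card Γ : ℝ) ≤ h * (univ.filter fun g => (φ g : F) ∈ K).card →
    N ≤ Nat.card K

theorem image_big (φ : Γ →* Fˣ) {h : ℝ}
    (hNC : ∀ c : F, h * ∑ g, nuI ((φ g : F) - c) ≤ Fintype.card Γ) (hh : 0 ≤ h) (S0 : Finset Γ) :
    h * S0.card ≤ (S0.image fun g => (φ g : F)).card * Fintype.card Γ := by
  classical
  have h4 : (S0.card : ℝ) ≤ ∑ s ∈ S0.image fun g => (φ g : F), ∑ g, nuI ((φ g : F) - s) := by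
    rw [sum_comm]
    calc (S0.card : ℝ) = ∑ _g ∈ S0, (1 : ℝ) := by simp
      _ ≤ ∑ g ∈ S0, ∑ s ∈ S0.image fun g => (φ g : F), nuI ((φ g : F) - s) := by
          refine sum_le_sum fun g hg => le_trans ?_ (single_le_sum
            (f := fun s => nuI ((φ g : F) - s)) (fun _ _ => nuI_nonneg _)
            (mem_image_of_mem (fun g => (φ g : F)) hg))
          simp [nuI]
      _ ≤ _ := sum_le_sum_of_subset_of_nonneg (subset_univ _)
          fun _ _ _ => sum_nonneg fun _ _ => nuI_nonneg _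
  calc h * S0.card ≤ h * ∑ s ∈ S0.image fun g => (φ g : F), ∑ g, nuI ((φ g : F) - s) := by gcongr
    _ = ∑ s ∈ S0.image fun g => (φ g : F), h * ∑ g, nuI ((φ g : F) - s) := by rw [mul_sum]
    _ ≤ ∑ _s ∈ S0.image fun g => (φ g : F), (Fintype.card Γ : ℝ) := sum_le_sum fun s _ => hNC s
    _ = _ := by simp

theorem setflat (K : ℕ) (φ : Γ →* Fˣ) {M N : ℝ} (hM : 1024 ≤ M) (hNpos : 0 < N)
    (hB0 : Big φ (M ^ (2 * FF K)) N)
    (hNC : ∀ c : F, M ^ (2 * FF K) * ∑ g, nuI ((φ g : F) - c) ≤ Fintype.card Γ)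
    (A0 : Finset F) (inv : ∀ g x, (φ g : F) * x ∈ A0 ↔ x ∈ A0) (hne : A0.Nonempty)
    (hE : (A0.card : ℝ) ^ 3 ≤ M ^ 12 * ∑ d, rr A0 d ^ 2)
    (hs1 : (A0.card : ℝ) ≤ M ^ 2 * M ^ (2 * FF K * K))
    (hs2 : (A0.card : ℝ) * M ^ FF K ≤ M ^ 2 * N)
    (hnc : ∀ c, M ^ (2 * FF K) * ∑ x ∈ A0, nuI (x - c) ≤ M ^ 4 * A0.card) : False := by
  classical
  obtain ⟨D, hD⟩ : ∃ D, D = 694 * cc (2 * K) + 222 := ⟨_, rfl⟩
  have hF : FF K = D + 19 := by rw [hD, FF]
  rw [hF] at hNC hs1 hs2 hnc hB0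
  have hM0 : 0 < M := by linarith
  have hM1 : 1 ≤ M := by linarith
  obtain ⟨A, hAA, hA1, hA2⟩ := bsg A0 hne (K := M ^ 12) (by positivity) hE
  set a0 : ℝ := (A0.card : ℝ) with ha0
  set a : ℝ := (A.card : ℝ) with ha
  have ha01 : 1 ≤ a0 := by rw [ha0]; exact_mod_cast hne.card_pos
  have haa : a ≤ a0 := by rw [ha, ha0]; exact_mod_cast card_le_card hAA
  have ha00 : 0 ≤ a := Nat.cast_nonneg _
  have h13 : 2 * a0 ≤ M ^ 13 * a := by
    have h2 : 0 ≤ M ^ 12 * a := by positivity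
    calc 2 * a0 ≤ 2 * (4 * M ^ 12 * a) := by gcongr
      _ = 8 * (M ^ 12 * a) := by ring
      _ ≤ M * (M ^ 12 * a) := mul_le_mul_of_nonneg_right (le_trans (by norm_num) hM) h2
      _ = _ := by ring
  have hapos : 0 < a := by
    by_contra hh
    have : a = 0 := le_antisymm (not_lt.1 hh) ha00
    rw [this] at h13
    linarith
  have hA : A.Nonempty := by
    rw [← card_pos]; exact_mod_cast (ha ▸ hapos)
  have hK2 : ((A - A).card : ℝ) ≤ M ^ 74 * a := by
    refine hA2.trans ?_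
    have e : M ^ 74 * a = M * M ^ 60 * (M ^ 13 * a) := by ring
    have e2 : (M ^ 12) ^ 5 = M ^ 60 := by ring
    rw [e, e2]
    gcongr
    linarith
  obtain ⟨Z, hZ, hBZ⟩ := exists_Z hA hK2
  have hZ' : (Z.card : ℝ) ≤ M ^ 694 := hZ.trans (by
    rw [← pow_mul]; exact pow_le_pow_right₀ hM1 (by norm_num))
  let n : Γ → ℝ := fun g => ((A.filter fun y => (φ g : F) * y ∈ A).card : ℝ)
  let S0 : Finset Γ := univ.filter fun g => a ≤ M ^ 13 * n g
  have hG : (0 : ℝ) < Fintype.card Γ := by exact_mod_cast Fintype.card_pos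
  have hS0 : (Fintype.card Γ : ℝ) ≤ M ^ 13 * S0.card := by
    have h1 := many_overlap φ A0 A hAA inv
    have h2 : ∑ g, n g ≤ S0.card * a + Fintype.card Γ * (a ^ 2 / (2 * a0)) := by
      have : ∀ g, n g ≤ (if a ^ 2 / (2 * a0) ≤ n g then a else 0) + a ^ 2 / (2 * a0) := by
        intro g
        have h3 : n g ≤ a := by
          simp only [n, ha]; exact_mod_cast card_filter_le _ _
        have h4 : 0 ≤ a ^ 2 / (2 * a0) := by positivity
        split_ifs with h5
        · linarith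
        · linarith [not_le.1 h5]
      refine (sum_le_sum fun g _ => this g).trans ?_
      rw [sum_add_distrib, ← sum_filter]
      simp only [sum_const, nsmul_eq_mul, card_univ]
      gcongr
      intro g hg
      have h6 := (mem_filter.1 hg).2
      rw [div_le_iff₀ (by positivity)] at h6
      refine mem_filter.2 ⟨mem_univ _, ?_⟩
      have h7 : 0 ≤ n g := Nat.cast_nonneg _
      refine le_of_mul_le_mul_right ?_ hapos
      calc a * a = a ^ 2 := by ring
        _ ≤ n g * (2 * a0) := h6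
        _ ≤ n g * (M ^ 13 * a) := mul_le_mul_of_nonneg_left h13 h7
        _ = _ := by ring
    have h3 : a0 * (Fintype.card Γ * (a ^ 2 / (2 * a0))) = Fintype.card Γ * a ^ 2 / 2 := by
      field_simp
    have h4 : (Fintype.card Γ : ℝ) * a ^ 2 ≤ a0 * (S0.card * a) + Fintype.card Γ * a ^ 2 / 2 := by
      rw [← h3, ← mul_add]
      exact h1.trans (mul_le_mul_of_nonneg_left h2 (by positivity))
    have h5 : (0 : ℝ) ≤ S0.card * a := by positivity
    refine le_of_mul_le_mul_right ?_ (pow_pos hapos 2)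
    have h6 : (Fintype.card Γ : ℝ) * a ^ 2 ≤ 2 * a0 * (S0.card * a) := by
      clear hZ' hZ hBZ
      linarith
    calc _ ≤ _ := h6
      _ ≤ M ^ 13 * a * (S0.card * a) := mul_le_mul_of_nonneg_right h13 h5
      _ = _ := by ring
  let S : Finset F := S0.image fun g => (φ g : F)
  have hS1 : ∀ s ∈ S, ∃ g ∈ S0, (φ g : F) = s := fun s hs => mem_image.1 hs
  have hS2 : ∀ s ∈ S, s ≠ 0 := fun s hs => by
    obtain ⟨g, -, rfl⟩ := hS1 s hs
    exact (φ g).ne_zero
  have hS3 := image_big φ hNC (by positivity) S0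
  have hQ : N ≤ Nat.card (Subring.closure (S : Set F)) := by
    refine hB0 _ (hS0.trans (mul_le_mul (pow_le_pow_right₀ hM1 (by omega)) ?_ (by positivity)
      (by positivity)))
    exact_mod_cast card_le_card fun g hg =>
      mem_filter.2 ⟨mem_univ _, Subring.subset_closure (mem_coe.2 (mem_image_of_mem _ hg))⟩
  have hS4 : 2 * M ^ (D + 19) ≤ S.card := by
    have h1 : M ^ (2 * (D + 19)) * Fintype.card Γ ≤ (M ^ 13 * S.card) * Fintype.card Γ := by
      calc _ ≤ M ^ (2 * (D + 19)) * (M ^ 13 * S0.card) := by gcongr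
        _ = M ^ 13 * (M ^ (2 * (D + 19)) * S0.card) := by ring
        _ ≤ M ^ 13 * (S.card * Fintype.card Γ) := by gcongr
        _ = _ := by ring
    have h2 := le_of_mul_le_mul_right h1 hG
    have h3 : M ^ 13 * (2 * M ^ (D + 19)) ≤ M ^ (2 * (D + 19)) := by
      have e : M ^ (2 * (D + 19)) = M ^ 13 * (M ^ (D + 6) * M ^ (D + 19)) := by ring
      rw [e]
      gcongr
      calc (2 : ℝ) ≤ M ^ 1 := by linarith [pow_one M]
        _ ≤ _ := pow_le_pow_right₀ hM1 (by omega)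
    exact le_of_mul_le_mul_left (h3.trans h2) (by positivity)
  have hS5 : 1 < S.card := by
    have : (1 : ℝ) ≤ M ^ (D + 19) := one_le_pow₀ hM1
    have : (1 : ℝ) < S.card := by linarith
    exact_mod_cast this
  have hB : ∀ b ∈ A - A, -b ∈ A - A := by
    intro b hb
    obtain ⟨c, hc, d, hd, rfl⟩ := mem_sub.1 hb
    exact mem_sub.2 ⟨d, hd, c, hc, by ring⟩
  have hGood : ∀ s ∈ S, Good (A - A) (M ^ 694) s := by
    intro s hs
    obtain ⟨g, hg, rfl⟩ := hS1 s hs
    have hg' : a ≤ M ^ 13 * n g := (mem_filter.1 hg).2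
    have hn0 : 0 < n g := by
      by_contra hh
      have : n g = 0 := le_antisymm (not_lt.1 hh) (Nat.cast_nonneg _)
      rw [this] at hg'
      linarith
    refine (good_of_overlap hA hZ (L := M ^ 161) hBZ (φ g) ?_ ?_).mono ?_
    · calc _ ≤ (M ^ 74 * a) ^ 2 := by gcongr
        _ = M ^ 148 * a * a := by ring
        _ ≤ M ^ 148 * a * (M ^ 13 * n g) := by gcongr
        _ = _ := by ring
    · rw [← card_pos]; exact Nat.cast_pos.1 hn0
    · rw [← pow_mul, ← pow_add, ← pow_add]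
      exact pow_le_pow_right₀ hM1 (by norm_num)
  obtain ⟨T, hT1, hT2⟩ := iter (A - A) Z S (one_le_pow₀ hM1) hB hZ' hBZ hS5 hS2 hNpos hQ hGood (2 * K)
  have hSpos : (0 : ℝ) < S.card := by exact_mod_cast (by omega : 0 < S.card)
  have hT : T.Nonempty := by
    rw [← card_pos]
    have : (0 : ℝ) < T.card := lt_of_lt_of_le (lt_min (by positivity) (by positivity)) hT2
    exact_mod_cast this
  obtain ⟨lam, hlam, hb⟩ := exists_big A A T hT
  have hI := image_le_of_good hA hK2 (hT1 lam hlam)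
  have eD : (M ^ 694) ^ cc (2 * K) * ((M ^ 74) ^ 3 * a) = M ^ D * a := by rw [hD]; ring
  rw [← ha, eD] at hI
  rw [← ha] at hb
  have hnu : M ^ (2 * (D + 19)) * nu A ≤ M ^ 17 * a ^ 2 := by
    have h1 : nu A ≤ ∑ d ∈ A, ∑ c ∈ A0, nuI (c - d) := by
      unfold nu
      rw [sum_comm]
      exact sum_le_sum fun d _ => sum_le_sum_of_subset_of_nonneg hAA fun _ _ _ => nuI_nonneg _
    calc _ ≤ M ^ (2 * (D + 19)) * ∑ d ∈ A, ∑ c ∈ A0, nuI (c - d) := by gcongr
      _ = ∑ d ∈ A, M ^ (2 * (D + 19)) * ∑ c ∈ A0, nuI (c - d) := by rw [mul_sum]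
      _ ≤ ∑ _d ∈ A, M ^ 4 * a0 := sum_le_sum fun d _ => hnc d
      _ = a * (M ^ 4 * a0) := by simp [ha]
      _ ≤ a * (M ^ 4 * (M ^ 13 * a)) := by gcongr; linarith
      _ = _ := by ring
  have hnu2 : 2 * M ^ D * nu A ≤ a ^ 2 := by
    have h1 : M ^ 17 * (2 * M ^ D) ≤ M ^ (2 * (D + 19)) := by
      have e : M ^ (2 * (D + 19)) = M ^ 17 * (M ^ (D + 21) * M ^ D) := by ring
      rw [e]
      gcongr
      calc (2 : ℝ) ≤ M ^ 1 := by linarith [pow_one M]
        _ ≤ _ := pow_le_pow_right₀ hM1 (by omega)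
    have hnu0 : 0 ≤ nu A := sum_nonneg fun _ _ => sum_nonneg fun _ _ => nuI_nonneg _
    refine le_of_mul_le_mul_left ?_ (pow_pos hM0 17)
    calc _ = M ^ 17 * (2 * M ^ D) * nu A := by ring
      _ ≤ M ^ (2 * (D + 19)) * nu A := by gcongr
      _ ≤ _ := hnu
  set t : ℝ := (T.card : ℝ) with ht
  have ht0 : 0 ≤ t := Nat.cast_nonneg _
  have hnu0 : 0 ≤ nu A := sum_nonneg fun _ _ => sum_nonneg fun _ _ => nuI_nonneg _
  have hT3 : t ≤ 2 * M ^ D * a0 := by
    have h1 : t * (a * a) ^ 2 ≤ M ^ D * a * ((a * a) ^ 2 + t * a * nu A) :=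
      hb.trans (mul_le_mul_of_nonneg_right hI (by positivity))
    have h2 : t * a ^ 2 * (2 * M ^ D * nu A) ≤ t * a ^ 2 * a ^ 2 := by gcongr
    have h3 : t * a ^ 4 ≤ (2 * M ^ D * a) * a ^ 4 := by
      have e1 : t * (a * a) ^ 2 = t * a ^ 4 := by ring
      have e2 : M ^ D * a * ((a * a) ^ 2 + t * a * nu A) =
        (2 * M ^ D * a) * a ^ 4 / 2 + t * a ^ 2 * (2 * M ^ D * nu A) / 2 := by ring
      have e3 : t * a ^ 2 * a ^ 2 = t * a ^ 4 := by ring
      rw [e1, e2] at h1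
      rw [e3] at h2
      clear hZ' hZ hBZ
      linarith
    have h4 := le_of_mul_le_mul_right h3 (by positivity)
    refine h4.trans ?_
    gcongr
  have h4M : 4 * M ^ (D + 2) < M ^ (D + 19) := by
    have e : M ^ (D + 19) = M ^ 17 * M ^ (D + 2) := by ring
    rw [e]
    gcongr
    calc (4 : ℝ) < M ^ 1 := by linarith [pow_one M]
      _ ≤ _ := pow_le_pow_right₀ hM1 (by omega)
  rcases min_le_iff.1 hT2 with h | h
  · have h1 : (M ^ (D + 19)) ^ (2 * K + 1) ≤ ((S.card : ℝ) / 2) ^ (2 * K + 1) := by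
      gcongr
      linarith
    have h2 : M ^ (D + 19) * M ^ (2 * (D + 19) * K) ≤
        (2 * M ^ (D + 2)) * M ^ (2 * (D + 19) * K) := by
      calc _ = (M ^ (D + 19)) ^ (2 * K + 1) := by ring
        _ ≤ 2 * M ^ D * a0 := h1.trans (h.trans hT3)
        _ ≤ 2 * M ^ D * (M ^ 2 * M ^ (2 * (D + 19) * K)) := by gcongr
        _ = _ := by ring
    have h3 := le_of_mul_le_mul_right h2 (by positivity)
    have : 0 < M ^ (D + 2) := by positivity
    linarith
  · have h2 : M ^ (D + 19) * N ≤ (4 * M ^ (D + 2)) * N := by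
      calc _ ≤ M ^ (D + 19) * (2 * (2 * M ^ D * a0)) := by gcongr; linarith
        _ = 4 * M ^ D * (a0 * M ^ (D + 19)) := by ring
        _ ≤ 4 * M ^ D * (M ^ 2 * N) := by gcongr
        _ = _ := by ring
    have h3 := le_of_mul_le_mul_right h2 hNpos
    linarith

end Pool.Agent.P.MP_42fc1a_nt.TU
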