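import Pool.Agent.P.MP_42fc1a_nt.TU.IfL

/-! Step DIST. -/

set_option autoImplicit false
set_option linter.unusedSectionVars false

namespace Pool.Agent.P.MP_42fc1a_nt.TU

open Polynomial Finset
open Pool.Agent.P.MP_8be758_nt.L2 (IsPr Pd mem_Pd)
open scoped Classical

theorem dist_aux2 {n : ℕ} {Ω : Type} [Fintype Ω] [Nonempty Ω]
    (A : Fin n → (Fin n → Ω) → Prop) (hA : ∀ j i, j < i → Ind (A j) i)
    (hal : ∀ j x, al (A j) j x ≤ 1 / 6) (m : ℕ) (hm : m ≤ n) :
    ∃ w : (Fin n → Ω) → ℝ, (∀ x, 0 ≤ w x) ∧ (∀ j : Fin n, m ≤ j.val → Ind w j) ∧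
      (∀ (S : Finset (Fin n)) (f : (Fin n → Ω) → ℝ), (∀ x, 0 ≤ f x) → (∀ j ∉ S, Ind f j) →
        ∑ x, w x * f x ≤ (6 / 5) ^ (S.filter fun i => i.val < m).card * ∑ x, f x) ∧
      ∑ x, w x = Fintype.card (Fin n → Ω) ∧
      ∀ x, w x ≠ 0 → ∀ j : Fin n, j.val < m → ¬ A j x := by
  induction m with
  | zero =>
    refine ⟨fun _ => 1, fun _ => zero_le_one, fun _ _ _ _ => rfl, fun S f _ _ => by simp, by simp,
      fun _ _ j hj => absurd hj (Nat.not_lt_zero _)⟩
  | succ m ih =>
    obtain ⟨w, w0, w1, w2, w3, w4⟩ := ih (by omega)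
    let j : Fin n := ⟨m, hm⟩
    have hwj : Ind w j := w1 j le_rfl
    have hA' : ∀ i : Fin n, m + 1 ≤ i.val → Ind (A j) i := fun i hi =>
      hA j i (by rw [Fin.lt_def]; exact hi)
    refine ⟨fun x => w x * rho (A j) j x, fun x => mul_nonneg (w0 x) (rho_bd (A j) j x).1,
      fun i hi x ω => ?_, fun S f f0 f1 => ?_, (sum_rho hwj (A j)).trans w3, ?_⟩
    · simp only [w1 i (by omega) _ _, rho_ind (A j) j (hA' i hi) _ _]
    · have hf : 0 ≤ ∑ x, f x := sum_nonneg fun x _ => f0 x
      by_cases hj : j ∈ S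
      · have : (S.filter fun i => i.val < m + 1) = insert j (S.filter fun i => i.val < m) := by
          ext i
          simp only [mem_filter, mem_insert, Fin.ext_iff, j]
          constructor
          · rintro ⟨h1, h2⟩
            by_cases h : i.val = m
            · exact Or.inl h
            · exact Or.inr ⟨h1, by omega⟩
          · rintro (h | ⟨h1, h2⟩)
            · exact ⟨(Fin.ext h : i = j) ▸ hj, by omega⟩
            · exact ⟨h1, by omega⟩
        rw [this, card_insert_of_notMem (by simp [j]), pow_succ', mul_assoc]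
        refine le_trans ?_ (mul_le_mul_of_nonneg_left (w2 S f f0 f1) (by norm_num))
        rw [mul_sum]
        refine sum_le_sum fun x _ => ?_
        nlinarith [mul_nonneg (w0 x) (f0 x), (rho_bd (A j) j x).2]
      · have h1 := sum_rho (g := fun x => w x * f x) (j := j)
          (fun x ω => by simp only [hwj _ _, f1 j hj _ _]) (A j)
        calc _ = ∑ x, w x * f x * rho (A j) j x := sum_congr rfl fun x _ => by ring
          _ ≤ _ := h1.le.trans (w2 S f f0 f1)
          _ ≤ _ := by
            gcongr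
            · norm_num
            · omega
    · intro x hx i hi hAi
      by_cases h : i.val < m
      · exact w4 x (left_ne_zero_of_mul hx) i h hAi
      · have hij : i = j := Fin.ext (by simp only [j]; omega)
        rw [hij] at hAi
        apply right_ne_zero_of_mul hx
        unfold rho
        rw [if_pos (hal j x), ind_pos hAi]
        simp

theorem p_DIST :
    S_DIST := by
  intro n Ω τ _ _ A T C J w j0 hA hal hC hw hsum
  obtain ⟨W, w0, -, w2, w3, w4⟩ := dist_aux2 A hA hal n le_rfl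
  by_contra hcon
  have h1 : ∀ x, W x ≤ ∑ t ∈ T, W x * ind (C t x) := by
    intro x
    by_cases hx : W x = 0
    · simp [hx]
    · have : ∃ t ∈ T, C t x := by
        by_contra h
        exact hcon ⟨x, fun j => w4 x hx j j.is_lt, fun t ht hc => h ⟨t, ht, hc⟩⟩
      obtain ⟨t, ht, hc⟩ := this
      refine le_trans ?_ (single_le_sum (f := fun t => W x * ind (C t x))
        (fun t _ => mul_nonneg (w0 x) (ind_nonneg _)) ht)
      simp [ind_pos hc]
  have h2 : ∀ t ∈ T, ∑ x, ind (C t x) ≤ Fintype.card (Fin n → Ω) * w t := by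
    intro t ht
    have := sum_mul_eq (g := fun _ : Fin n → Ω => (1 : ℝ)) (j := j0) (fun _ _ => rfl)
      (fun x => ind (C t x)) (al (C t) j0) (sum_ind_update (C t) j0)
    simp only [one_mul] at this
    rw [this]
    calc _ ≤ ∑ _x : Fin n → Ω, w t := sum_le_sum fun x _ => hw t ht x
      _ = _ := by rw [sum_const, card_univ, nsmul_eq_mul]
  have h3 : ∀ t ∈ T, ∑ x, W x * ind (C t x) ≤
      Fintype.card (Fin n → Ω) * ((6 / 5) ^ (J t).card * w t) := by
    intro t ht
    refine (w2 (J t) (fun x => ind (C t x)) (fun x => ind_nonneg _) fun j hj x ω => ?_).trans ?_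
    · simp only [hC t ht j hj _ _]
    · have : ((J t).filter fun i => i.val < n) = J t := filter_true_of_mem fun i _ => i.is_lt
      rw [this, mul_left_comm]
      exact mul_le_mul_of_nonneg_left (h2 t ht) (by positivity)
  have hc : (0 : ℝ) < Fintype.card (Fin n → Ω) := by exact_mod_cast Fintype.card_pos
  have h4 : (Fintype.card (Fin n → Ω) : ℝ) ≤
      Fintype.card (Fin n → Ω) * ∑ t ∈ T, (6 / 5) ^ (J t).card * w t := by
    calc (Fintype.card (Fin n → Ω) : ℝ) = ∑ x, W x := w3.symm
      _ ≤ ∑ x, ∑ t ∈ T, W x * ind (C t x) := sum_le_sum fun x _ => h1 x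
      _ = ∑ t ∈ T, ∑ x, W x * ind (C t x) := sum_comm
      _ ≤ ∑ t ∈ T, Fintype.card (Fin n → Ω) * ((6 / 5) ^ (J t).card * w t) := sum_le_sum h3
      _ = _ := by rw [mul_sum]
  nlinarith

end Pool.Agent.P.MP_42fc1a_nt.TU
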