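import Pool.Agent.P.MP_42fc1a_nt.TU.If0
import Pool.Agent.P.MP_42fc1a_nt.TU.GFin
import Pool.Agent.P.MP_0a67b8_nt.RU.All

/-! Step FINAL. -/

set_option autoImplicit false
set_option linter.unusedSectionVars false

namespace Pool.Agent.P.MP_42fc1a_nt.TU

open Polynomial
open Pool.Agent.P.MP_8be758_nt.L2 Pool.Agent.P.MP_e94e4b_nt.RP.U

theorem p_FINAL (hLOC : S_LOC) :
    S_FINAL := by
  classical
  obtain ⟨k0, hL⟩ := hLOC
  refine ⟨k0 + 2, fun ε hε => ?_⟩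
  obtain ⟨n0, H⟩ := G.glob (G.cls (G.up z_NUM (G.inp2 z_ONE z_TWO z_SYM z_RZ z_CX z_CK z_CA z_CT1
    z_CT2 z_CP z_CZ) z_SUM z_WB z_U0 z_CVX z_CV z_ADM z_MER1)) z_MAP z_U0 z_MER3 hL hε
  refine ⟨n0, fun n hn => ?_⟩
  have h := H n hn
  rw [show qq (ZMod 2) = 2 by simp [qq], ← Set.ncard_coe_finset] at h
  refine le_trans (le_of_eq (congrArg _ (congrArg _ (Set.ext fun f => ?_)))) h
  simp only [Set.mem_setOf_eq, Finset.coe_filter, mem_Mo, and_assoc]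

end Pool.Agent.P.MP_42fc1a_nt.TU
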