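import Pool.Agent.P.MP_42fc1a_nt.TU.IfL

/-! Step FLD. -/

set_option autoImplicit false
set_option linter.unusedSectionVars false

namespace Pool.Agent.P.MP_42fc1a_nt.TU

open Polynomial Finset
open Pool.Agent.P.MP_8be758_nt.L2 (IsPr Pd mem_Pd)
open scoped Classical

theorem p_FLD :
    S_FLD := by
  intro P hP hX
  obtain ⟨hm, hi⟩ : P.Monic ∧ Irreducible P := hP
  have : Fact (Irreducible P) := ⟨hi⟩
  have pb := AdjoinRoot.powerBasis hm.ne_zero
  have : Module.Finite (ZMod 2) (AdjoinRoot P) := (AdjoinRoot.powerBasis hm.ne_zero).finite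
  have : Finite (AdjoinRoot P) := Module.finite_of_finite (ZMod 2)
  have : CharP (AdjoinRoot P) 2 :=
    charP_of_injective_algebraMap (algebraMap (ZMod 2) (AdjoinRoot P)).injective 2
  have h0 : AdjoinRoot.root P ≠ 0 := fun h => hX (eq_of_monic_of_associated hm monic_X
    (hi.associated_of_dvd irreducible_X (AdjoinRoot.mk_eq_zero.1 h)))
  refine ⟨AdjoinRoot P, inferInstance, Fintype.ofFinite _, Classical.decEq _, inferInstance,
    Units.mk0 _ h0, AdjoinRoot.mk P, rfl, fun g => AdjoinRoot.mk_eq_zero, ?_, fun v => ?_,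
    fun c => ?_⟩
  · rw [@Module.card_eq_pow_finrank (ZMod 2) _ _ _ _ _ (Fintype.ofFinite _), ZMod.card,
      (AdjoinRoot.powerBasis hm.ne_zero).finrank, AdjoinRoot.powerBasis_dim]
  · obtain ⟨g, hg⟩ := AdjoinRoot.mk_surjective (v / AdjoinRoot.root P)
    have h1 : AdjoinRoot.mk P (g %ₘ P) = v / AdjoinRoot.root P := by
      rw [← hg, AdjoinRoot.mk_eq_mk]
      exact ⟨-(g /ₘ P), by linear_combination modByMonic_add_div g P⟩
    refine ⟨(g %ₘ P).support, fun j hj => mem_range.2 ((le_natDegree_of_mem_supp j hj).trans_lt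
      (natDegree_modByMonic_lt g hm hi.ne_one)), ?_⟩
    rw [← div_mul_cancel₀ v h0, ← h1]
    conv_lhs => rw [(g %ₘ P).as_sum_support]
    rw [map_sum, sum_mul]
    refine sum_congr rfl fun j hj => ?_
    have h2 : (g %ₘ P).coeff j = 1 := by
      have := mem_support_iff.1 hj
      revert this
      generalize (g %ₘ P).coeff j = a
      revert a
      decide
    rw [h2, ← X_pow_eq_monomial, map_pow, AdjoinRoot.mk_X, Units.val_mk0, pow_succ]
  · rw [oo, ← orderOf_units, Units.val_pow_eq_pow_val, Units.val_mk0]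

end Pool.Agent.P.MP_42fc1a_nt.TU
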