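import Pool.Agent.P.MP_42fc1a_nt.TU.If0
import Pool.Agent.P.MP_42fc1a_nt.TU.IfL

/-! Step LOC. -/

set_option autoImplicit false
set_option linter.unusedSectionVars false

namespace Pool.Agent.P.MP_42fc1a_nt.TU

open Polynomial

namespace LOCx

theorem one_of_ne (x : ZMod 2) (h : x ≠ 0) : x = 1 := by
  revert x
  decide

theorem dvd_shift (c i m : ℕ) :
    (X ^ c - 1 : (ZMod 2)[X]) ∣ X ^ (i + c * m) - X ^ i := by
  have h : (X ^ (i + c * m) - X ^ i : (ZMod 2)[X]) = X ^ i * ((X ^ c) ^ m - 1 ^ m) := by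
    rw [pow_add, pow_mul, one_pow]
    ring
  rw [h]
  exact (sub_dvd_pow_sub_pow _ _ m).mul_left _

theorem red (c : ℕ) (hc : 1 ≤ c) (g : (ZMod 2)[X]) :
    ∃ T : Finset ℕ, T.card ≤ c ∧ (X ^ c - 1 : (ZMod 2)[X]) ∣ (∑ b ∈ T, X ^ (b + c * 1)) - g := by
  have hm : (X ^ c - 1 : (ZMod 2)[X]).Monic := by
    simpa using monic_X_pow_sub_C (1 : ZMod 2) (by omega : c ≠ 0)
  have hd : (X ^ c - 1 : (ZMod 2)[X]).degree = c := by
    simpa using degree_X_pow_sub_C (by omega : 0 < c) (1 : ZMod 2)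
  set r := g %ₘ (X ^ c - 1) with hr
  have hlt : r.degree < c := hd ▸ degree_modByMonic_lt g hm
  refine ⟨r.support, ?_, ?_⟩
  · calc r.support.card ≤ (Finset.range c).card := by
          refine Finset.card_le_card fun i hi => Finset.mem_range.2 ?_
          have := (le_degree_of_mem_supp i hi).trans_lt hlt
          exact_mod_cast this
      _ = c := Finset.card_range c
  · have e : r = ∑ b ∈ r.support, X ^ b := by
      conv_lhs => rw [r.as_sum_support]
      refine Finset.sum_congr rfl fun i hi => ?_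
      rw [one_of_ne _ (mem_support_iff.1 hi), monomial_one_right_eq_X_pow]
    have h1 : (X ^ c - 1 : (ZMod 2)[X]) ∣ (∑ b ∈ r.support, X ^ (b + c * 1)) - r := by
      conv_rhs => rw [e]
      rw [← e, show (∑ b ∈ r.support, X ^ (b + c * 1) : (ZMod 2)[X]) - r =
        ∑ b ∈ r.support, (X ^ (b + c * 1) - X ^ b) by rw [Finset.sum_sub_distrib, ← e]]
      exact Finset.dvd_sum fun b _ => dvd_shift c b 1
    have h2 : (X ^ c - 1 : (ZMod 2)[X]) ∣ r - g := by
      have := modByMonic_add_div g (X ^ c - 1)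
      exact ⟨-(g /ₘ (X ^ c - 1)), by rw [hr]; linear_combination this⟩
    have := dvd_add h1 h2
    rwa [sub_add_sub_cancel] at this

theorem fix0 (f : (ZMod 2)[X]) :
    ∃ e : Multiset ℕ, e.card ≤ 1 ∧ (f + (e.map fun a => X ^ a).sum).coeff 0 = 1 := by
  by_cases h : f.coeff 0 = 0
  · exact ⟨{0}, by simp, by simp [h]⟩
  · exact ⟨0, by simp, by simpa using one_of_ne _ h⟩

theorem alf_pos {N D : ℕ} (i : IX N D) : 1 ≤ alf i := by
  cases i <;> simp [alf]

end LOCx

open LOCx in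
theorem p_LOC (hAV : S_AV) :
    S_LOC := by
  classical
  obtain ⟨c, N, D, hc, H⟩ := hAV
  refine ⟨1 + c + Fintype.card (IX N D), fun f W hW => ?_⟩
  obtain ⟨e, he, he0⟩ := fix0 f
  set f1 := f + (e.map fun a => X ^ a).sum with hf1
  obtain ⟨T, hT, hTd⟩ := red c hc (1 - f1 - ∑ i : IX N D, X ^ alf i)
  obtain ⟨a, ha, hS⟩ := H (f1 + ∑ b ∈ T, X ^ (b + c * 1))
    ((UniqueFactorizationMonoid.normalizedFactors W).toFinset.filter
      fun P => P ≠ X ∧ ¬ P ∣ X ^ c - 1) (by
    intro P hP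
    obtain ⟨h1, h2, h3⟩ := Finset.mem_filter.1 hP
    obtain ⟨h4, h5, -⟩ := (Polynomial.mem_normalizedFactors_iff hW).1 (Multiset.mem_toFinset.1 h1)
    exact ⟨⟨h5, h4⟩, h2, h3⟩)
  refine ⟨e + T.val.map (fun b => b + c * 1) + Finset.univ.val.map a, ?_, ?_⟩
  · simp only [Multiset.card_add, Multiset.card_map, Finset.card_val, Finset.card_univ]
    omega
  have eF : f + ((e + T.val.map (fun b => b + c * 1) + Finset.univ.val.map a).map
      fun a => (X ^ a : (ZMod 2)[X])).sum =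
      f1 + ∑ b ∈ T, X ^ (b + c * 1) + ∑ i, X ^ a i := by
    simp only [Multiset.map_add, Multiset.sum_add, Multiset.map_map, hf1]
    rw [add_assoc, add_assoc, add_assoc]
    rfl
  rw [eF]
  refine isCoprime_of_irreducible_dvd (fun h => hW h.2) fun P hP hF hPW => ?_
  have hmon : P.Monic := one_of_ne _ (leadingCoeff_ne_zero.2 hP.ne_zero)
  by_cases h1 : P = X
  · rw [h1, X_dvd_iff, coeff_add, coeff_add, he0, finsetSum_coeff, finsetSum_coeff,
      Finset.sum_eq_zero, Finset.sum_eq_zero] at hF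
    · simp at hF
    · intro i _
      obtain ⟨m, hm⟩ := ha i
      have := alf_pos i
      rw [coeff_X_pow, if_neg (by omega)]
    · intro b _
      rw [coeff_X_pow, if_neg (by omega)]
  by_cases h2 : P ∣ X ^ c - 1
  · have h3 : (X ^ c - 1 : (ZMod 2)[X]) ∣ ∑ i : IX N D, (X ^ a i - X ^ alf i) :=
      Finset.dvd_sum fun i _ => by
        obtain ⟨m, hm⟩ := ha i
        rw [hm]
        exact dvd_shift c _ m
    have h4 := dvd_sub hF (h2.trans (dvd_add hTd h3))
    rw [Finset.sum_sub_distrib] at h4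
    refine hP.not_isUnit (isUnit_of_dvd_one ?_)
    convert h4 using 1
    ring
  · exact hS P (Finset.mem_filter.2 ⟨Multiset.mem_toFinset.2
      ((Polynomial.mem_normalizedFactors_iff hW).2 ⟨hP, hmon, hPW⟩), h1, h2⟩) hF

end Pool.Agent.P.MP_42fc1a_nt.TU
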