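import Pool.Agent.P.MP_42fc1a_nt.TU.IfL

/-! Step TWO. -/

set_option autoImplicit false
set_option linter.unusedSectionVars false

namespace Pool.Agent.P.MP_42fc1a_nt.TU

open Polynomial Finset
open Pool.Agent.P.MP_8be758_nt.L2 (IsPr Pd mem_Pd)
open scoped Classical

theorem p_TWO (hGS : S_GS) (hPERP : S_PERP) :
    S_TWO := by
  intro F _ _ _ Γ _ _ φ K N D u r G hK hQ hG hu
  have hQ0 : (0 : ℝ) < Nat.card K := by exact_mod_cast Nat.card_pos
  have hN : (0 : ℝ) < Fintype.card F := by exact_mod_cast Fintype.card_pos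
  have hG0 : (0 : ℝ) < G.card := by exact_mod_cast (by omega : 0 < G.card)
  have h1 : ∀ ξ : F, ‖ft (mu φ) ξ‖ ^ 10 ≤
      (if ∀ κ ∈ K, ch F (ξ * κ) = 1 then (1 : ℝ) else 0) + 1 / Nat.card K := fun ξ => by
    split_ifs with h
    · have := pow_le_one₀ (n := 10) (norm_nonneg _) (norm_ft_mu_le φ ξ)
      have h2 : (0 : ℝ) ≤ 1 / Nat.card K := by positivity
      linarith
    · have h2 := pow_le_pow_left₀ (by positivity) ((hGS F Γ φ K ξ hK).resolve_left h) 5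
      have h3 : (Nat.card K : ℝ) ^ 6 ≤ (Nat.card φ.range : ℝ) ^ 10 := by exact_mod_cast hQ
      have h4 := mul_le_mul_of_nonneg_right h3 (pow_nonneg (norm_nonneg (ft (mu φ) ξ)) 10)
      rw [zero_add, le_div_iff₀ hQ0]
      refine le_of_mul_le_mul_left (a := (Nat.card K : ℝ) ^ 5) ?_ (by positivity)
      calc _ = (Nat.card K : ℝ) ^ 6 * ‖ft (mu φ) ξ‖ ^ 10 := by ring
        _ ≤ _ := h4
        _ = ((Nat.card φ.range : ℝ) ^ 2 * ‖ft (mu φ) ξ‖ ^ 2) ^ 5 := by ring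
        _ ≤ _ := by rw [mul_one]; exact h2
  have h2 : ∀ v v' : Fˣ, ((v * v'⁻¹ : Fˣ) : F) ∉ K →
      ∑ ξ : F, (‖ft (mu φ) (v * ξ)‖ * ‖ft (mu φ) (v' * ξ)‖) ^ 10 ≤
        4 / (Nat.card K : ℝ) ^ 2 * Fintype.card F := fun v v' hv => by
    have e1 := (hPERP F K v v').1
    have e2 := (hPERP F K v' v).1
    have e3 := (hPERP F K v v').2 hv
    rw [card_filter, Nat.cast_sum] at e1 e2 e3
    push_cast at e1 e2 e3
    refine (sum_le_sum fun ξ _ => (mul_pow _ _ _).trans_le (mul_le_mul (h1 (v * ξ)) (h1 (v' * ξ))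
      (by positivity) (by positivity))).trans (le_of_eq ?_)
    have e4 : ∀ ξ : F, ((if ∀ κ ∈ K, ch F (v * ξ * κ) = 1 then (1 : ℝ) else 0) + 1 / Nat.card K) *
        ((if ∀ κ ∈ K, ch F (v' * ξ * κ) = 1 then (1 : ℝ) else 0) + 1 / Nat.card K) =
        (if (∀ κ ∈ K, ch F (v * ξ * κ) = 1) ∧ ∀ κ ∈ K, ch F (v' * ξ * κ) = 1 then (1 : ℝ) else 0) +
        (if ∀ κ ∈ K, ch F (v * ξ * κ) = 1 then (1 : ℝ) else 0) * (1 / Nat.card K) +
        (if ∀ κ ∈ K, ch F (v' * ξ * κ) = 1 then (1 : ℝ) else 0) * (1 / Nat.card K) +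
        (1 / Nat.card K) ^ 2 := fun ξ => by
      by_cases a : ∀ κ ∈ K, ch F (v * ξ * κ) = 1 <;>
        by_cases b : ∀ κ ∈ K, ch F (v' * ξ * κ) = 1
      · rw [if_pos a, if_pos b, if_pos ⟨a, b⟩]; ring
      · rw [if_pos a, if_neg b, if_neg fun h => b h.2]; ring
      · rw [if_neg a, if_pos b, if_neg fun h => a h.1]; ring
      · rw [if_neg a, if_neg b, if_neg fun h => a h.1]; ring
    rw [sum_congr rfl fun ξ _ => e4 ξ, sum_add_distrib, sum_add_distrib, sum_add_distrib,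
      ← sum_mul, ← sum_mul, sum_const, card_univ, nsmul_eq_mul, eq_div_of_mul_eq hQ0.ne' e1,
      eq_div_of_mul_eq hQ0.ne' e2, eq_div_of_mul_eq (pow_pos hQ0 2).ne' e3]
    field_simp
    ring
  refine (pr_le φ u r).trans ?_
  rw [div_le_iff₀ hN]
  have h3 : ∀ ξ : F, ∏ i, ‖ft (mu φ) (u i * ξ)‖ ≤ (∑ m ∈ G, (‖ft (mu φ) (u (.inl (m, 0)) * ξ)‖ *
      ‖ft (mu φ) (u (.inl (m, 1)) * ξ)‖) ^ 10) / G.card := fun ξ => by
    have b1 : ∀ m : Fin 12, ‖ft (mu φ) (u (.inl (m, 0)) * ξ)‖ *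
        ‖ft (mu φ) (u (.inl (m, 1)) * ξ)‖ ≤ 1 := fun m =>
      mul_le_one₀ (norm_ft_mu_le φ _) (norm_nonneg _) (norm_ft_mu_le φ _)
    rw [Fintype.prod_sum_type, Fintype.prod_prod_type]
    simp only [Fin.prod_univ_two]
    refine (mul_le_of_le_one_right (by positivity)
      (prod_le_one (fun _ _ => norm_nonneg _) fun _ _ => norm_ft_mu_le φ _)).trans ?_
    refine (prod_le_prod_of_subset_of_le_one (subset_univ G) (fun _ _ => by positivity)
      fun m _ _ => b1 m).trans ?_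
    refine (prod_le_avg G (card_pos.1 (by omega)) _ fun _ => by positivity).trans ?_
    gcongr ?_ / _
    exact sum_le_sum fun m _ => pow_le_pow_of_le_one (by positivity) (b1 m) hG
  refine (sum_le_sum fun ξ _ => h3 ξ).trans ?_
  rw [← sum_div, sum_comm, div_le_iff₀ hG0]
  refine (sum_le_sum fun m hm => h2 _ _ (hu m hm)).trans (le_of_eq ?_)
  rw [sum_const, nsmul_eq_mul, mul_comm]

end Pool.Agent.P.MP_42fc1a_nt.TU
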